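import Pool.Agent.Run7.h243.Loc4

set_option linter.unusedSectionVars false
set_option linter.unusedSimpArgs false

/-! Infinite families from one table. -/

namespace Run7.h243

open Run7.B243

/-- near-optimal maps: the Euler characteristic is the largest possible even one -/
def Opt (n m : ℕ) : Prop := ∃ ε : ℤ, GoodE true ε n m ∧ Even ε ∧
  (n : ℤ) * (6 * m + 1 - n) - 10 ≤ 6 * ε

namespace Dat

variable {D : Dat}

/-- the family of a table, even case -/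
theorem fam_even (ok : D.Ok) (t s0 q : ℕ) (hw : D.w = 2) (hδ : D.big.length ≤ 8)
    (hd : D.d = 2 * t + 5) (hoff : D.hasOff (offE t)) (hrel : D.relE t (s0 % 2))
    (h0 : 3 * s0 + 3 + t = D.h0) (hq : D.P * q = 6) (ht : t ≤ 32)
    (s c : ℕ) (hs : s0 ≤ s) (hs9 : 9 ≤ s) (hpar : s % 2 = s0 % 2)
    (hc : 1 ≤ c) (hcs : c ≤ s) (hp : (s + c) % 2 = 0) :
    Opt (6 * s + 6 + 2 * t) (c + D.c0) := by
  obtain ⟨u, hu⟩ : ∃ u, s = s0 + 2 * u := ⟨(s - s0) / 2, by omega⟩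
  obtain ⟨ε, h1, h2, h3⟩ := good_even ok 5 t hδ hw hd hoff s (q * u) c (by rw [hpar]; exact hrel)
    (by
      have : D.P * (q * u) = 6 * u := by rw [← hq]; ring
      rw [this, ← h0, hu]; ring) ht hs9 hc hcs hp
  refine ⟨ε, h1, h2, ?_⟩
  push_cast at h3 ⊢
  linarith

/-- the family of a table, odd case -/
theorem fam_odd (ok : D.Ok) (t s0 q : ℕ) (hw : D.w = 1) (hδ : D.big.length ≤ 8)
    (hd : D.d = 2 * t + 6) (hoff : D.hasOff (offO t)) (hrel : D.relO t (s0 % 2))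
    (h0 : 6 * s0 + 6 + (2 * t + 1) = D.h0) (hq : D.P * q = 12) (ht : t ≤ 15)
    (s c : ℕ) (hs : s0 ≤ s) (hs9 : 9 ≤ s) (hpar : s % 2 = s0 % 2)
    (hc : 1 ≤ c) (hcs : c ≤ s) (hp : (s + c) % 2 = 0) :
    Opt (6 * s + 6 + (2 * t + 1)) (c + D.c0) := by
  obtain ⟨u, hu⟩ : ∃ u, s = s0 + 2 * u := ⟨(s - s0) / 2, by omega⟩
  obtain ⟨ε, h1, h2, h3⟩ := good_odd ok 5 t hδ hw hd hoff s (q * u) c (by rw [hpar]; exact hrel)
    (by
      have : D.P * (q * u) = 12 * u := by rw [← hq]; ring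
      rw [this, ← h0, hu]; ring) ht hs9 hc hcs hp
  refine ⟨ε, h1, h2, ?_⟩
  push_cast at h3 ⊢
  linarith

end Dat

/-- from near-optimal maps to the surfaces -/
theorem opt_surface (g m n : ℕ) (hm : 1 ≤ m) (hH : H (2 - 2 * (g : ℤ)) m = n) (hO : Opt n m) :
    GoodE true (2 - 2 * (g : ℤ)) n m := by
  obtain ⟨ε, h1, h2, h3⟩ := hO
  obtain ⟨a1, a2, a3, a4⟩ := H_spec (2 - 2 * (g : ℤ)) m hm (by omega)
  rw [hH] at a1
  obtain ⟨t, ht⟩ := h2
  obtain ⟨k, hk⟩ : ∃ k : ℕ, ε - 2 * k = 2 - 2 * (g : ℤ) :=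
    ⟨(t - (1 - (g : ℤ))).toNat, by omega⟩
  have hg := goodE_handles ε n m k h1
  rwa [hk] at hg

end Run7.h243
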