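import Pool.Agent.Run7.h243.Main
import Pool.Agent.Run7.h243.G.Pure
import Pool.Agent.Run7.h243.G.Five
import Pool.Agent.Run7.h243.T.G2
import Pool.Agent.Run7.h243.T.G3
import Pool.Agent.Run7.h243.T.G4
import Pool.Agent.Run7.h243.T.G5
import Pool.Agent.Run7.h243.T.G6
import Pool.Agent.Run7.h243.F.D98_1_13
import Pool.Agent.Run7.h243.F.D102_2_0
import Pool.Agent.Run7.h243.F.D114_2_0

set_option maxRecDepth 100000

/-! All maps with at least `92` countries. -/

namespace Run7.h243

open Run7.B243 Run7.h243.Tab

/-- two parts per country, even `k` -/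
theorem opt_two (k r : ℕ) (hk : 16 ≤ k) (hr : 2 ≤ r) (hr6 : r ≤ 6) (hp : k % 2 = 0) :
    Opt (6 * k + r) 2 := by
  interval_cases r
  · obtain rfl | h18 : k = 16 ∨ 18 ≤ k := by omega
    · exact D98_1_13.opt2.cast (by norm_num) rfl
    · exact (Dat.fam4_even g2_ok 6 15 1 (by decide) (by decide) (by decide) g2_off g2_rel (by decide)
        (by decide) (by decide) (by decide) (k - 3) (by omega) (by omega) (by omega)).cast
        (by omega) (by decide)
  · exact (Dat.fam4_odd g3_ok 6 11 2 (by decide) (by decide) (by decide) g3_off g3_rel (by decide)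
      (by decide) (by decide) (by decide) (k - 3) (by omega) (by omega) (by omega)).cast
      (by omega) (by decide)
  · exact (Dat.fam4_even g4_ok 7 11 1 (by decide) (by decide) (by decide) g4_off g4_rel (by decide)
      (by decide) (by decide) (by decide) (k - 3) (by omega) (by omega) (by omega)).cast
      (by omega) (by decide)
  · exact (Dat.fam4_odd g5_ok 7 11 2 (by decide) (by decide) (by decide) g5_off g5_rel (by decide)
      (by decide) (by decide) (by decide) (k - 3) (by omega) (by omega) (by omega)).cast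
      (by omega) (by decide)
  · obtain rfl | rfl | h20 : k = 16 ∨ k = 18 ∨ 20 ≤ k := by omega
    · exact D102_2_0.opt2.cast (by norm_num) rfl
    · exact D114_2_0.opt2.cast (by norm_num) rfl
    · exact (Dat.fam5_even g6_ok 7 17 1 (by decide) (by decide) (by decide) g6_off g6_rel (by decide)
        (by decide) (by decide) (by decide) (k - 3) (by omega) (by omega) (by omega)).cast
        (by omega) (by decide)

/-- all maps with at least `92` countries -/
theorem opt_big (n m : ℕ) (hn : 92 ≤ n) (hm : 2 ≤ m) (hnm : 6 * m + 1 ≤ n) : Opt n m := by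
  obtain ⟨k, hk⟩ : ∃ k, k = (n - 1) / 6 := ⟨_, rfl⟩
  obtain ⟨r, hr⟩ : ∃ r, r = n - 6 * k := ⟨_, rfl⟩
  obtain h1 | h1 : r = 1 ∨ 2 ≤ r := by omega
  · obtain hp | hp : (m + k) % 2 = 0 ∨ (m + k) % 2 = 1 := by omega
    · exact (G.opt_pure k m (by omega) (by omega) (by omega) hp).cast (by omega) rfl
    · exact (opt_one k m (by omega) hm (by omega)).cast (by omega) rfl
  · obtain ⟨h2, hp⟩ | h2 : (m = 2 ∧ k % 2 = 0) ∨ (m = 2 → k % 2 = 1) := by omega
    · subst h2
      exact (opt_two k r (by omega) h1 (by omega) hp).cast (by omega) rfl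
    · exact (opt_ne1 k r m (by omega) h1 (by omega) hm (by omega) h2).cast (by omega) rfl

end Run7.h243
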