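import Pool.Agent.Run7.h243.T.T1P0C1
import Pool.Agent.Run7.h243.T.T1P0E2
import Pool.Agent.Run7.h243.T.T1P1C1
import Pool.Agent.Run7.h243.T.T1P1E2
import Pool.Agent.Run7.h243.T.T2P0C1
import Pool.Agent.Run7.h243.T.T2P0C2
import Pool.Agent.Run7.h243.T.T2P1C1
import Pool.Agent.Run7.h243.T.T2P1C2
import Pool.Agent.Run7.h243.T.T3P0C1
import Pool.Agent.Run7.h243.T.T3P0C2
import Pool.Agent.Run7.h243.T.T3P1C1
import Pool.Agent.Run7.h243.T.T3P1C2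
import Pool.Agent.Run7.h243.T.T4P0C1
import Pool.Agent.Run7.h243.T.T4P0C2
import Pool.Agent.Run7.h243.T.T4P1C1
import Pool.Agent.Run7.h243.T.T4P1C2
import Pool.Agent.Run7.h243.T.T5P0C1
import Pool.Agent.Run7.h243.T.T5P0C2
import Pool.Agent.Run7.h243.T.T5P1C1
import Pool.Agent.Run7.h243.T.T5P1C2
import Pool.Agent.Run7.h243.T.T6P0C1
import Pool.Agent.Run7.h243.T.T6P0C2
import Pool.Agent.Run7.h243.T.T6P1C1
import Pool.Agent.Run7.h243.T.T6P1C2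
import Pool.Agent.Run7.h243.Fam

set_option linter.unusedSectionVars false
set_option linter.unusedSimpArgs false

/-! Infinite families from the tables. -/

namespace Run7.h243

open Run7.B243 Tab

theorem fam_t1p0c1 (s c : ℕ) (hs : 11 ≤ s) (hpar : s % 2 = 1) (hc : 1 ≤ c) (hcs : c ≤ s)
    (hp : (s + c) % 2 = 0) : Opt (6 * s + 6 + (2 * 6 + 1)) (c + 1) :=
  Dat.fam_odd t1p0c1_ok 6 11 12 rfl (by decide) rfl t1p0c1_off t1p0c1_rel rfl rfl (by norm_num) s c (by omega)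
    (by omega) (by omega) hc hcs hp

theorem fam_t1p0e2 (s c : ℕ) (hs : 12 ≤ s) (hpar : s % 2 = 0) (hc : 1 ≤ c) (hcs : c ≤ s)
    (hp : (s + c) % 2 = 0) : Opt (6 * s + 6 + (2 * 3 + 1)) (c + 1) :=
  Dat.fam_odd t1p0e2_ok 3 12 1 rfl (by decide) rfl t1p0e2_off t1p0e2_rel rfl rfl (by norm_num) s c (by omega)
    (by omega) (by omega) hc hcs hp

theorem fam_t1p1c1 (s c : ℕ) (hs : 10 ≤ s) (hpar : s % 2 = 0) (hc : 1 ≤ c) (hcs : c ≤ s)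
    (hp : (s + c) % 2 = 0) : Opt (6 * s + 6 + (2 * 6 + 1)) (c + 1) :=
  Dat.fam_odd t1p1c1_ok 6 10 6 rfl (by decide) rfl t1p1c1_off t1p1c1_rel rfl rfl (by norm_num) s c (by omega)
    (by omega) (by omega) hc hcs hp

theorem fam_t1p1e2 (s c : ℕ) (hs : 11 ≤ s) (hpar : s % 2 = 1) (hc : 1 ≤ c) (hcs : c ≤ s)
    (hp : (s + c) % 2 = 0) : Opt (6 * s + 6 + (2 * 3 + 1)) (c + 1) :=
  Dat.fam_odd t1p1e2_ok 3 11 1 rfl (by decide) rfl t1p1e2_off t1p1e2_rel rfl rfl (by norm_num) s c (by omega)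
    (by omega) (by omega) hc hcs hp

theorem fam_t2p0c1 (s c : ℕ) (hs : 12 ≤ s) (hpar : s % 2 = 0) (hc : 1 ≤ c) (hcs : c ≤ s)
    (hp : (s + c) % 2 = 0) : Opt (6 * s + 6 + 2 * 4) (c + 1) :=
  Dat.fam_even t2p0c1_ok 4 12 1 rfl (by decide) rfl t2p0c1_off t2p0c1_rel rfl rfl (by norm_num) s c (by omega)
    (by omega) (by omega) hc hcs hp

theorem fam_t2p0c2 (s c : ℕ) (hs : 10 ≤ s) (hpar : s % 2 = 0) (hc : 1 ≤ c) (hcs : c ≤ s)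
    (hp : (s + c) % 2 = 0) : Opt (6 * s + 6 + 2 * 4) (c + 2) :=
  Dat.fam_even t2p0c2_ok 4 10 1 rfl (by decide) rfl t2p0c2_off t2p0c2_rel rfl rfl (by norm_num) s c (by omega)
    (by omega) (by omega) hc hcs hp

theorem fam_t2p1c1 (s c : ℕ) (hs : 11 ≤ s) (hpar : s % 2 = 1) (hc : 1 ≤ c) (hcs : c ≤ s)
    (hp : (s + c) % 2 = 0) : Opt (6 * s + 6 + 2 * 4) (c + 1) :=
  Dat.fam_even t2p1c1_ok 4 11 1 rfl (by decide) rfl t2p1c1_off t2p1c1_rel rfl rfl (by norm_num) s c (by omega)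
    (by omega) (by omega) hc hcs hp

theorem fam_t2p1c2 (s c : ℕ) (hs : 11 ≤ s) (hpar : s % 2 = 1) (hc : 1 ≤ c) (hcs : c ≤ s)
    (hp : (s + c) % 2 = 0) : Opt (6 * s + 6 + 2 * 4) (c + 2) :=
  Dat.fam_even t2p1c2_ok 4 11 1 rfl (by decide) rfl t2p1c2_off t2p1c2_rel rfl rfl (by norm_num) s c (by omega)
    (by omega) (by omega) hc hcs hp

theorem fam_t3p0c1 (s c : ℕ) (hs : 9 ≤ s) (hpar : s % 2 = 0) (hc : 1 ≤ c) (hcs : c ≤ s)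
    (hp : (s + c) % 2 = 0) : Opt (6 * s + 6 + (2 * 4 + 1)) (c + 1) :=
  Dat.fam_odd t3p0c1_ok 4 8 4 rfl (by decide) rfl t3p0c1_off t3p0c1_rel rfl rfl (by norm_num) s c (by omega)
    (by omega) (by omega) hc hcs hp

theorem fam_t3p0c2 (s c : ℕ) (hs : 10 ≤ s) (hpar : s % 2 = 0) (hc : 1 ≤ c) (hcs : c ≤ s)
    (hp : (s + c) % 2 = 0) : Opt (6 * s + 6 + (2 * 4 + 1)) (c + 2) :=
  Dat.fam_odd t3p0c2_ok 4 10 2 rfl (by decide) rfl t3p0c2_off t3p0c2_rel rfl rfl (by norm_num) s c (by omega)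
    (by omega) (by omega) hc hcs hp

theorem fam_t3p1c1 (s c : ℕ) (hs : 9 ≤ s) (hpar : s % 2 = 1) (hc : 1 ≤ c) (hcs : c ≤ s)
    (hp : (s + c) % 2 = 0) : Opt (6 * s + 6 + (2 * 4 + 1)) (c + 1) :=
  Dat.fam_odd t3p1c1_ok 4 7 4 rfl (by decide) rfl t3p1c1_off t3p1c1_rel rfl rfl (by norm_num) s c (by omega)
    (by omega) (by omega) hc hcs hp

theorem fam_t3p1c2 (s c : ℕ) (hs : 9 ≤ s) (hpar : s % 2 = 1) (hc : 1 ≤ c) (hcs : c ≤ s)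
    (hp : (s + c) % 2 = 0) : Opt (6 * s + 6 + (2 * 4 + 1)) (c + 2) :=
  Dat.fam_odd t3p1c2_ok 4 9 2 rfl (by decide) rfl t3p1c2_off t3p1c2_rel rfl rfl (by norm_num) s c (by omega)
    (by omega) (by omega) hc hcs hp

theorem fam_t4p0c1 (s c : ℕ) (hs : 9 ≤ s) (hpar : s % 2 = 0) (hc : 1 ≤ c) (hcs : c ≤ s)
    (hp : (s + c) % 2 = 0) : Opt (6 * s + 6 + 2 * 5) (c + 1) :=
  Dat.fam_even t4p0c1_ok 5 8 3 rfl (by decide) rfl t4p0c1_off t4p0c1_rel rfl rfl (by norm_num) s c (by omega)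
    (by omega) (by omega) hc hcs hp

theorem fam_t4p0c2 (s c : ℕ) (hs : 10 ≤ s) (hpar : s % 2 = 0) (hc : 1 ≤ c) (hcs : c ≤ s)
    (hp : (s + c) % 2 = 0) : Opt (6 * s + 6 + 2 * 5) (c + 2) :=
  Dat.fam_even t4p0c2_ok 5 10 1 rfl (by decide) rfl t4p0c2_off t4p0c2_rel rfl rfl (by norm_num) s c (by omega)
    (by omega) (by omega) hc hcs hp

theorem fam_t4p1c1 (s c : ℕ) (hs : 11 ≤ s) (hpar : s % 2 = 1) (hc : 1 ≤ c) (hcs : c ≤ s)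
    (hp : (s + c) % 2 = 0) : Opt (6 * s + 6 + 2 * 5) (c + 1) :=
  Dat.fam_even t4p1c1_ok 5 11 3 rfl (by decide) rfl t4p1c1_off t4p1c1_rel rfl rfl (by norm_num) s c (by omega)
    (by omega) (by omega) hc hcs hp

theorem fam_t4p1c2 (s c : ℕ) (hs : 9 ≤ s) (hpar : s % 2 = 1) (hc : 1 ≤ c) (hcs : c ≤ s)
    (hp : (s + c) % 2 = 0) : Opt (6 * s + 6 + 2 * 5) (c + 2) :=
  Dat.fam_even t4p1c2_ok 5 9 1 rfl (by decide) rfl t4p1c2_off t4p1c2_rel rfl rfl (by norm_num) s c (by omega)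
    (by omega) (by omega) hc hcs hp

theorem fam_t5p0c1 (s c : ℕ) (hs : 9 ≤ s) (hpar : s % 2 = 0) (hc : 1 ≤ c) (hcs : c ≤ s)
    (hp : (s + c) % 2 = 0) : Opt (6 * s + 6 + (2 * 5 + 1)) (c + 1) :=
  Dat.fam_odd t5p0c1_ok 5 8 2 rfl (by decide) rfl t5p0c1_off t5p0c1_rel rfl rfl (by norm_num) s c (by omega)
    (by omega) (by omega) hc hcs hp

theorem fam_t5p0c2 (s c : ℕ) (hs : 9 ≤ s) (hpar : s % 2 = 0) (hc : 1 ≤ c) (hcs : c ≤ s)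
    (hp : (s + c) % 2 = 0) : Opt (6 * s + 6 + (2 * 5 + 1)) (c + 2) :=
  Dat.fam_odd t5p0c2_ok 5 8 4 rfl (by decide) rfl t5p0c2_off t5p0c2_rel rfl rfl (by norm_num) s c (by omega)
    (by omega) (by omega) hc hcs hp

theorem fam_t5p1c1 (s c : ℕ) (hs : 9 ≤ s) (hpar : s % 2 = 1) (hc : 1 ≤ c) (hcs : c ≤ s)
    (hp : (s + c) % 2 = 0) : Opt (6 * s + 6 + (2 * 5 + 1)) (c + 1) :=
  Dat.fam_odd t5p1c1_ok 5 9 2 rfl (by decide) rfl t5p1c1_off t5p1c1_rel rfl rfl (by norm_num) s c (by omega)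
    (by omega) (by omega) hc hcs hp

theorem fam_t5p1c2 (s c : ℕ) (hs : 9 ≤ s) (hpar : s % 2 = 1) (hc : 1 ≤ c) (hcs : c ≤ s)
    (hp : (s + c) % 2 = 0) : Opt (6 * s + 6 + (2 * 5 + 1)) (c + 2) :=
  Dat.fam_odd t5p1c2_ok 5 7 4 rfl (by decide) rfl t5p1c2_off t5p1c2_rel rfl rfl (by norm_num) s c (by omega)
    (by omega) (by omega) hc hcs hp

theorem fam_t6p0c1 (s c : ℕ) (hs : 12 ≤ s) (hpar : s % 2 = 0) (hc : 1 ≤ c) (hcs : c ≤ s)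
    (hp : (s + c) % 2 = 0) : Opt (6 * s + 6 + 2 * 6) (c + 1) :=
  Dat.fam_even t6p0c1_ok 6 12 1 rfl (by decide) rfl t6p0c1_off t6p0c1_rel rfl rfl (by norm_num) s c (by omega)
    (by omega) (by omega) hc hcs hp

theorem fam_t6p0c2 (s c : ℕ) (hs : 10 ≤ s) (hpar : s % 2 = 0) (hc : 1 ≤ c) (hcs : c ≤ s)
    (hp : (s + c) % 2 = 0) : Opt (6 * s + 6 + 2 * 6) (c + 2) :=
  Dat.fam_even t6p0c2_ok 6 10 1 rfl (by decide) rfl t6p0c2_off t6p0c2_rel rfl rfl (by norm_num) s c (by omega)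
    (by omega) (by omega) hc hcs hp

theorem fam_t6p1c1 (s c : ℕ) (hs : 13 ≤ s) (hpar : s % 2 = 1) (hc : 1 ≤ c) (hcs : c ≤ s)
    (hp : (s + c) % 2 = 0) : Opt (6 * s + 6 + 2 * 6) (c + 1) :=
  Dat.fam_even t6p1c1_ok 6 13 1 rfl (by decide) rfl t6p1c1_off t6p1c1_rel rfl rfl (by norm_num) s c (by omega)
    (by omega) (by omega) hc hcs hp

theorem fam_t6p1c2 (s c : ℕ) (hs : 11 ≤ s) (hpar : s % 2 = 1) (hc : 1 ≤ c) (hcs : c ≤ s)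
    (hp : (s + c) % 2 = 0) : Opt (6 * s + 6 + 2 * 6) (c + 2) :=
  Dat.fam_even t6p1c2_ok 6 11 1 rfl (by decide) rfl t6p1c2_off t6p1c2_rel rfl rfl (by norm_num) s c (by omega)
    (by omega) (by omega) hc hcs hp

end Run7.h243
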