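import Pool.Agent.Run7.h243.Vals

set_option linter.unusedSectionVars false
set_option linter.unusedSimpArgs false
set_option maxRecDepth 100000

/-! The two cores. -/

namespace Run7.h243

open Equiv Run7.B243

def core0 : Core where
  tau := fun c => Fin.ofNat 48 ((([1, 2, 0, 4, 5, 3, 8, 6, 7, 10, 11, 9, 14, 12, 13, 17, 15, 16, 19, 20, 18, 23, 21, 22, 25, 26, 24, 28, 29, 27, 32, 30, 31, 34, 35, 33, 38, 36, 37, 40, 41, 39, 43, 44, 42, 47, 45, 46] : List ℕ)).getD c.val 0)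
  nu := fun c => Fin.ofNat 48 ((([33, 44, 47, 6, 16, 5, 3, 10, 23, 30, 7, 26, 18, 25, 17, 36, 4, 14, 12, 22, 29, 24, 19, 8, 21, 13, 11, 45, 28, 20, 9, 43, 32, 0, 37, 40, 15, 34, 41, 42, 35, 38, 39, 31, 1, 27, 46, 2] : List ℕ)).getD c.val 0)
  aT := 32
  bT := 5
  aU := 46
  bU := 28
  nm := fun c => (([0, 1, 2, 0, 3, 4, 3, 5, 0, 0, 3, 5, 6, 0, 4, 3, 4, 0, 4, 6, 0, 6, 0, 5, 5, 6, 0, 0, 7, 4, 3, 2, 0, 1, 0, 8, 0, 8, 3, 3, 1, 8, 1, 3, 2, 7, 2, 0] : List ℕ)).getD c.val 0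
  rc := fun j => Fin.ofNat 48 ((([32, 1, 2, 4, 5, 7, 12, 28, 35] : List ℕ)).getD j 0)
  pc := fun c => Fin.ofNat 48 ((([47, 0, 0, 32, 0, 0, 10, 0, 3, 26, 30, 7, 0, 17, 18, 4, 14, 36, 29, 12, 22, 19, 8, 24, 11, 21, 13, 20, 0, 5, 43, 46, 0, 40, 0, 0, 34, 41, 15, 38, 42, 35, 1, 39, 31, 28, 2, 27] : List ℕ)).getD c.val 0)
  ic := fun c => (([7, 0, 0, 1, 0, 0, 7, 0, 2, 13, 6, 1, 0, 11, 3, 1, 4, 10, 2, 1, 4, 2, 3, 3, 2, 3, 12, 5, 0, 1, 5, 2, 0, 3, 8, 0, 9, 2, 2, 3, 2, 1, 1, 4, 3, 1, 1, 6] : List ℕ)).getD c.val 0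
  er := fun j => Fin.ofNat 48 ((([0, 0, 47, 3, 17, 8, 13, 27, 34] : List ℕ)).getD j 0)

theorem core0_ok : core0.Ok where
  tau3 := by decide
  taune := by decide
  tauv := by decide
  nu2 := by decide
  nuin := by decide
  dist := by decide
  nmP := by decide
  nm9 := by decide
  nmr := by decide
  pcc := by decide
  nmaT := by decide
  erc := by decide

def corev0 : CoreV where
  A := fun c => (([2, 28, -30, 6, 16, -22, -6, -17, 23, 7, 17, -24, 11, 15, -26, -10, -16, 26, -11, -14, 25, 9, 14, -23, -9, -15, 24, 12, 13, -25, -7, -20, 27, -2, -19, 21, 10, 19, -29, -8, -21, 29, 8, 20, -28, -12, -18, 30] : List ℤ)).getD c.val 0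
  B := fun c => (([0, 6, -6, 2, 3, -5, -2, -3, 5, 2, 3, -5, 2, 3, -5, -2, -3, 5, -2, -3, 5, 2, 3, -5, -2, -3, 5, 2, 3, -5, -2, -4, 6, 0, -4, 4, 2, 4, -6, -2, -4, 6, 2, 4, -6, -2, -4, 6] : List ℤ)).getD c.val 0
  e := 0
  cv := fun k => Fin.ofNat 48 ((([3, 9, 39, 21, 15, 12, 27, 34, 31, 35, 1, 38, 2, 8, 11, 20, 14, 19, 13, 4, 7] : List ℕ)).getD k 0)

theorem corev0_ok : Okv core0 corev0 where
  he := by decide
  sA := by decide
  sB := by decide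
  nA := by decide
  nB := by decide
  aT := by decide
  bT := by decide
  aU := by decide
  bU := by decide
  two := by decide
  cov := by decide

theorem okm0 : okm core0 {0} [0] [3, 22, 34, 47] := by decide

def core1 : Core where
  tau := fun c => Fin.ofNat 48 ((([2, 0, 1, 4, 5, 3, 8, 6, 7, 10, 11, 9, 13, 14, 12, 16, 17, 15, 20, 18, 19, 22, 23, 21, 26, 24, 25, 29, 27, 28, 32, 30, 31, 35, 33, 34, 37, 38, 36, 40, 41, 39, 43, 44, 42, 47, 45, 46] : List ℕ)).getD c.val 0)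
  nu := fun c => Fin.ofNat 48 ((([39, 38, 35, 6, 22, 11, 3, 7, 20, 30, 19, 5, 45, 16, 29, 24, 13, 23, 36, 10, 8, 33, 4, 17, 15, 28, 26, 42, 25, 14, 9, 37, 32, 21, 41, 2, 18, 31, 1, 0, 43, 34, 27, 40, 47, 12, 46, 44] : List ℕ)).getD c.val 0)
  aT := 32
  bT := 26
  aU := 46
  bU := 7
  nm := fun c => (([1, 2, 3, 4, 5, 0, 5, 2, 4, 0, 6, 4, 7, 2, 8, 5, 8, 2, 6, 4, 2, 2, 0, 5, 8, 0, 5, 0, 8, 7, 6, 1, 0, 0, 3, 2, 2, 6, 1, 3, 1, 0, 7, 0, 1, 2, 1, 7] : List ℕ)).getD c.val 0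
  rc := fun j => Fin.ofNat 48 ((([32, 0, 1, 2, 3, 4, 10, 12, 14] : List ℕ)).getD j 0)
  pc := fun c => Fin.ofNat 48 ((([0, 0, 0, 0, 0, 22, 26, 20, 3, 5, 0, 19, 0, 45, 0, 23, 24, 13, 10, 8, 36, 17, 33, 4, 28, 32, 15, 25, 14, 42, 37, 46, 0, 41, 2, 21, 1, 18, 31, 34, 0, 43, 47, 27, 40, 7, 44, 12] : List ℕ)).getD c.val 0)
  ic := fun c => (([0, 0, 0, 0, 0, 7, 4, 3, 1, 8, 0, 3, 0, 5, 0, 2, 3, 6, 1, 2, 2, 7, 6, 1, 2, 1, 3, 2, 1, 3, 3, 4, 0, 5, 1, 8, 1, 2, 5, 2, 1, 4, 2, 3, 2, 4, 3, 1] : List ℕ)).getD c.val 0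
  er := fun j => Fin.ofNat 48 ((([0, 43, 33, 41, 5, 22, 9, 27, 25] : List ℕ)).getD j 0)

theorem core1_ok : core1.Ok where
  tau3 := by decide
  taune := by decide
  tauv := by decide
  nu2 := by decide
  nuin := by decide
  dist := by decide
  nmP := by decide
  nm9 := by decide
  nmr := by decide
  pcc := by decide
  nmaT := by decide
  erc := by decide

def corev1 : CoreV where
  A := fun c => (([2, 31, -33, -7, -18, 25, 7, 19, -26, 8, 17, -25, 12, 15, -27, -13, -15, 28, -9, -17, 26, 10, 18, -28, 13, 16, -29, -11, -16, 27, -8, -22, 30, -10, -23, 33, 9, 22, -31, -2, -21, 23, 11, 21, -32, -12, -20, 32] : List ℤ)).getD c.val 0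
  B := fun c => (([0, 6, -6, -2, -3, 5, 2, 3, -5, 2, 3, -5, 2, 3, -5, -2, -3, 5, -2, -3, 5, 2, 3, -5, 2, 3, -5, -2, -3, 5, -2, -4, 6, -2, -4, 6, 2, 4, -6, 0, -4, 4, 2, 4, -6, -2, -4, 6] : List ℤ)).getD c.val 0
  e := 1
  cv := fun k => Fin.ofNat 48 ((([3, 9, 18, 21, 27, 12, 15, 40, 31, 34, 1, 44, 2, 5, 8, 14, 17, 13, 25, 10, 4] : List ℕ)).getD k 0)

theorem corev1_ok : Okv core1 corev1 where
  he := by decide
  sA := by decide
  sB := by decide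
  nA := by decide
  nB := by decide
  aT := by decide
  bT := by decide
  aU := by decide
  bU := by decide
  two := by decide
  cov := by decide

theorem okm1 : okm core1 {0} [0] [5, 19, 13, 41] := by decide

end Run7.h243
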