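import Pool.Agent.Run7.h243.Glue3

set_option linter.unusedSectionVars false
set_option linter.unusedSimpArgs false

/-! Good maps with exactly `m` parts in every country. -/

namespace Run7.h243

open Equiv Run7.B243

/-- a map on a surface with `n` pairwise neighbouring countries of exactly `m` parts -/
def GoodE (o : Bool) (ε : ℤ) (n m : ℕ) : Prop :=
  ∃ (M : CellMap) (country : M.Face → Fin n), (M.Orientable ↔ o = true) ∧ M.euler = ε ∧
    (∀ c, Nat.card {f : M.Face // country f = c} = m) ∧
    ∀ a b : Fin n, a ≠ b → ∃ x, country (M.face x) = a ∧ country (M.face (M.r2 x)) = b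

theorem GoodE.good {o : Bool} {ε : ℤ} {n m : ℕ} (h : GoodE o ε n m) : Good o ε n m := by
  obtain ⟨M, country, h1, h2, h3, h4⟩ := h
  exact ⟨M, country, h1, h2, fun c => (h3 c).le, h4⟩

theorem splice_goodE {k : ℕ} (M : CellMap) (x0 : M.Flag) (P : Poly k) (n m : ℕ)
    (country : M.Face → Fin n)
    (hE : ∀ c, Nat.card {f : M.Face // country f = c} = m)
    (hA : ∀ a b : Fin n, a ≠ b → ∃ x, country (M.face x) = a ∧ country (M.face (M.r2 x)) = b) :
    (∀ c, Nat.card {f : (splice M x0 P).Face // country (sFace M x0 P f) = c} = m) ∧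
    ∀ a b : Fin n, a ≠ b → ∃ x, country (sFace M x0 P ((splice M x0 P).face x)) = a ∧
      country (sFace M x0 P ((splice M x0 P).face ((splice M x0 P).r2 x))) = b := by
  constructor
  · intro c
    refine Eq.trans ?_ (hE c)
    refine Nat.card_congr ?_
    refine Equiv.subtypeEquiv (Equiv.ofBijective _ (sFace_bij M x0 P)) ?_
    intro a; rfl
  · intro a b hab
    obtain ⟨x, hx, hx'⟩ := hA a b hab
    exact ⟨Sum.inl x, hx, hx'⟩

theorem goodE_handle {ε : ℤ} {n m : ℕ} (h : GoodE true ε n m) : GoodE true (ε - 2) n m := by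
  obtain ⟨M, country, hO, hε, hE, hA⟩ := h
  obtain ⟨x0⟩ := M.ne
  obtain ⟨h1, h2⟩ := splice_goodE M x0 polyH n m country hE hA
  refine ⟨splice M x0 polyH, fun f => country (sFace M x0 polyH f), ?_, ?_, h1, h2⟩
  · simp only [iff_true]
    obtain ⟨c, hc⟩ := hO.mpr rfl
    let cp : Fin 8 → Bool := ![false, true, false, true, false, true, false, true]
    -- normalise: colour of polygon flags
    refine ⟨fun z => match z with
      | Sum.inl x => c x
      | Sum.inr p => xor (cp p) (!(c x0)), ?_⟩
    rintro (x | p)
    · refine ⟨(hc x).1, ?_, (hc x).2.2⟩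
      by_cases hx : x = x0
      · subst hx
        have : (splice M x polyH).r1 (Sum.inl x) = Sum.inr polyH.i := spl1_x0 M x polyH
        rw [this]
        show xor (cp 0) (!(c x)) = !(c x)
        simp [cp]
      · by_cases hx' : x = M.r1 x0
        · subst hx'
          have : (splice M x0 polyH).r1 (Sum.inl (M.r1 x0)) = Sum.inr polyH.o := spl1_y0 M x0 polyH
          rw [this]
          show xor (cp 7) (!(c x0)) = !(c (M.r1 x0))
          rw [(hc x0).2.1]
          simp [cp]
        · have : (splice M x0 polyH).r1 (Sum.inl x) = Sum.inl (M.r1 x) :=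
            spl1_inl M x0 polyH hx hx'
          rw [this]
          exact (hc x).2.1
    · refine ⟨?_, ?_, ?_⟩
      · have : ∀ p : Fin 8, cp (polyH.p0 p) = !(cp p) := by decide
        show xor (cp (polyH.p0 p)) (!(c x0)) = !(xor (cp p) (!(c x0)))
        rw [this]; cases cp p <;> cases c x0 <;> rfl
      · by_cases hp : p = polyH.i
        · subst hp
          have : (splice M x0 polyH).r1 (Sum.inr polyH.i) = Sum.inl x0 := spl1_i M x0 polyH
          rw [this]
          show c x0 = !(xor (cp 0) (!(c x0)))
          simp [cp]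
        · by_cases hp' : p = polyH.o
          · subst hp'
            have : (splice M x0 polyH).r1 (Sum.inr polyH.o) = Sum.inl (M.r1 x0) := spl1_o M x0 polyH
            rw [this]
            show c (M.r1 x0) = !(xor (cp 7) (!(c x0)))
            rw [(hc x0).2.1]
            simp [cp]
          · have : (splice M x0 polyH).r1 (Sum.inr p) = Sum.inr (polyH.p1 p) :=
              spl1_inr M x0 polyH hp hp'
            rw [this]
            have : ∀ p : Fin 8, cp (polyH.p1 p) = !(cp p) := by decide
            show xor (cp (polyH.p1 p)) (!(c x0)) = !(xor (cp p) (!(c x0)))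
            rw [this]; cases cp p <;> cases c x0 <;> rfl
      · have : ∀ p : Fin 8, cp (polyH.p2 p) = !(cp p) := by decide
        show xor (cp (polyH.p2 p)) (!(c x0)) = !(xor (cp p) (!(c x0)))
        rw [this]; cases cp p <;> cases c x0 <;> rfl
  · rw [splice_euler, polyH_E, hε]; norm_num


theorem goodE_handles (ε : ℤ) (n m k : ℕ) (h : GoodE true ε n m) :
    GoodE true (ε - 2 * k) n m := by
  induction k with
  | zero => simpa using h
  | succ k ih =>
    have := goodE_handle ih
    have e : ε - 2 * k - 2 = ε - 2 * (k + 1 : ℕ) := by push_cast; ring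
    rwa [e] at this

section
variable {D : Type} [Fintype D] [DecidableEq D]

/-- a rotation system with labelled countries gives a good map -/
theorem goodE_of_rot (σ α : Perm D) (hD : Nonempty D) (hα : ∀ x, α (α x) = x)
    (hα' : ∀ x, α x ≠ x) (hc : ∀ x y, Relation.EqvGen (fun a b => b = σ a ∨ b = α a) x y)
    (n m : ℕ) (κ : D → Fin n) (hκ : ∀ x, κ (σ x) = κ x)
    (hp : ∀ c, Nat.card {q : Quot (fun a b => b = σ a) // ∃ x, κ x = c ∧ q = cl σ x} = m)
    (hA : ∀ a b : Fin n, a ≠ b → ∃ x, κ x = a ∧ κ (α x) = b) :
    GoodE true ((cyc (α * σ) : ℤ) - cyc α + cyc σ) n m := by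
  set M := toCell σ α hD hα hα' hc with hM
  let country : M.Face → Fin n := Quot.lift (fun z : D × Bool => κ z.1) (by
    rintro ⟨d, b⟩ z (h | h)
    · subst h; rfl
    · change z = oR1 σ (d, b) at h
      subst h
      cases b
      · show κ d = κ (σ⁻¹ d)
        have := hκ (σ⁻¹ d)
        simpa using this
      · exact (hκ d).symm)
  refine ⟨M, country, ?_, ?_, ?_, ?_⟩
  · simp only [iff_true]; exact toCell_orientable σ α hD hα hα' hc
  · unfold CellMap.euler
    rw [hM, card_vertex, card_edge', Nat.card_congr (faceEquiv σ α hD hα hα' hc)]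
    rfl
  · intro c
    refine Eq.trans ?_ (hp c)
    refine Nat.card_congr (Equiv.subtypeEquiv (faceEquiv σ α hD hα hα' hc) ?_)
    intro q
    induction q using Quot.ind with
    | mk z =>
      obtain ⟨d, b⟩ := z
      constructor
      · intro h
        exact ⟨d, h, rfl⟩
      · rintro ⟨x, hx, hq⟩
        show κ d = c
        rw [← hx]
        let F : Quot (fun x y => y = σ x) → Fin n := Quot.lift κ (by
          intro a b h; subst h; exact (hκ a).symm)
        have h1 : F (cl σ d) = F (cl σ x) := congrArg F hq
        exact h1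
  · intro a b hab
    obtain ⟨x, hx, hx'⟩ := hA a b hab
    exact ⟨(x, true), hx, hx'⟩


end

/-- exact number of parts from a bound and the total -/
theorem exact_parts {D C : Type} [Fintype D] [Fintype C] [DecidableEq C] (σ : Perm D) (κ : D → C)
    (hκ : ∀ x, κ (σ x) = κ x) (m : ℕ)
    (hp : ∀ c, Nat.card {q : Quot (fun a b => b = σ a) // ∃ x, κ x = c ∧ q = cl σ x} ≤ m)
    (ht : Fintype.card C * m ≤ cyc σ) (c : C) :
    Nat.card {q : Quot (fun a b => b = σ a) // ∃ x, κ x = c ∧ q = cl σ x} = m := by
  classical
  let F : Quot (fun a b => b = σ a) → C := Quot.lift κ (by intro a b h; subst h; exact (hκ a).symm)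
  have hF : ∀ q c, (∃ x, κ x = c ∧ q = cl σ x) ↔ F q = c := by
    intro q c
    induction q using Quot.ind with
    | mk y =>
      constructor
      · rintro ⟨x, hx, hq⟩
        have : F (cl σ y) = F (cl σ x) := congrArg F hq
        exact this.trans hx
      · intro h; exact ⟨y, h, rfl⟩
  have e : ∀ c, Nat.card {q : Quot (fun a b => b = σ a) // ∃ x, κ x = c ∧ q = cl σ x} =
      Nat.card {q : Quot (fun a b => b = σ a) // F q = c} := by
    intro c
    refine Nat.card_congr (Equiv.subtypeEquivRight (fun q => hF q c))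
  have hsum : cyc σ = ∑ c : C, Nat.card {q : Quot (fun a b => b = σ a) // F q = c} := by
    unfold cyc
    rw [← Nat.card_congr (Equiv.sigmaFiberEquiv F), Nat.card_sigma]
  by_contra hne
  have hlt : Nat.card {q : Quot (fun a b => b = σ a) // F q = c} < m := by
    rw [← e]; exact lt_of_le_of_ne (hp c) hne
  have : ∑ c : C, Nat.card {q : Quot (fun a b => b = σ a) // F q = c} < ∑ _c : C, m :=
    Finset.sum_lt_sum (fun i _ => by rw [← e]; exact hp i) ⟨c, Finset.mem_univ _, hlt⟩
  rw [Finset.sum_const, Finset.card_univ, smul_eq_mul] at this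
  omega

end Run7.h243
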