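import Pool.Agent.Run7.h243.Base.Hs

/-! Merging cycles of permutations, and reversing a triple. -/

set_option linter.unusedSectionVars false
set_option linter.unusedSimpArgs false

namespace Run7.h243

open Equiv Run7.B243

variable {D : Type} [DecidableEq D] [Finite D]

theorem cl_inv {N : Type} (f : Perm D) (F : D → N) (hF : ∀ x, F (f x) = F x) {x y : D}
    (h : cl f x = cl f y) : F x = F y := by
  let G : Quot (fun a b => b = f a) → N := Quot.lift F (by intro a b h; subst h; exact (hF a).symm)
  have : G (cl f x) = G (cl f y) := by rw [h]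
  exact this

theorem coarse_of_step (f g : Perm D) (h : ∀ x, cl g (f x) = cl g x) {x y : D}
    (hxy : cl f x = cl f y) : cl g x = cl g y := by
  have h' := Quot.eqvGen_exact hxy
  induction h' with
  | rel a b hr => subst hr; exact (h a).symm
  | refl a => rfl
  | symm a b hab ih => exact (ih (Quot.eqvGen_sound hab)).symm
  | trans a b c hab hbc ih1 ih2 =>
    exact (ih1 (Quot.eqvGen_sound hab)).trans (ih2 (Quot.eqvGen_sound hbc))

theorem swap_mul_eq (f : Perm D) (a b : D) : swap a b * f = f * swap (f⁻¹ a) (f⁻¹ b) := by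
  rw [Equiv.mul_swap_eq_swap_mul]; simp

theorem merge2 {N : Type} (f : Perm D) (F : D → N) (hF : ∀ x, F (f x) = F x) (a b : D)
    (hab : F a ≠ F b) :
    cyc (swap a b * f) + 1 = cyc f ∧
    (∀ x y, cl f x = cl f y → cl (swap a b * f) x = cl (swap a b * f) y) := by
  have hne : cl f (f⁻¹ a) ≠ cl f (f⁻¹ b) := by
    rw [cl_symm_apply, cl_symm_apply]
    intro h; exact hab (cl_inv f F hF h)
  rw [swap_mul_eq]
  refine ⟨merge_cyc f _ _ hne, ?_⟩
  intro x y h
  exact coarse_of_step f _ (merge_cl_apply f _ _ hne) h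

/-- reverse the triple of `a` -/
def flipv (τ : Perm D) (a : D) : Perm D := swap a (τ a) * swap (τ a) (τ (τ a)) * τ

/-- collapse of names -/
def col {N : Type} [DecidableEq N] (B : Finset N) (O : N) (x : N) : N := if x ∈ B then O else x

theorem flip_merge {N : Type} [DecidableEq N] (τ ν : Perm D) (F : D → N) (B : Finset N) (O : N)
    (hO : O ∈ B) (hF : ∀ x, col B O (F ((τ * ν) x)) = col B O (F x)) (a : D)
    (ha : F a ∈ B) (hb : F (τ a) ∉ B) (hc : F (τ (τ a)) ∉ B) (hbc : F (τ a) ≠ F (τ (τ a))) :
    cyc (flipv τ a * ν) + 2 = cyc (τ * ν) ∧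
    (∀ x y, cl (τ * ν) x = cl (τ * ν) y → cl (flipv τ a * ν) x = cl (flipv τ a * ν) y) ∧
    (∀ x, col (insert (F (τ a)) (insert (F (τ (τ a))) B)) O (F ((flipv τ a * ν) x)) =
      col (insert (F (τ a)) (insert (F (τ (τ a))) B)) O (F x)) := by
  set b := τ a with hb'
  set c := τ b with hc'
  have e1 : flipv τ a * ν = swap a b * (swap b c * (τ * ν)) := by
    simp only [flipv, ← hb', ← hc', mul_assoc]
  have h1 := merge2 (τ * ν) (fun x => col B O (F x)) hF b c (by
    simp only [col, hb, hc, if_false]; exact hbc)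
  -- second merge: invariant collapsing b and c only
  set G : D → N := fun z => if col B O (F z) = F c then F b else col B O (F z) with hGdef
  have hGb : G b = F b := by simp [hGdef, col, hb]
  have hGc : G c = F b := by simp [hGdef, col, hc]
  have hG : ∀ x, G ((swap b c * (τ * ν)) x) = G x := by
    intro x
    have e : ∀ z, G (swap b c z) = G z := by
      intro z
      by_cases hz : z = b
      · rw [hz, swap_apply_left, hGb, hGc]
      · by_cases hz' : z = c
        · rw [hz', swap_apply_right, hGb, hGc]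
        · rw [swap_apply_of_ne_of_ne hz hz']
    rw [Perm.mul_apply, e]
    simp only [hGdef]
    rw [hF]
  have hOc : O ≠ F c := fun h => hc (h ▸ hO)
  have hOb : O ≠ F b := fun h => hb (h ▸ hO)
  have h2 := merge2 (swap b c * (τ * ν)) G hG a b (by
    rw [hGb]
    simp [hGdef, col, ha, hOc, hOb])
  rw [e1]
  refine ⟨by omega, fun x y h => h2.2 x y (h1.2 x y h), ?_⟩
  intro x
  have key : ∀ z, (z ∈ B ∨ z = F b ∨ z = F c) ↔ z ∈ insert (F b) (insert (F c) B) := by
    intro z; simp only [Finset.mem_insert]; tauto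
  set B' := insert (F b) (insert (F c) B) with hB'
  have hcolcol : ∀ z, col B' O z = (if z ∈ B' then O else z) := fun _ => rfl
  have hsw : ∀ p q z, F p ∈ B' → F q ∈ B' → col B' O (F (swap p q z)) = col B' O (F z) := by
    intro p q z hp hq
    by_cases hz : z = p
    · subst hz; rw [swap_apply_left]; simp [col, hp, hq]
    · by_cases hz' : z = q
      · subst hz'; rw [swap_apply_right]; simp [col, hp, hq]
      · rw [swap_apply_of_ne_of_ne hz hz']
  have hBa : F a ∈ B' := (key _).mp (Or.inl ha)
  have hBb : F b ∈ B' := (key _).mp (Or.inr (Or.inl rfl))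
  have hBc : F c ∈ B' := (key _).mp (Or.inr (Or.inr rfl))
  rw [Perm.mul_apply, hsw a b _ hBa hBb, Perm.mul_apply, hsw b c _ hBb hBc]
  have h3 := hF x
  -- from collapse by B to collapse by B'
  have h4 : ∀ z, col B' O (F z) = col B' O (col B O (F z)) := by
    intro z
    by_cases hz : F z ∈ B
    · have : F z ∈ B' := (key _).mp (Or.inl hz)
      have hO' : O ∈ B' := (key _).mp (Or.inl hO)
      simp [col, hz, this, hO']
    · simp [col, hz]
  rw [h4, h3, ← h4]

end Run7.h243
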