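import Pool.Agent.Run7.h243.Flip

set_option linter.unusedSectionVars false
set_option linter.unusedSimpArgs false

namespace Run7.h243

open Equiv Run7.B243

variable {D : Type} [DecidableEq D] [Finite D]

/-- a permutation with three-element orbits of sum zero -/
structure Tri (val : D → ℤ) (τ : Perm D) : Prop where
  cube : ∀ x, τ (τ (τ x)) = x
  ne : ∀ x, τ x ≠ x
  sum : ∀ x, val x + val (τ x) + val (τ (τ x)) = 0

theorem Tri.ne2 {val : D → ℤ} {τ : Perm D} (h : Tri val τ) (x : D) : τ (τ x) ≠ x := by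
  intro h2
  have h3 := h.cube x
  rw [h2] at h3
  exact h.ne x h3

theorem Tri.ne3 {val : D → ℤ} {τ : Perm D} (h : Tri val τ) (x : D) : τ (τ x) ≠ τ x :=
  fun h2 => h.ne x (τ.injective h2)

variable {val : D → ℤ} {τ : Perm D} (h : Tri val τ) (a : D)
include h

theorem flipv_a : flipv τ a a = τ (τ a) := by
  simp only [flipv, Perm.mul_apply]
  rw [swap_apply_left, swap_apply_of_ne_of_ne (h.ne2 a) (h.ne3 a)]

theorem flipv_b : flipv τ a (τ a) = a := by
  simp only [flipv, Perm.mul_apply]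
  rw [swap_apply_right, swap_apply_right]

theorem flipv_c : flipv τ a (τ (τ a)) = τ a := by
  simp only [flipv, Perm.mul_apply]
  rw [h.cube, swap_apply_of_ne_of_ne (h.ne a).symm (h.ne2 a).symm, swap_apply_left]

theorem flipv_o {x : D} (h1 : x ≠ a) (h2 : x ≠ τ a) (h3 : x ≠ τ (τ a)) : flipv τ a x = τ x := by
  simp only [flipv, Perm.mul_apply]
  rw [swap_apply_of_ne_of_ne (a := τ a) (b := τ (τ a)), swap_apply_of_ne_of_ne]
  · intro hh
    apply h3
    have := congrArg (fun z => τ (τ z)) hh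
    simpa [h.cube] using this
  · intro hh; exact h1 (τ.injective hh)
  · intro hh; exact h1 (τ.injective hh)
  · intro hh; exact h2 (τ.injective hh)

theorem flipv_tri : Tri val (flipv τ a) := by
  have ea := flipv_a h a
  have eb := flipv_b h a
  have ec := flipv_c h a
  have key : ∀ x, (x = a ∨ x = τ a ∨ x = τ (τ a)) ∨ (x ≠ a ∧ x ≠ τ a ∧ x ≠ τ (τ a)) := by
    intro x; tauto
  have closed : ∀ x, x ≠ a → x ≠ τ a → x ≠ τ (τ a) → τ x ≠ a ∧ τ x ≠ τ a ∧ τ x ≠ τ (τ a) := by
    intro x h1 h2 h3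
    refine ⟨?_, fun hh => h1 (τ.injective hh), fun hh => h2 (τ.injective hh)⟩
    intro hh
    apply h3
    have := congrArg (fun z => τ (τ z)) hh
    simpa [h.cube] using this
  have hs := h.sum a
  constructor
  · intro x
    rcases key x with (rfl | rfl | rfl) | ⟨h1, h2, h3⟩
    · rw [ea, ec, eb]
    · rw [eb, ea, ec]
    · rw [ec, eb, ea]
    · obtain ⟨g1, g2, g3⟩ := closed x h1 h2 h3
      obtain ⟨k1, k2, k3⟩ := closed _ g1 g2 g3
      rw [flipv_o h a h1 h2 h3, flipv_o h a g1 g2 g3, flipv_o h a k1 k2 k3, h.cube]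
  · intro x
    rcases key x with (rfl | rfl | rfl) | ⟨h1, h2, h3⟩
    · rw [ea]; exact h.ne2 x
    · rw [eb]; exact (h.ne a).symm
    · rw [ec]; exact (h.ne3 a).symm
    · rw [flipv_o h a h1 h2 h3]; exact h.ne x
  · intro x
    rcases key x with (rfl | rfl | rfl) | ⟨h1, h2, h3⟩
    · rw [ea, ec]; linarith
    · rw [eb, ea]; linarith
    · rw [ec, eb]; linarith
    · obtain ⟨g1, g2, g3⟩ := closed x h1 h2 h3
      rw [flipv_o h a h1 h2 h3, flipv_o h a g1 g2 g3]; exact h.sum x

end Run7.h243
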