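import Pool.Agent.Run7.h243.LadFinal

set_option linter.unusedSectionVars false
set_option linter.unusedSimpArgs false

/-! Three simultaneous merges of cycles. -/

namespace Run7.h243

open Equiv Run7.B243

section basic

variable {D E : Type}

theorem cl_map (f : Perm D) (g : Perm E) (j : D → E) (hj : ∀ x, g (j x) = j (f x)) {x y : D}
    (h : cl f x = cl f y) : cl g (j x) = cl g (j y) := by
  let G : Quot (fun a b => b = f a) → Quot (fun a b => b = g a) := Quot.lift (fun x => cl g (j x)) (by
    intro a b h; subst h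
    show cl g (j a) = cl g (j (f a))
    rw [← hj, cl_apply])
  have : G (cl f x) = G (cl f y) := by rw [h]
  exact this

theorem card_le_cyc [Finite D] {N : Type} (f : Perm D) (G : D → N) (hG : ∀ x, G (f x) = G x)
    (hs : ∀ t, ∃ x, G x = t) : Nat.card N ≤ cyc f := by
  unfold cyc
  refine Nat.card_le_card_of_surjective (Quot.lift G (by intro a b h; subst h; exact (hG a).symm)) ?_
  intro t
  obtain ⟨x, hx⟩ := hs t
  exact ⟨Quot.mk _ x, hx⟩

theorem cyc_comm (f g : Perm D) : cyc (f * g) = cyc (g * f) := by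
  unfold cyc
  refine Nat.card_congr (Quot.congr g ?_)
  intro a b
  simp only [Perm.mul_apply]
  exact ⟨fun h => congrArg g h, fun h => g.injective h⟩

end basic

section merge3
variable {D C : Type} [DecidableEq D] [Finite D] [DecidableEq C]

theorem merge_step {N : Type} (f : Perm D) (G : D → N) (hG : ∀ x, G (f x) = G x) (a b : D)
    (hab : G a ≠ G b) :
    cyc (f * swap a b) + 1 = cyc f ∧
    (∀ x y, cl f x = cl f y → cl (f * swap a b) x = cl (f * swap a b) y) ∧
    cl (f * swap a b) a = cl (f * swap a b) b := by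
  have hne : cl f a ≠ cl f b := fun h => hab (cl_inv f G hG h)
  exact ⟨merge_cyc f a b hne, fun x y h => coarse_of_step f _ (merge_cl_apply f a b hne) h,
    merge_cl f a b hne⟩

theorem swap_inv {N : Type} (G : D → N) (a b : D) (h : G a = G b) (x : D) : G (swap a b x) = G x := by
  by_cases h1 : x = a
  · rw [h1, swap_apply_left, h]
  · by_cases h2 : x = b
    · rw [h2, swap_apply_right, h]
    · rw [swap_apply_of_ne_of_ne h1 h2]

/-- three merges -/
def glue3 (σ : Perm D) (A B : Fin 3 → D) : Perm D :=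
  σ * swap (A 0) (B 0) * swap (A 1) (B 1) * swap (A 2) (B 2)

variable (σ : Perm D) (κ : D → C) (sd : D → Bool) (hκ : ∀ x, κ (σ x) = κ x)
    (hs : ∀ x, sd (σ x) = sd x) (A B : Fin 3 → D) (hA : ∀ i, sd (A i) = true)
    (hB : ∀ i, sd (B i) = false) (hk : ∀ i j, i ≠ j → κ (A i) ≠ κ (A j))
    (hAB : ∀ i, κ (A i) = κ (B i))

include hκ hs hA hB hk hAB in
theorem merge3 :
    cyc (glue3 σ A B) + 3 = cyc σ ∧
    (∀ x y, cl σ x = cl σ y → cl (glue3 σ A B) x = cl (glue3 σ A B) y) ∧
    (∀ i, cl (glue3 σ A B) (A i) = cl (glue3 σ A B) (B i)) := by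
  let G0 : D → C × Bool := fun x => (κ x, sd x)
  let G1 : D → C × Bool := fun x => (κ x, sd x || decide (κ x = κ (A 0)))
  let G2 : D → C × Bool := fun x => (κ x, sd x || decide (κ x = κ (A 0)) || decide (κ x = κ (A 1)))
  have g0 : ∀ x, G0 (σ x) = G0 x := by intro x; simp only [G0, hκ, hs]
  obtain ⟨m1, m2, m3⟩ := merge_step σ G0 g0 (A 0) (B 0) (by
    intro h; have := congrArg Prod.snd h; simp only [G0, hA, hB] at this; exact absurd this (by simp))
  have g1' : G1 (A 0) = G1 (B 0) := by simp [G1, hAB, hA, hB]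
  have g1 : ∀ x, G1 ((σ * swap (A 0) (B 0)) x) = G1 x := by
    intro x
    rw [Perm.mul_apply]
    have e : ∀ y, G1 (σ y) = G1 y := by intro y; simp only [G1, hκ, hs]
    rw [e, swap_inv G1 _ _ g1']
  obtain ⟨p1, p2, p3⟩ := merge_step (σ * swap (A 0) (B 0)) G1 g1 (A 1) (B 1) (by
    intro h; have := congrArg Prod.snd h
    have h1 := hk 1 0 (by decide)
    have h2 : κ (B 1) ≠ κ (A 0) := by rw [← hAB]; exact h1
    simp [G1, hA, hB, h1, h2] at this)
  have g2' : G2 (A 0) = G2 (B 0) := by simp [G2, hAB, hA, hB]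
  have g2'' : G2 (A 1) = G2 (B 1) := by simp [G2, hAB, hA, hB]
  have g2 : ∀ x, G2 ((σ * swap (A 0) (B 0) * swap (A 1) (B 1)) x) = G2 x := by
    intro x
    rw [Perm.mul_apply, Perm.mul_apply]
    have e : ∀ y, G2 (σ y) = G2 y := by intro y; simp only [G2, hκ, hs]
    rw [e, swap_inv G2 _ _ g2', swap_inv G2 _ _ g2'']
  obtain ⟨q1, q2, q3⟩ := merge_step (σ * swap (A 0) (B 0) * swap (A 1) (B 1)) G2 g2 (A 2) (B 2) (by
    intro h; have := congrArg Prod.snd h
    have h1 := hk 2 0 (by decide)
    have h2 : κ (B 2) ≠ κ (A 0) := by rw [← hAB]; exact h1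
    have h3 := hk 2 1 (by decide)
    have h4 : κ (B 2) ≠ κ (A 1) := by rw [← hAB]; exact h3
    simp [G2, hA, hB, h1, h2, h3, h4] at this)
  have eg : glue3 σ A B = σ * swap (A 0) (B 0) * swap (A 1) (B 1) * swap (A 2) (B 2) := rfl
  rw [eg]
  refine ⟨by omega, fun x y h => q2 _ _ (p2 _ _ (m2 _ _ h)), ?_⟩
  intro i
  fin_cases i
  · exact q2 _ _ (p2 _ _ m3)
  · exact q2 _ _ p3
  · exact q3

include hκ hAB in
theorem glue3_kappa (x : D) : κ (glue3 σ A B x) = κ x := by
  simp only [glue3, Perm.mul_apply]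
  rw [hκ, swap_inv κ _ _ (hAB 0), swap_inv κ _ _ (hAB 1), swap_inv κ _ _ (hAB 2)]

include hA hB hk hAB in
theorem glue3_dist : (∀ i j, A i ≠ B j) ∧ (∀ i j, i ≠ j → A i ≠ A j) ∧ (∀ i j, i ≠ j → B i ≠ B j) := by
  refine ⟨?_, ?_, ?_⟩
  · intro i j h
    have := congrArg sd h
    rw [hA, hB] at this; exact absurd this (by simp)
  · intro i j hij h; exact hk i j hij (congrArg κ h)
  · intro i j hij h
    apply hk i j hij
    rw [hAB, hAB]; exact congrArg κ h

include hA hB hk hAB in
theorem glue3_A (i : Fin 3) : glue3 σ A B (A i) = σ (B i) := by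
  obtain ⟨d1, d2, d3⟩ := glue3_dist κ sd A B hA hB hk hAB
  simp only [glue3, Perm.mul_apply]
  fin_cases i
  · simp only [Fin.zero_eta]
    rw [swap_apply_of_ne_of_ne (d2 0 2 (by decide)) (d1 0 2),
      swap_apply_of_ne_of_ne (d2 0 1 (by decide)) (d1 0 1), swap_apply_left]
  · simp only [Fin.mk_one]
    rw [swap_apply_of_ne_of_ne (d2 1 2 (by decide)) (d1 1 2), swap_apply_left,
      swap_apply_of_ne_of_ne (d1 0 1).symm (d3 1 0 (by decide))]
  · simp only [Fin.reduceFinMk]
    rw [swap_apply_left, swap_apply_of_ne_of_ne (d1 1 2).symm (d3 2 1 (by decide)),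
      swap_apply_of_ne_of_ne (d1 0 2).symm (d3 2 0 (by decide))]

include hA hB hk hAB in
theorem glue3_B (i : Fin 3) : glue3 σ A B (B i) = σ (A i) := by
  obtain ⟨d1, d2, d3⟩ := glue3_dist κ sd A B hA hB hk hAB
  simp only [glue3, Perm.mul_apply]
  fin_cases i
  · simp only [Fin.zero_eta]
    rw [swap_apply_of_ne_of_ne (d1 2 0).symm (d3 0 2 (by decide)),
      swap_apply_of_ne_of_ne (d1 1 0).symm (d3 0 1 (by decide)), swap_apply_right]
  · simp only [Fin.mk_one]
    rw [swap_apply_of_ne_of_ne (d1 2 1).symm (d3 1 2 (by decide)), swap_apply_right,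
      swap_apply_of_ne_of_ne (d2 1 0 (by decide)) (d1 1 0)]
  · simp only [Fin.reduceFinMk]
    rw [swap_apply_right, swap_apply_of_ne_of_ne (d2 2 1 (by decide)) (d1 2 1),
      swap_apply_of_ne_of_ne (d2 2 0 (by decide)) (d1 2 0)]

theorem glue3_o {x : D} (h1 : ∀ i, x ≠ A i) (h2 : ∀ i, x ≠ B i) : glue3 σ A B x = σ x := by
  simp only [glue3, Perm.mul_apply]
  rw [swap_apply_of_ne_of_ne (h1 2) (h2 2), swap_apply_of_ne_of_ne (h1 1) (h2 1),
    swap_apply_of_ne_of_ne (h1 0) (h2 0)]

end merge3

/-- a bound on the number of cycles when most have length three -/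
theorem cyc_three {D : Type} [DecidableEq D] [Fintype D] (f : Perm D) (big big0 : Finset D) (δ : ℕ)
    (h1 : ∀ x ∉ big, f (f (f x)) = x) (h2 : ∀ x ∈ big, f x ∈ big) (h3 : big0.card ≤ δ)
    (h4 : (big \ big0).card ≤ 3) : Fintype.card D ≤ 3 * cyc f + δ := by
  classical
  have hout : ∀ x ∉ big, f x ∉ big := by
    intro x hx h
    apply hx
    have := h2 _ (h2 _ h)
    rwa [h1 x hx] at this
  have key := cyc_weight f (fun y => if y ∈ big0 then 0 else 1)
    (fun x => if x ∈ big then big else {x, f x, f (f x)}) (by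
      intro x
      by_cases hx : x ∈ big
      · simp only [hx, h2 x hx, if_true]
      · simp only [hx, hout x hx, if_false, h1 x hx]
        ext y; simp only [Finset.mem_insert, Finset.mem_singleton]; tauto) (by
      intro x
      by_cases hx : x ∈ big
      · simp only [hx, if_true]
      · simp only [hx, if_false]; simp) 3 (by
      intro x
      by_cases hx : x ∈ big
      · simp only [hx, if_true]
        have e : (∑ y ∈ big, if y ∈ big0 then 0 else 1) = (big \ big0).card := by
          rw [Finset.card_eq_sum_ones, ← Finset.filter_notMem_eq_sdiff, Finset.sum_filter]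
          apply Finset.sum_congr rfl
          intro y _
          by_cases hy : y ∈ big0 <;> simp [hy]
        rw [e]; exact h4
      · simp only [hx, if_false]
        refine le_trans (Finset.sum_le_card_nsmul _ _ 1 ?_) ?_
        · intro y _; by_cases hy : y ∈ big0 <;> simp [hy]
        · rw [nsmul_eq_mul, mul_one]; exact Finset.card_le_three)
  have e2 : (∑ y : D, if y ∈ big0 then 0 else 1) + big0.card = Fintype.card D := by
    have : (∑ y : D, if y ∈ big0 then 0 else 1) = (Finset.univ \ big0).card := by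
      rw [Finset.card_eq_sum_ones, ← Finset.filter_notMem_eq_sdiff, Finset.sum_filter]
      apply Finset.sum_congr rfl
      intro y _
      by_cases hy : y ∈ big0 <;> simp [hy]
    rw [this, Finset.card_sdiff_of_subset (Finset.subset_univ _), Finset.card_univ]
    have := Finset.card_le_univ big0
    omega
  omega

end Run7.h243
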