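import Pool.Agent.Run7.h243.Glue1

set_option linter.unusedSectionVars false
set_option linter.unusedSimpArgs false

/-! Gluing the cyclic part and the local part. -/

namespace Run7.h243

open Equiv Run7.B243

/-- a local rotation system with a hole -/
structure RSys (n c0 δ : ℕ) where
  F : Type
  fin : Fintype F
  dec : DecidableEq F
  off : F → ZMod n
  α : Perm (ZMod n × F)
  σ : Perm (ZMod n × F)
  α1 : ∀ q, (α q).1 = q.1 + off q.2
  α2 : ∀ q, α (α q) = q
  αne : ∀ q, α q ≠ q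
  σ1 : ∀ q, (σ q).1 = q.1
  X : Fin 3 → ZMod n
  Xinj : Function.Injective X
  a : Fin 3 → ZMod n × F
  b : Fin 3 → ZMod n × F
  pa : ∀ i, σ (α (a i)) = b i
  pb : ∀ i, σ (α (b i)) = a (i + 2)
  lb : ∀ i, (α (b i)).1 = X i
  ab : ∀ i j, a i ≠ b j
  big : Finset (ZMod n × F)
  big0 : Finset (ZMod n × F)
  bigc : ∀ q ∈ big, σ (α q) ∈ big
  big0c : big0.card ≤ δ
  bigd : (big \ big0).card ≤ 3
  abig : ∀ i, a i ∉ big
  bbig : ∀ i, b i ∉ big
  tri : ∀ q ∉ big, (∀ i, q ≠ a i) → (∀ i, q ≠ b i) → σ (α (σ (α (σ (α q))))) = q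
  cy : ZMod n × F → ℕ
  cyσ : ∀ q, cy (σ q) = cy q
  cyl : ∀ q, cy q < c0 ∨ (cy q = c0 ∧ ∃ i, q.1 = X i)
  cyc : ∀ q q', q.1 = q'.1 → cy q = cy q' → cl σ q = cl σ q'
  rep : ∀ x, ∀ i < c0, ∃ q, q.1 = x ∧ cy q = i
  path : ∀ i, cy (α (b i)) = c0
  rk : ZMod n × F → ℕ
  desc : ∀ q, cy q = c0 ∨ ∃ q', q'.1 = q.1 ∧ cy q' = cy q ∧ rk (α q') < rk q

attribute [instance] CayZ.fin CayZ.dec RSys.fin RSys.dec

variable {n c0 δ s c : ℕ} [NeZero n] (C : CayZ s c) (R : RSys n c0 δ) (μ : ZMod n)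

/-- partner, cyclic part -/
def aC : Perm (ZMod n × C.Lab) where
  toFun q := (q.1 + μ * (C.val q.2 : ℤ), C.ν q.2)
  invFun q := (q.1 + μ * (C.val q.2 : ℤ), C.ν q.2)
  left_inv q := by
    refine Prod.ext ?_ (C.nu2 _)
    simp only [C.nuval]; push_cast; ring
  right_inv q := by
    refine Prod.ext ?_ (C.nu2 _)
    simp only [C.nuval]; push_cast; ring

/-- rotation, cyclic part -/
def sC (n : ℕ) (C : CayZ s c) : Perm (ZMod n × C.Lab) := Equiv.prodCongr (Equiv.refl _) (C.τ * C.ν)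

theorem aC_apply (q : ZMod n × C.Lab) : aC C μ q = (q.1 + μ * (C.val q.2 : ℤ), C.ν q.2) := rfl
theorem sC_apply (q : ZMod n × C.Lab) : sC n C q = (q.1, C.τ (C.ν q.2)) := rfl
theorem phC (q : ZMod n × C.Lab) : sC n C (aC C μ q) = (q.1 + μ * (C.val q.2 : ℤ), C.τ q.2) := by
  rw [aC_apply, sC_apply]; simp only [C.nu2]

/-- the darts -/
abbrev DD (C : CayZ s c) (R : RSys n c0 δ) : Type := (ZMod n × C.Lab) ⊕ (ZMod n × R.F)

def al : Perm (DD C R) := Perm.sumCongr (aC C μ) R.α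
def s0 : Perm (DD C R) := Perm.sumCongr (sC n C) R.σ
def kap : DD C R → ZMod n
  | Sum.inl q => q.1
  | Sum.inr q => q.1
def sd : DD C R → Bool
  | Sum.inl _ => true
  | Sum.inr _ => false

/-- the arcs of the removed triangle -/
def tl (C : CayZ s c) : Fin 3 → C.Lab
  | 0 => C.t1
  | 1 => C.τ C.t1
  | 2 => C.τ (C.τ C.t1)
def TT (i : Fin 3) : ZMod n × C.Lab := (R.X i, tl C i)
def AA (i : Fin 3) : DD C R := Sum.inl (aC C μ (TT C R i))
def BB (i : Fin 3) : DD C R := Sum.inr (R.α (R.b (i + 1)))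
def sg : Perm (DD C R) := glue3 (s0 C R) (AA C R μ) (BB C R)

theorem al_inl (q : ZMod n × C.Lab) : al C R μ (Sum.inl q) = Sum.inl (aC C μ q) := rfl
theorem al_inr (q : ZMod n × R.F) : al C R μ (Sum.inr q) = Sum.inr (R.α q) := rfl
theorem s0_inl (q : ZMod n × C.Lab) : s0 C R (Sum.inl q) = Sum.inl (sC n C q) := rfl
theorem s0_inr (q : ZMod n × R.F) : s0 C R (Sum.inr q) = Sum.inr (R.σ q) := rfl

theorem kap_s0 (x : DD C R) : kap C R (s0 C R x) = kap C R x := by
  rcases x with q | q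
  · rfl
  · exact R.σ1 q
theorem sd_s0 (x : DD C R) : sd C R (s0 C R x) = sd C R x := by rcases x with q | q <;> rfl

variable (hX1 : R.X 1 = R.X 0 + μ * (C.val C.t1 : ℤ))
  (hX2 : R.X 2 = R.X 1 + μ * (C.val (C.τ C.t1) : ℤ))

include hX1 hX2 in
theorem hX (i : Fin 3) : R.X (i + 1) = R.X i + μ * (C.val (tl C i) : ℤ) := by
  fin_cases i
  · exact hX1
  · exact hX2
  · show R.X 0 = R.X 2 + μ * (C.val (C.τ (C.τ C.t1)) : ℤ)
    have := C.tri.sum C.t1
    have e : (C.val (C.τ (C.τ C.t1)) : ℤ) = - C.val C.t1 - C.val (C.τ C.t1) := by linarith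
    rw [e, hX2, hX1]; push_cast; ring

include hX1 hX2 in
theorem kap_AA (i : Fin 3) : kap C R (AA C R μ i) = R.X (i + 1) := (hX C R μ hX1 hX2 i).symm

theorem kap_BB (i : Fin 3) : kap C R (BB C R i) = R.X (i + 1) := R.lb (i + 1)

theorem fin3 (i : Fin 3) : i + 1 + 2 = i := by revert i; decide
theorem fin3' (i : Fin 3) : i + 2 + 1 = i := by revert i; decide

include hX1 hX2 in
theorem hkA (i j : Fin 3) (h : i ≠ j) : kap C R (AA C R μ i) ≠ kap C R (AA C R μ j) := by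
  rw [kap_AA C R μ hX1 hX2, kap_AA C R μ hX1 hX2]
  intro e
  exact h (add_right_cancel (R.Xinj e))

include hX1 hX2 in
theorem hAB (i : Fin 3) : kap C R (AA C R μ i) = kap C R (BB C R i) := by
  rw [kap_AA C R μ hX1 hX2, kap_BB]

include hX1 hX2 in
theorem sg_A (i : Fin 3) : sg C R μ (AA C R μ i) = s0 C R (BB C R i) :=
  glue3_A _ (kap C R) (sd C R) _ _ (fun _ => rfl) (fun _ => rfl) (hkA C R μ hX1 hX2)
    (hAB C R μ hX1 hX2) i

include hX1 hX2 in
theorem sg_B (i : Fin 3) : sg C R μ (BB C R i) = s0 C R (AA C R μ i) :=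
  glue3_B _ (kap C R) (sd C R) _ _ (fun _ => rfl) (fun _ => rfl) (hkA C R μ hX1 hX2)
    (hAB C R μ hX1 hX2) i

theorem sg_o {x : DD C R} (h1 : ∀ i, x ≠ AA C R μ i) (h2 : ∀ i, x ≠ BB C R i) :
    sg C R μ x = s0 C R x := glue3_o _ _ _ h1 h2

include hX1 hX2 in
theorem phT (i : Fin 3) : sC n C (aC C μ (TT C R i)) = TT C R (i + 1) := by
  rw [phC]
  refine Prod.ext (hX C R μ hX1 hX2 i).symm ?_
  fin_cases i
  · rfl
  · rfl
  · exact C.tri.cube C.t1

include hX1 hX2 in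
theorem ph_T (i : Fin 3) : sg C R μ (al C R μ (Sum.inl (TT C R i))) = Sum.inr (R.a i) := by
  have : al C R μ (Sum.inl (TT C R i)) = AA C R μ i := rfl
  rw [this, sg_A C R μ hX1 hX2]
  simp only [BB, s0_inr, R.pb, fin3]

include hX1 hX2 in
theorem ph_b (i : Fin 3) : sg C R μ (al C R μ (Sum.inr (R.b i))) = Sum.inl (TT C R i) := by
  have : al C R μ (Sum.inr (R.b i)) = BB C R (i + 2) := by
    show Sum.inr (R.α (R.b i)) = Sum.inr (R.α (R.b (i + 2 + 1)))
    rw [fin3']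
  rw [this, sg_B C R μ hX1 hX2]
  simp only [AA, s0_inl, phT C R μ hX1 hX2, fin3']

theorem ph_C (q : ZMod n × C.Lab) (h : ∀ i, q ≠ TT C R i) :
    sg C R μ (al C R μ (Sum.inl q)) = Sum.inl (sC n C (aC C μ q)) := by
  rw [al_inl, sg_o, s0_inl]
  · intro i hh
    exact h i ((aC C μ).injective (Sum.inl.inj hh))
  · intro i hh; exact absurd hh (by simp [BB])

theorem ph_R (q : ZMod n × R.F) (h : ∀ i, q ≠ R.b i) :
    sg C R μ (al C R μ (Sum.inr q)) = Sum.inr (R.σ (R.α q)) := by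
  rw [al_inr, sg_o, s0_inr]
  · intro i hh; exact absurd hh (by simp [AA])
  · intro i hh
    exact h _ (R.α.injective (Sum.inr.inj hh))

theorem ph_C3 (q : ZMod n × C.Lab) :
    sC n C (aC C μ (sC n C (aC C μ (sC n C (aC C μ q))))) = q := by
  rw [phC, phC, phC]
  refine Prod.ext ?_ (C.tri.cube _)
  show q.1 + μ * (C.val q.2 : ℤ) + μ * (C.val (C.τ q.2) : ℤ) +
    μ * (C.val (C.τ (C.τ q.2)) : ℤ) = q.1
  have := C.tri.sum q.2
  have e : (C.val (C.τ (C.τ q.2)) : ℤ) = - C.val q.2 - C.val (C.τ q.2) := by linarith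
  rw [e]; push_cast; ring

include hX1 hX2 in
theorem sg_three : Fintype.card (DD C R) ≤ 3 * Run7.B243.cyc (sg C R μ * al C R μ) + δ := by
  refine cyc_three _ (R.big.map ⟨Sum.inr, Sum.inr_injective⟩)
    (R.big0.map ⟨Sum.inr, Sum.inr_injective⟩) δ ?_ ?_ ?_ ?_
  · rintro x hx
    simp only [Perm.mul_apply]
    rcases x with q | q
    · by_cases h : ∃ i, q = TT C R i
      · obtain ⟨i, rfl⟩ := h
        rw [ph_T C R μ hX1 hX2, ph_R C R μ _ (fun j => R.ab i j), R.pa, ph_b C R μ hX1 hX2]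
      · push Not at h
        have inj : ∀ q : ZMod n × C.Lab, (∀ i, q ≠ TT C R i) → ∀ i, sC n C (aC C μ q) ≠ TT C R i := by
          intro q h i hh
          have e : TT C R i = sC n C (aC C μ (TT C R (i + 2))) := by
            rw [phT C R μ hX1 hX2, fin3']
          rw [e] at hh
          exact h _ ((aC C μ).injective ((sC n C).injective hh))
        rw [ph_C C R μ q h, ph_C C R μ _ (inj q h), ph_C C R μ _ (inj _ (inj q h)), ph_C3]
    · have hq : q ∉ R.big := by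
        intro h; apply hx
        simp only [Finset.mem_map, Function.Embedding.coeFn_mk]
        exact ⟨q, h, rfl⟩
      by_cases ha : ∃ i, q = R.a i
      · obtain ⟨i, rfl⟩ := ha
        rw [ph_R C R μ _ (fun j => R.ab i j), R.pa, ph_b C R μ hX1 hX2, ph_T C R μ hX1 hX2]
      · by_cases hb : ∃ i, q = R.b i
        · obtain ⟨i, rfl⟩ := hb
          rw [ph_b C R μ hX1 hX2, ph_T C R μ hX1 hX2, ph_R C R μ _ (fun j => R.ab i j), R.pa]
        · push Not at ha hb
          have injb : ∀ q : ZMod n × R.F, (∀ i, q ≠ R.a i) → ∀ i, R.σ (R.α q) ≠ R.b i := by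
            intro q h i hh
            rw [← R.pa i] at hh
            exact h _ (R.α.injective (R.σ.injective hh))
          have inja : ∀ q : ZMod n × R.F, (∀ i, q ≠ R.b i) → ∀ i, R.σ (R.α q) ≠ R.a i := by
            intro q h i hh
            have := R.pb (i + 1)
            rw [fin3] at this
            rw [← this] at hh
            exact h _ (R.α.injective (R.σ.injective hh))
          rw [ph_R C R μ q hb, ph_R C R μ _ (injb q ha), ph_R C R μ _ (injb _ (inja q hb)),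
            R.tri q hq ha hb]
  · intro x hx
    simp only [Finset.mem_map, Function.Embedding.coeFn_mk] at hx ⊢
    obtain ⟨q, hq, rfl⟩ := hx
    rw [Perm.mul_apply, ph_R C R μ q (by rintro i rfl; exact R.bbig i hq)]
    exact ⟨_, R.bigc q hq, rfl⟩
  · rw [Finset.card_map]; exact R.big0c
  · have : (R.big.map ⟨Sum.inr, Sum.inr_injective⟩ : Finset (DD C R)) \
        R.big0.map ⟨Sum.inr, Sum.inr_injective⟩ =
        (R.big \ R.big0).map ⟨Sum.inr, Sum.inr_injective⟩ := by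
      ext x
      simp only [Finset.mem_sdiff, Finset.mem_map, Function.Embedding.coeFn_mk]
      constructor
      · rintro ⟨⟨q, hq, rfl⟩, h2⟩
        exact ⟨q, ⟨hq, fun h => h2 ⟨q, h, rfl⟩⟩, rfl⟩
      · rintro ⟨q, ⟨h1, h2⟩, rfl⟩
        refine ⟨⟨q, h1, rfl⟩, ?_⟩
        rintro ⟨q', hq', e⟩
        exact h2 (Sum.inr.inj e ▸ hq')
    rw [this, Finset.card_map]; exact R.bigd

end Run7.h243
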