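import Pool.Agent.Run7.h243.Glue2

set_option linter.unusedSectionVars false
set_option linter.unusedSimpArgs false

/-! Consequences of the gluing. -/

namespace Run7.h243

open Equiv Run7.B243

variable {n c0 δ s c : ℕ} [NeZero n] (C : CayZ s c) (R : RSys n c0 δ) (μ : ZMod n)
variable (hX1 : R.X 1 = R.X 0 + μ * (C.val C.t1 : ℤ))
  (hX2 : R.X 2 = R.X 1 + μ * (C.val (C.τ C.t1) : ℤ))

include hX1 hX2 in
theorem sg_merge :
    Run7.B243.cyc (sg C R μ) + 3 = Run7.B243.cyc (s0 C R) ∧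
    (∀ x y, cl (s0 C R) x = cl (s0 C R) y → cl (sg C R μ) x = cl (sg C R μ) y) ∧
    (∀ i, cl (sg C R μ) (AA C R μ i) = cl (sg C R μ) (BB C R i)) :=
  merge3 _ (kap C R) (sd C R) (kap_s0 C R) (sd_s0 C R) _ _ (fun _ => rfl) (fun _ => rfl)
    (hkA C R μ hX1 hX2) (hAB C R μ hX1 hX2)

include hX1 hX2 in
theorem kap_sg (x : DD C R) : kap C R (sg C R μ x) = kap C R x :=
  glue3_kappa _ (kap C R) (kap_s0 C R) _ _ (hAB C R μ hX1 hX2) x

theorem cyc_s0 : n * (c + c0) + 3 ≤ Run7.B243.cyc (s0 C R) := by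
  classical
  let N : Type := (ZMod n × Quot (fun a b => b = (C.τ * C.ν) a)) ⊕ ((ZMod n × Fin c0) ⊕ Fin 3)
  let G : DD C R → N := fun x => match x with
    | Sum.inl q => Sum.inl (q.1, cl (C.τ * C.ν) q.2)
    | Sum.inr q => if h : R.cy q < c0 then Sum.inr (Sum.inl (q.1, ⟨R.cy q, h⟩)) else
        if h' : ∃ i, q.1 = R.X i then Sum.inr (Sum.inr h'.choose) else Sum.inr (Sum.inr 0)
  have hcard : Nat.card N = n * (c + c0) + 3 := by
    have h1 : Nat.card (Quot (fun a b => b = (C.τ * C.ν) a)) = c := C.ncyc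
    rw [Nat.card_sum, Nat.card_prod, Nat.card_sum, Nat.card_prod, h1]
    simp only [Nat.card_eq_fintype_card, ZMod.card, Fintype.card_fin]
    ring
  rw [← hcard]
  refine card_le_cyc _ G ?_ ?_
  · intro x
    rcases x with q | q
    · show (Sum.inl _ : N) = Sum.inl _
      congr 1
      exact Prod.ext rfl (cl_apply (C.τ * C.ν) q.2)
    · have e1 := R.cyσ q
      have e2 := R.σ1 q
      rw [s0_inr]
      simp only [G, e1, e2]
  · intro t
    rcases t with ⟨x, Q⟩ | ⟨x, i⟩ | i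
    · induction Q using Quot.ind with
      | mk l => exact ⟨Sum.inl (x, l), rfl⟩
    · obtain ⟨q, hq1, hq2⟩ := R.rep x i.val i.isLt
      refine ⟨Sum.inr q, ?_⟩
      simp only [G]
      rw [dif_pos (by rw [hq2]; exact i.isLt)]
      congr 2
      exact Prod.ext hq1 (Fin.ext hq2)
    · refine ⟨Sum.inr (R.α (R.b i)), ?_⟩
      simp only [G]
      rw [dif_neg (by rw [R.path]; omega)]
      have h' : ∃ j, (R.α (R.b i)).1 = R.X j := ⟨i, R.lb i⟩
      rw [dif_pos h']
      congr 2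
      exact (R.Xinj ((R.lb i).symm.trans h'.choose_spec)).symm

include hX1 hX2 in
theorem cyc_sg : n * (c + c0) ≤ Run7.B243.cyc (sg C R μ) := by
  have h1 := cyc_s0 C R
  have h2 := (sg_merge C R μ hX1 hX2).1
  omega

/-- a dart of `R` in the class of the cyclic part -/
def toC (q : ZMod n × R.F) : Prop := ∃ q' : ZMod n × C.Lab, q'.1 = q.1 ∧
  cl (sg C R μ) (Sum.inr q) = cl (sg C R μ) (Sum.inl q')

include hX1 hX2 in
theorem path_toC (q : ZMod n × R.F) (h : R.cy q = c0) : toC C R μ q := by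
  obtain ⟨m1, m2, m3⟩ := sg_merge C R μ hX1 hX2
  rcases R.cyl q with h' | ⟨_, i, hi⟩
  · omega
  · have e1 : cl R.σ q = cl R.σ (R.α (R.b i)) :=
      R.cyc _ _ (by rw [hi, R.lb]) (by rw [h, R.path])
    have e2 : cl (s0 C R) (Sum.inr q) = cl (s0 C R) (Sum.inr (R.α (R.b i))) :=
      cl_map R.σ (s0 C R) Sum.inr (fun _ => rfl) e1
    have e3 := m2 _ _ e2
    have e4 : BB C R (i + 2) = Sum.inr (R.α (R.b i)) := by
      show Sum.inr (R.α (R.b (i + 2 + 1))) = _
      rw [fin3']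
    rw [← e4, ← m3] at e3
    refine ⟨_, ?_, e3⟩
    have := kap_AA C R μ hX1 hX2 (i + 2)
    rw [fin3'] at this
    rw [hi]; exact this

include hX1 hX2 in
theorem parts (x : ZMod n) :
    Nat.card {q : Quot (fun a b => b = sg C R μ a) // ∃ y, kap C R y = x ∧ q = cl (sg C R μ) y} ≤
      c + c0 := by
  classical
  obtain ⟨m1, m2, m3⟩ := sg_merge C R μ hX1 hX2
  have hcard : Nat.card (Quot (fun a b => b = (C.τ * C.ν) a) ⊕ Fin c0) = c + c0 := by
    have h1 : Nat.card (Quot (fun a b => b = (C.τ * C.ν) a)) = c := C.ncyc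
    rw [Nat.card_sum, h1]; simp
  rw [← hcard]
  refine Nat.card_le_card_of_surjective (fun t => match t with
    | Sum.inl Q => ⟨cl (sg C R μ) (Sum.inl (x, Q.out)), ⟨_, rfl, rfl⟩⟩
    | Sum.inr i => ⟨cl (sg C R μ) (Sum.inr (R.rep x i.val i.isLt).choose),
        ⟨Sum.inr (R.rep x i.val i.isLt).choose, (R.rep x i.val i.isLt).choose_spec.1, rfl⟩⟩) ?_
  have inl_case : ∀ l : C.Lab, cl (sg C R μ) (Sum.inl (x, (cl (C.τ * C.ν) l).out)) =
      cl (sg C R μ) (Sum.inl (x, l)) := by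
    intro l
    apply m2
    have e : cl (C.τ * C.ν) (cl (C.τ * C.ν) l).out = cl (C.τ * C.ν) l := Quot.out_eq _
    exact cl_map (C.τ * C.ν) (s0 C R) (fun l => Sum.inl (x, l)) (fun _ => rfl) e
  rintro ⟨q, y, hy, rfl⟩
  rcases y with ⟨x', l⟩ | q
  · have hx : x' = x := hy
    subst hx
    exact ⟨Sum.inl (cl (C.τ * C.ν) l), Subtype.ext (inl_case l)⟩
  · have hx : q.1 = x := hy
    by_cases h : R.cy q < c0
    · refine ⟨Sum.inr ⟨R.cy q, h⟩, Subtype.ext ?_⟩
      show cl (sg C R μ) (Sum.inr (R.rep x (R.cy q) h).choose) = _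
      apply m2
      have hc := (R.rep x (R.cy q) h).choose_spec
      exact cl_map R.σ (s0 C R) Sum.inr (fun _ => rfl)
        (R.cyc _ _ (by rw [hc.1, hx]) (by rw [hc.2]))
    · have h' : R.cy q = c0 := by
        rcases R.cyl q with h' | h'
        · exact absurd h' h
        · exact h'.1
      obtain ⟨⟨x', l⟩, hx', hq⟩ := path_toC C R μ hX1 hX2 q h'
      have : x' = x := by rw [← hx]; exact hx'
      subst this
      exact ⟨Sum.inl (cl (C.τ * C.ν) l), Subtype.ext ((inl_case l).trans hq.symm)⟩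

/-- connected -/
def Eq' (x y : DD C R) : Prop :=
  Relation.EqvGen (fun a b => b = sg C R μ a ∨ b = al C R μ a) x y

theorem Eq'_cl {x y : DD C R} (h : cl (sg C R μ) x = cl (sg C R μ) y) : Eq' C R μ x y := by
  have h' := Quot.eqvGen_exact h
  exact Relation.EqvGen.mono (fun a b h => Or.inl h) _ _ h'

theorem Eq'_al (x : DD C R) : Eq' C R μ x (al C R μ x) := Relation.EqvGen.rel _ _ (Or.inr rfl)

include hX1 hX2 in
theorem conn_C (hμ : ∀ x : ZMod n, ∃ z : ℤ, x = μ * z) (p q : ZMod n × C.Lab) :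
    Eq' C R μ (Sum.inl p) (Sum.inl q) := by
  obtain ⟨m1, m2, m3⟩ := sg_merge C R μ hX1 hX2
  have key : ∀ p q : ℤ × C.Lab, Relation.EqvGen (RZ (C.τ * C.ν) C.ν C.val) p q →
      Eq' C R μ (Sum.inl (μ * (p.1 : ℤ), p.2)) (Sum.inl (μ * (q.1 : ℤ), q.2)) := by
    intro p q h
    induction h with
    | rel a b hr =>
      rcases hr with hr | hr
      · subst hr
        apply Eq'_cl
        apply m2
        have := cl_apply (s0 C R) (Sum.inl (μ * (a.1 : ℤ), a.2))
        exact this.symm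
      · subst hr
        have := Eq'_al C R μ (Sum.inl (μ * (a.1 : ℤ), a.2))
        rw [al_inl, aC_apply] at this
        have e : μ * ((a.1 + C.val a.2 : ℤ) : ZMod n) = μ * (a.1 : ℤ) + μ * (C.val a.2 : ℤ) := by
          push_cast; ring
        simp only [e]
        exact this
    | refl a => exact Relation.EqvGen.refl _
    | symm a b _ ih => exact Relation.EqvGen.symm _ _ ih
    | trans a b c _ _ ih1 ih2 => exact Relation.EqvGen.trans _ _ _ ih1 ih2
  obtain ⟨z, hz⟩ := hμ p.1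
  obtain ⟨z', hz'⟩ := hμ q.1
  have := key (z, p.2) (z', q.2) (C.conn _ _)
  simp only at this
  rw [← hz, ← hz'] at this
  exact this

include hX1 hX2 in
theorem conn_all (hμ : ∀ x : ZMod n, ∃ z : ℤ, x = μ * z) (x y : DD C R) : Eq' C R μ x y := by
  obtain ⟨m1, m2, m3⟩ := sg_merge C R μ hX1 hX2
  have base : ∀ x : DD C R, Eq' C R μ x (Sum.inl (0, C.t1)) := by
    have hR : ∀ N : ℕ, ∀ q : ZMod n × R.F, R.rk q < N → Eq' C R μ (Sum.inr q) (Sum.inl (0, C.t1)) := by
      intro N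
      induction N with
      | zero => intro q h; omega
      | succ N ih =>
        intro q hq
        rcases R.desc q with h | ⟨q', h1, h2, h3⟩
        · obtain ⟨q', _, hq'⟩ := path_toC C R μ hX1 hX2 q h
          exact Relation.EqvGen.trans _ _ _ (Eq'_cl C R μ hq') (conn_C C R μ hX1 hX2 hμ _ _)
        · have e1 : cl (sg C R μ) (Sum.inr q) = cl (sg C R μ) (Sum.inr q') :=
            m2 _ _ (cl_map R.σ (s0 C R) Sum.inr (fun _ => rfl) (R.cyc _ _ h1.symm h2.symm))
          have e2 := Eq'_al C R μ (Sum.inr q')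
          rw [al_inr] at e2
          exact Relation.EqvGen.trans _ _ _ (Eq'_cl C R μ e1)
            (Relation.EqvGen.trans _ _ _ e2 (ih _ (by omega)))
    intro x
    rcases x with q | q
    · exact conn_C C R μ hX1 hX2 hμ _ _
    · exact hR (R.rk q + 1) q (by omega)
  exact Relation.EqvGen.trans _ _ _ (base x) (Relation.EqvGen.symm _ _ (base y))

theorem al2 (x : DD C R) : al C R μ (al C R μ x) = x := by
  rcases x with q | q
  · exact congrArg Sum.inl ((aC C μ).left_inv q)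
  · exact congrArg Sum.inr (R.α2 q)

theorem alne (x : DD C R) : al C R μ x ≠ x := by
  rcases x with q | q
  · intro h
    have := congrArg Prod.snd (Sum.inl.inj h)
    exact C.nune _ this
  · intro h; exact R.αne q (Sum.inr.inj h)

end Run7.h243
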