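import Pool.Agent.Run7.h243.Exact

set_option linter.unusedSectionVars false
set_option linter.unusedSimpArgs false

/-! The map obtained by gluing. -/

namespace Run7.h243

open Equiv Run7.B243

variable {n c0 δ s c : ℕ} [NeZero n] (C : CayZ s c) (R : RSys n c0 δ) (μ : ZMod n)
variable (hX1 : R.X 1 = R.X 0 + μ * (C.val C.t1 : ℤ))
  (hX2 : R.X 2 = R.X 1 + μ * (C.val (C.τ C.t1) : ℤ))

include hX1 hX2 in
/-- the main consequence -/
theorem glue_goodE (hμ : ∀ x : ZMod n, ∃ z : ℤ, x = μ * z)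
    (hcov : ∀ g : ZMod n, g ≠ 0 → (∃ u : ℕ, (u = 2 ∨ (5 ≤ u ∧ u ≤ 3 * s + 3)) ∧
      (g = μ * u ∨ g = - (μ * u))) ∨ ∃ p, R.off p = g)
    (hcard : 6 * s + Fintype.card R.F + 1 = n) :
    ∃ ε : ℤ, GoodE true ε n (c + c0) ∧ Even ε ∧
      (n : ℤ) * (6 * (c + c0 : ℕ) + 1 - n) - 2 * δ ≤ 6 * ε := by
  classical
  let e : ZMod n ≃ Fin n := Fintype.equivFinOfCardEq (ZMod.card n)
  have hg := goodE_of_rot (sg C R μ) (al C R μ) ⟨Sum.inl (0, C.t1)⟩ (al2 C R μ) (alne C R μ)
    (conn_all C R μ hX1 hX2 hμ) n (c + c0) (fun x => e (kap C R x))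
    (by intro x; simp only [kap_sg C R μ hX1 hX2]) (by
      intro x
      refine exact_parts (sg C R μ) (fun x => e (kap C R x))
        (by intro x; simp only [kap_sg C R μ hX1 hX2]) (c + c0) ?_ ?_ x
      · intro x
        refine le_trans (le_of_eq ?_) (parts C R μ hX1 hX2 (e.symm x))
        congr 1
        congr 1
        funext q
        apply propext
        constructor
        · rintro ⟨y, hy, hq⟩; exact ⟨y, by rw [← hy]; simp, hq⟩
        · rintro ⟨y, hy, hq⟩; exact ⟨y, by rw [hy]; simp, hq⟩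
      · rw [Fintype.card_fin]; exact cyc_sg C R μ hX1 hX2) (by
      intro a b hab
      have hne : e.symm b - e.symm a ≠ 0 := by
        intro h; apply hab; exact e.symm.injective (sub_eq_zero.mp h).symm
      have hval : ∀ u : ℤ, (∃ l, C.val l = u) → e.symm b - e.symm a = μ * u →
          ∃ x : DD C R, e (kap C R x) = a ∧ e (kap C R (al C R μ x)) = b := by
        rintro u ⟨l, hl⟩ hu
        refine ⟨Sum.inl (e.symm a, l), ?_, ?_⟩
        · show e (e.symm a) = a; simp
        · show e (e.symm a + μ * (C.val l : ℤ)) = b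
          rw [hl, ← hu]; simp
      rcases hcov _ hne with ⟨u, hu, h | h⟩ | ⟨p, hp⟩
      · exact hval u (C.cov u hu) (by rw [h]; push_cast; ring)
      · obtain ⟨l, hl⟩ := C.cov u hu
        exact hval (-u) ⟨C.ν l, by rw [C.nuval, hl]⟩ (by rw [h]; push_cast; ring)
      · refine ⟨Sum.inr (e.symm a, p), ?_, ?_⟩
        · show e (e.symm a) = a; simp
        · show e (R.α (e.symm a, p)).1 = b
          rw [R.α1]; simp only [hp]; simp)
  refine ⟨_, hg, ?_, ?_⟩
  · have h1 := even_euler (sg C R μ) (al C R μ) (al2 C R μ) (alne C R μ)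
    obtain ⟨t, ht⟩ := h1
    refine ⟨(t : ℤ) - Run7.B243.cyc (al C R μ), ?_⟩
    omega
  · have h1 := sg_three C R μ hX1 hX2
    rw [cyc_comm] at h1
    have h2 := cyc_invol (al C R μ) (al2 C R μ) (alne C R μ)
    have h3 := cyc_sg C R μ hX1 hX2
    have h4 : Fintype.card (DD C R) = n * (n - 1) := by
      rw [Fintype.card_sum, Fintype.card_prod, Fintype.card_prod, ZMod.card, C.card]
      rw [← Nat.mul_add]
      congr 1
      omega
    have h5 : (n : ℤ) * (n - 1) = (Fintype.card (DD C R) : ℕ) := by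
      rw [h4]
      have : 1 ≤ n := Nat.one_le_iff_ne_zero.mpr (NeZero.ne n)
      push_cast [this]; ring
    have h6 : (n : ℤ) * (c + c0 : ℕ) ≤ Run7.B243.cyc (sg C R μ) := by exact_mod_cast h3
    have h7 : ((Fintype.card (DD C R) : ℕ) : ℤ) ≤
        3 * Run7.B243.cyc (al C R μ * sg C R μ) + δ := by exact_mod_cast h1
    have h8 : 2 * (Run7.B243.cyc (al C R μ) : ℤ) = (Fintype.card (DD C R) : ℕ) := by
      exact_mod_cast h2
    have h9 : (n : ℤ) * (6 * (c + c0 : ℕ) + 1 - n) = 6 * (n * (c + c0 : ℕ)) - n * (n - 1) := by ring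
    rw [h9]
    linarith

end Run7.h243
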