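import Pool.Agent.Run7.h243.Flip2

set_option linter.unusedSectionVars false
set_option linter.unusedSimpArgs false

/-! A ladder closed by a core: combinatorial part. -/

namespace Run7.h243

open Equiv Run7.B243

/-- arcs at a rung: previous, next, rung, on the upper and on the lower rail -/
inductive K6
  | tp | tn | tr | up | un | ur
deriving DecidableEq

instance : Fintype K6 := ⟨{K6.tp, K6.tn, K6.tr, K6.up, K6.un, K6.ur}, by intro x; cases x <;> simp⟩

/-- the tables of a core with sixteen vertices -/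
structure Core where
  tau : Fin 48 → Fin 48
  nu : Fin 48 → Fin 48
  aT : Fin 48
  bT : Fin 48
  aU : Fin 48
  bU : Fin 48
  nm : Fin 48 → ℕ
  rc : ℕ → Fin 48
  pc : Fin 48 → Fin 48
  ic : Fin 48 → ℕ
  er : ℕ → Fin 48

namespace Core

variable (K : Core)

/-- successor on the core arcs, the ladder being contracted -/
def piC (c : Fin 48) : Fin 48 :=
  if c = K.aT then K.tau K.bT else if c = K.bU then K.tau K.aU else
  if c = K.aU then K.tau K.aT else if c = K.bT then K.tau K.bU else K.tau (K.nu c)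

/-- not one of the four dangling arcs -/
def inner (c : Fin 48) : Prop := c ≠ K.aT ∧ c ≠ K.bT ∧ c ≠ K.aU ∧ c ≠ K.bU

instance (c : Fin 48) : Decidable (K.inner c) := by unfold inner; infer_instance

/-- the conditions on the tables -/
structure Ok : Prop where
  tau3 : ∀ c, K.tau (K.tau (K.tau c)) = c
  taune : ∀ c, K.tau c ≠ c
  tauv : ∀ c, (K.tau c).val / 3 = c.val / 3
  nu2 : ∀ c, K.nu (K.nu c) = c
  nuin : ∀ c, K.inner c → K.inner (K.nu c) ∧ K.nu c ≠ c
  dist : K.aT ≠ K.bT ∧ K.aT ≠ K.aU ∧ K.aT ≠ K.bU ∧ K.bT ≠ K.aU ∧ K.bT ≠ K.bU ∧ K.aU ≠ K.bU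
  nmP : ∀ c, K.nm (K.piC c) = K.nm c
  nm9 : ∀ c, K.nm c < 9
  nmr : ∀ j, j < 9 → K.nm (K.rc j) = j
  pcc : ∀ c, c = K.rc (K.nm c) ∨ (K.piC (K.pc c) = c ∧ K.nm (K.pc c) = K.nm c ∧ K.ic (K.pc c) < K.ic c)
  nmaT : K.nm K.aT = 0
  erc : ∀ j, j < 9 → j ≠ 0 → K.nm (K.er j) = 0 ∧ K.nm (K.nu (K.er j)) = j ∧ K.inner (K.er j)

end Core

/-- the labels -/
abbrev LL (M : ℕ) : Type := Fin 48 ⊕ (Fin (M + 1) × K6)

variable (K : Core) (M : ℕ)

/-- previous index -/
def pr (i : Fin (M + 1)) : Fin (M + 1) := ⟨i.val - 1, by omega⟩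
/-- next index -/
def sc (i : Fin (M + 1)) : Fin (M + 1) := ⟨min (i.val + 1) M, by omega⟩

variable {M}

theorem sc_pr {i : Fin (M + 1)} (h : i.val ≠ 0) : sc M (pr M i) = i := by
  apply Fin.ext; simp only [sc, pr]; omega

theorem pr_sc {i : Fin (M + 1)} (h : i.val ≠ M) : pr M (sc M i) = i := by
  apply Fin.ext; simp only [sc, pr]; omega

theorem pr_ne {i : Fin (M + 1)} (h : i.val ≠ 0) : (pr M i).val ≠ M := by
  simp only [pr]; omega

theorem sc_ne {i : Fin (M + 1)} (h : i.val ≠ M) : (sc M i).val ≠ 0 := by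
  simp only [sc]; omega

variable (M)

/-- the partner -/
def lnu : LL M → LL M
  | Sum.inl c => if c = K.aT then Sum.inr (0, K6.tp) else if c = K.aU then Sum.inr (0, K6.up) else
      if c = K.bT then Sum.inr (Fin.last M, K6.tn) else
      if c = K.bU then Sum.inr (Fin.last M, K6.un) else Sum.inl (K.nu c)
  | Sum.inr (i, K6.tp) => if i.val = 0 then Sum.inl K.aT else Sum.inr (pr M i, K6.tn)
  | Sum.inr (i, K6.tn) => if i.val = M then Sum.inl K.bT else Sum.inr (sc M i, K6.tp)
  | Sum.inr (i, K6.tr) => Sum.inr (i, K6.ur)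
  | Sum.inr (i, K6.up) => if i.val = 0 then Sum.inl K.aU else Sum.inr (pr M i, K6.un)
  | Sum.inr (i, K6.un) => if i.val = M then Sum.inl K.bU else Sum.inr (sc M i, K6.up)
  | Sum.inr (i, K6.ur) => Sum.inr (i, K6.tr)

/-- rotation at a rung -/
def tk : K6 → K6
  | K6.tp => K6.tn
  | K6.tn => K6.tr
  | K6.tr => K6.tp
  | K6.up => K6.ur
  | K6.ur => K6.un
  | K6.un => K6.up

theorem tk3 (k : K6) : tk (tk (tk k)) = k := by cases k <;> rfl
theorem tk_ne (k : K6) : tk k ≠ k := by cases k <;> simp [tk]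

/-- next arc of the triple -/
def ltau : LL M → LL M
  | Sum.inl c => Sum.inl (K.tau c)
  | Sum.inr (i, k) => Sum.inr (i, tk k)

variable {K M} (hK : K.Ok)

section nus
variable {i : Fin (M + 1)} {c : Fin 48}

theorem lnu_aT : lnu K M (Sum.inl K.aT) = Sum.inr (0, K6.tp) := by simp [lnu]
include hK in
theorem lnu_aU : lnu K M (Sum.inl K.aU) = Sum.inr (0, K6.up) := by
  have := hK.dist; simp [lnu, this.2.1.symm]
include hK in
theorem lnu_bT : lnu K M (Sum.inl K.bT) = Sum.inr (Fin.last M, K6.tn) := by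
  have := hK.dist; simp [lnu, this.1.symm, this.2.2.2.1]
include hK in
theorem lnu_bU : lnu K M (Sum.inl K.bU) = Sum.inr (Fin.last M, K6.un) := by
  have := hK.dist
  simp [lnu, this.2.2.1.symm, this.2.2.2.2.1.symm, this.2.2.2.2.2.symm]
theorem lnu_in (h : K.inner c) : lnu K M (Sum.inl c) = Sum.inl (K.nu c) := by
  simp [lnu, h.1, h.2.1, h.2.2.1, h.2.2.2]
theorem lnu_tp0 (h : i.val = 0) : lnu K M (Sum.inr (i, K6.tp)) = Sum.inl K.aT := by simp [lnu, h]
theorem lnu_tp (h : i.val ≠ 0) : lnu K M (Sum.inr (i, K6.tp)) = Sum.inr (pr M i, K6.tn) := by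
  simp [lnu, h]
theorem lnu_tnM (h : i.val = M) : lnu K M (Sum.inr (i, K6.tn)) = Sum.inl K.bT := by simp [lnu, h]
theorem lnu_tn (h : i.val ≠ M) : lnu K M (Sum.inr (i, K6.tn)) = Sum.inr (sc M i, K6.tp) := by
  simp [lnu, h]
theorem lnu_tr : lnu K M (Sum.inr (i, K6.tr)) = Sum.inr (i, K6.ur) := rfl
theorem lnu_ur : lnu K M (Sum.inr (i, K6.ur)) = Sum.inr (i, K6.tr) := rfl
theorem lnu_up0 (h : i.val = 0) : lnu K M (Sum.inr (i, K6.up)) = Sum.inl K.aU := by simp [lnu, h]
theorem lnu_up (h : i.val ≠ 0) : lnu K M (Sum.inr (i, K6.up)) = Sum.inr (pr M i, K6.un) := by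
  simp [lnu, h]
theorem lnu_unM (h : i.val = M) : lnu K M (Sum.inr (i, K6.un)) = Sum.inl K.bU := by simp [lnu, h]
theorem lnu_un (h : i.val ≠ M) : lnu K M (Sum.inr (i, K6.un)) = Sum.inr (sc M i, K6.up) := by
  simp [lnu, h]

end nus

theorem core_cases (c : Fin 48) : c = K.aT ∨ c = K.bT ∨ c = K.aU ∨ c = K.bU ∨ K.inner c := by
  unfold Core.inner; tauto

include hK in
theorem lnu_lnu (l : LL M) : lnu K M (lnu K M l) = l := by
  rcases l with c | ⟨i, k⟩
  · rcases core_cases (K := K) c with rfl | rfl | rfl | rfl | h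
    · rw [lnu_aT, lnu_tp0 rfl]
    · rw [lnu_bT hK, lnu_tnM rfl]
    · rw [lnu_aU hK, lnu_up0 rfl]
    · rw [lnu_bU hK, lnu_unM rfl]
    · rw [lnu_in h, lnu_in (hK.nuin c h).1, hK.nu2]
  · cases k
    · by_cases h : i.val = 0
      · rw [lnu_tp0 h, lnu_aT]
        congr 2; exact Fin.ext h.symm
      · rw [lnu_tp h, lnu_tn (pr_ne h), sc_pr h]
    · by_cases h : i.val = M
      · rw [lnu_tnM h, lnu_bT hK]
        congr 2; exact Fin.ext h.symm
      · rw [lnu_tn h, lnu_tp (sc_ne h), pr_sc h]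
    · rfl
    · by_cases h : i.val = 0
      · rw [lnu_up0 h, lnu_aU hK]
        congr 2; exact Fin.ext h.symm
      · rw [lnu_up h, lnu_un (pr_ne h), sc_pr h]
    · by_cases h : i.val = M
      · rw [lnu_unM h, lnu_bU hK]
        congr 2; exact Fin.ext h.symm
      · rw [lnu_un h, lnu_up (sc_ne h), pr_sc h]
    · rfl

include hK in
theorem lnu_ne (l : LL M) : lnu K M l ≠ l := by
  rcases l with c | ⟨i, k⟩
  · rcases core_cases (K := K) c with rfl | rfl | rfl | rfl | h
    · rw [lnu_aT]; simp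
    · rw [lnu_bT hK]; simp
    · rw [lnu_aU hK]; simp
    · rw [lnu_bU hK]; simp
    · rw [lnu_in h]
      intro hh; exact (hK.nuin c h).2 (Sum.inl.inj hh)
  · cases k
    · by_cases h : i.val = 0
      · rw [lnu_tp0 h]; simp
      · rw [lnu_tp h]; simp
    · by_cases h : i.val = M
      · rw [lnu_tnM h]; simp
      · rw [lnu_tn h]; simp
    · rw [lnu_tr]; simp
    · by_cases h : i.val = 0
      · rw [lnu_up0 h]; simp
      · rw [lnu_up h]; simp
    · by_cases h : i.val = M
      · rw [lnu_unM h]; simp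
      · rw [lnu_un h]; simp
    · rw [lnu_ur]; simp

include hK in
theorem ltau3 (l : LL M) : ltau K M (ltau K M (ltau K M l)) = l := by
  rcases l with c | ⟨i, k⟩
  · simp [ltau, hK.tau3]
  · simp [ltau, tk3]

/-- partner as a permutation -/
def pnu (hK : K.Ok) (M : ℕ) : Perm (LL M) := ⟨lnu K M, lnu K M, lnu_lnu hK, lnu_lnu hK⟩

/-- rotation as a permutation -/
def ptau (hK : K.Ok) (M : ℕ) : Perm (LL M) :=
  ⟨ltau K M, fun l => ltau K M (ltau K M l), fun l => ltau3 hK l, fun l => ltau3 hK l⟩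

/-- the circuit permutation -/
def ppi (hK : K.Ok) (M : ℕ) : Perm (LL M) := ptau hK M * pnu hK M

theorem ppi_apply (l : LL M) : ppi hK M l = ltau K M (lnu K M l) := rfl

/-- names of circuits -/
def name (K : Core) (M : ℕ) : LL M → ℕ
  | Sum.inl c => K.nm c
  | Sum.inr (_, K6.tn) => K.nm K.aT
  | Sum.inr (_, K6.up) => K.nm K.bU
  | Sum.inr (i, K6.tp) => if i.val = 0 then K.nm K.aU else 8 + i.val
  | Sum.inr (i, K6.ur) => if i.val = 0 then K.nm K.aU else 8 + i.val
  | Sum.inr (i, K6.tr) => if i.val = M then K.nm K.bT else 9 + i.val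
  | Sum.inr (i, K6.un) => if i.val = M then K.nm K.bT else 9 + i.val

include hK in
theorem name_pi (l : LL M) : name K M (ppi hK M l) = name K M l := by
  rw [ppi_apply]
  rcases l with c | ⟨i, k⟩
  · have hp := hK.nmP c
    rcases core_cases (K := K) c with rfl | rfl | rfl | rfl | h
    · rw [lnu_aT]; rfl
    · rw [lnu_bT hK]; simp [ltau, tk, name]
    · rw [lnu_aU hK]; simp [ltau, tk, name]
    · rw [lnu_bU hK]; simp [ltau, tk, name]
    · rw [lnu_in h]
      simp only [Core.piC, h.1, h.2.1, h.2.2.1, h.2.2.2, if_false] at hp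
      exact hp
  · have d := hK.dist
    have pT := hK.nmP K.aT
    have pU := hK.nmP K.bU
    have qT := hK.nmP K.aU
    have qU := hK.nmP K.bT
    simp only [Core.piC, if_true] at pT
    simp only [Core.piC, if_true, d.2.2.1.symm, if_false] at pU
    simp only [Core.piC, if_true, d.2.1.symm, if_false, d.2.2.2.2.2] at qT
    simp only [Core.piC, if_true, d.1.symm, if_false, d.2.2.2.2.1, d.2.2.2.1] at qU
    cases k
    · by_cases h : i.val = 0
      · rw [lnu_tp0 h]; simp only [ltau, name, h, if_true]; exact qT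
      · rw [lnu_tp h]
        have := pr_ne h
        show (if (pr M i).val = M then K.nm K.bT else 9 + (pr M i).val) =
          (if i.val = 0 then K.nm K.aU else 8 + i.val)
        rw [if_neg this, if_neg h]
        simp only [pr]
        omega
    · by_cases h : i.val = M
      · rw [lnu_tnM h]; simp only [ltau, name]; exact pT
      · rw [lnu_tn h]; rfl
    · rw [lnu_tr]; rfl
    · by_cases h : i.val = 0
      · rw [lnu_up0 h]; simp only [ltau, name]; exact pU
      · rw [lnu_up h]; rfl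
    · by_cases h : i.val = M
      · rw [lnu_unM h]; simp only [ltau, name, h, if_true]; exact qU
      · rw [lnu_un h]
        have := sc_ne h
        show (if (sc M i).val = 0 then K.nm K.aU else 8 + (sc M i).val) =
          (if i.val = M then K.nm K.bT else 9 + i.val)
        rw [if_neg this, if_neg h]
        simp only [sc]
        omega
    · rw [lnu_ur]; rfl

/-- representatives -/
def rep (K : Core) (M : ℕ) (j : ℕ) : LL M :=
  if j < 9 then Sum.inl (K.rc j) else Sum.inr (⟨min (j - 9) M, by omega⟩, K6.tr)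

section classes

theorem cpi (l : LL M) : cl (ppi hK M) (ltau K M (lnu K M l)) = cl (ppi hK M) l := by
  rw [← ppi_apply hK, cl_apply]

theorem c_un (i : Fin (M + 1)) : cl (ppi hK M) (Sum.inr (i, K6.un)) =
    cl (ppi hK M) (Sum.inr (i, K6.tr)) := cpi hK (Sum.inr (i, K6.tr))

theorem c_tp (i : Fin (M + 1)) : cl (ppi hK M) (Sum.inr (i, K6.tp)) =
    cl (ppi hK M) (Sum.inr (i, K6.ur)) := cpi hK (Sum.inr (i, K6.ur))

theorem c_ur {i : Fin (M + 1)} (h : i.val ≠ 0) : cl (ppi hK M) (Sum.inr (i, K6.ur)) =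
    cl (ppi hK M) (Sum.inr (pr M i, K6.tr)) := by
  have := cpi hK (Sum.inr (pr M i, K6.un))
  rw [lnu_un (pr_ne h), sc_pr h] at this
  exact this.trans (c_un hK _)

theorem c_ur0 {i : Fin (M + 1)} (h : i.val = 0) : cl (ppi hK M) (Sum.inr (i, K6.ur)) =
    cl (ppi hK M) (Sum.inl K.aU) := by
  have := cpi hK (M := M) (Sum.inl K.aU)
  rw [lnu_aU hK] at this
  have e : i = 0 := Fin.ext h
  rw [e]; exact this

theorem c_trM {i : Fin (M + 1)} (h : i.val = M) : cl (ppi hK M) (Sum.inr (i, K6.tr)) =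
    cl (ppi hK M) (Sum.inl K.bT) := by
  have := cpi hK (M := M) (Sum.inl K.bT)
  rw [lnu_bT hK] at this
  have e : i = Fin.last M := Fin.ext h
  rw [e]; exact this

theorem c_tn (i : Fin (M + 1)) : cl (ppi hK M) (Sum.inr (i, K6.tn)) =
    cl (ppi hK M) (Sum.inl K.aT) := by
  obtain ⟨v, hv⟩ := i
  induction v with
  | zero =>
    have := cpi hK (M := M) (Sum.inl K.aT)
    rw [lnu_aT] at this
    exact this
  | succ v ih =>
    have h1 : ((⟨v, by omega⟩ : Fin (M + 1)).val) ≠ M := by simp only; omega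
    have := cpi hK (Sum.inr ((⟨v, by omega⟩ : Fin (M + 1)), K6.tn))
    rw [lnu_tn h1] at this
    have e : sc M ⟨v, by omega⟩ = ⟨v + 1, hv⟩ := by apply Fin.ext; simp only [sc]; omega
    rw [e] at this
    exact this.trans (ih _)

theorem c_up (i : Fin (M + 1)) : cl (ppi hK M) (Sum.inr (i, K6.up)) =
    cl (ppi hK M) (Sum.inl K.bU) := by
  have key : ∀ t : ℕ, t ≤ M → cl (ppi hK M) (Sum.inr ((⟨M - t, by omega⟩ : Fin (M + 1)), K6.up)) =
      cl (ppi hK M) (Sum.inl K.bU) := by
    intro t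
    induction t with
    | zero =>
      intro _
      have := cpi hK (M := M) (Sum.inl K.bU)
      rw [lnu_bU hK] at this
      exact this
    | succ t ih =>
      intro ht
      have h1 : ((⟨M - t, by omega⟩ : Fin (M + 1)).val) ≠ 0 := by simp only; omega
      have := cpi hK (Sum.inr ((⟨M - t, by omega⟩ : Fin (M + 1)), K6.up))
      rw [lnu_up h1] at this
      have e : pr M ⟨M - t, by omega⟩ = ⟨M - (t + 1), by omega⟩ := by
        apply Fin.ext; simp only [pr]; omega
      rw [e] at this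
      exact this.trans (ih (by omega))
  have := key (M - i.val) (by omega)
  have e : (⟨M - (M - i.val), by omega⟩ : Fin (M + 1)) = i := by apply Fin.ext; simp only; omega
  rw [e] at this
  exact this

theorem c_core (c : Fin 48) : cl (ppi hK M) (Sum.inl (K.piC c)) = cl (ppi hK M) (Sum.inl c) := by
  have d := hK.dist
  rcases core_cases (K := K) c with rfl | rfl | rfl | rfl | h
  · have := cpi hK (Sum.inr (Fin.last M, K6.tn))
    rw [lnu_tnM rfl] at this
    simp only [Core.piC, if_true]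
    exact this.trans (c_tn hK _)
  · have := cpi hK (Sum.inr (Fin.last M, K6.un))
    rw [lnu_unM rfl] at this
    simp only [Core.piC, if_true, d.1.symm, if_false, d.2.2.2.2.1, d.2.2.2.1]
    exact this.trans ((c_un hK _).trans (c_trM hK rfl))
  · have := cpi hK (Sum.inr ((0 : Fin (M + 1)), K6.tp))
    rw [lnu_tp0 rfl] at this
    simp only [Core.piC, if_true, d.2.1.symm, if_false, d.2.2.2.2.2]
    exact this.trans ((c_tp hK _).trans (c_ur0 hK rfl))
  · have := cpi hK (Sum.inr ((0 : Fin (M + 1)), K6.up))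
    rw [lnu_up0 rfl] at this
    simp only [Core.piC, if_true, d.2.2.1.symm, if_false]
    exact this.trans (c_up hK _)
  · have := cpi hK (M := M) (Sum.inl c)
    rw [lnu_in h] at this
    simp only [Core.piC, h.1, h.2.1, h.2.2.1, h.2.2.2, if_false]
    exact this

theorem c_rc (c : Fin 48) : cl (ppi hK M) (Sum.inl c) = cl (ppi hK M) (Sum.inl (K.rc (K.nm c))) := by
  have key : ∀ n : ℕ, ∀ c, K.ic c < n → cl (ppi hK M) (Sum.inl c) =
      cl (ppi hK M) (Sum.inl (K.rc (K.nm c))) := by
    intro n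
    induction n with
    | zero => intro c hc; omega
    | succ n ih =>
      intro c hc
      rcases hK.pcc c with h | ⟨h1, h2, h3⟩
      · rw [← h]
      · have := ih (K.pc c) (by omega)
        rw [h2] at this
        rw [← this, ← c_core hK (K.pc c), h1]
  exact key (K.ic c + 1) c (by omega)

theorem c_rep (l : LL M) : cl (ppi hK M) l = cl (ppi hK M) (rep K M (name K M l)) := by
  have hcore : ∀ c, cl (ppi hK M) (Sum.inl c) = cl (ppi hK M) (rep K M (K.nm c)) := by
    intro c
    rw [c_rc hK c]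
    simp only [rep, hK.nm9 c, if_true]
  have hin : ∀ i : Fin (M + 1), i.val ≠ M → cl (ppi hK M) (Sum.inr (i, K6.tr)) =
      cl (ppi hK M) (rep K M (9 + i.val)) := by
    intro i hi
    have : rep K M (9 + i.val) = Sum.inr (i, K6.tr) := by
      have h9 : ¬ (9 + i.val < 9) := by omega
      simp only [rep, h9, if_false]
      congr 2
      apply Fin.ext; simp only; omega
    rw [this]
  have htr : ∀ i : Fin (M + 1), cl (ppi hK M) (Sum.inr (i, K6.tr)) =
      cl (ppi hK M) (rep K M (if i.val = M then K.nm K.bT else 9 + i.val)) := by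
    intro i
    by_cases h : i.val = M
    · rw [if_pos h, c_trM hK h]; exact hcore _
    · rw [if_neg h]; exact hin i h
  have hur : ∀ i : Fin (M + 1), cl (ppi hK M) (Sum.inr (i, K6.ur)) =
      cl (ppi hK M) (rep K M (if i.val = 0 then K.nm K.aU else 8 + i.val)) := by
    intro i
    by_cases h : i.val = 0
    · rw [if_pos h, c_ur0 hK h]; exact hcore _
    · rw [if_neg h, c_ur hK h, hin _ (pr_ne h)]
      have : 9 + (pr M i).val = 8 + i.val := by simp only [pr]; omega
      rw [this]
  rcases l with c | ⟨i, k⟩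
  · exact hcore c
  · cases k
    · exact (c_tp hK i).trans (hur i)
    · exact (c_tn hK i).trans (hcore _)
    · exact htr i
    · exact (c_up hK i).trans (hcore _)
    · exact (c_un hK i).trans (htr i)
    · exact hur i

end classes

theorem name_lt (l : LL M) (hK : K.Ok) : name K M l < 9 + M := by
  rcases l with c | ⟨i, k⟩
  · have := hK.nm9 c; simp only [name]; omega
  · have h1 := hK.nm9 K.aT
    have h2 := hK.nm9 K.bT
    have h3 := hK.nm9 K.aU
    have h4 := hK.nm9 K.bU
    have := i.isLt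
    cases k <;> simp only [name] <;> (try split_ifs) <;> omega

theorem name_rep {j : ℕ} (hj : j < 9 + M) (hK : K.Ok) : name K M (rep K M j) = j := by
  unfold rep
  by_cases h : j < 9
  · rw [if_pos h]; exact hK.nmr j h
  · rw [if_neg h]
    simp only [name]
    rw [if_neg (by omega)]; omega

theorem cyc_ppi : cyc (ppi hK M) = 9 + M := by
  have h : cyc (ppi hK M) = Nat.card (Fin (9 + M)) := by
    unfold cyc
    refine Nat.card_eq_of_bijective
      (Quot.lift (fun l => (⟨name K M l, name_lt l hK⟩ : Fin (9 + M))) (by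
        intro a b h; subst h; apply Fin.ext; exact (name_pi hK a).symm)) ⟨?_, ?_⟩
    · intro q q' h
      induction q using Quot.ind with
      | mk l =>
      induction q' using Quot.ind with
      | mk l' =>
      have h' : name K M l = name K M l' := congrArg Fin.val h
      change cl (ppi hK M) l = cl (ppi hK M) l'
      rw [c_rep hK l, c_rep hK l', h']
    · intro j
      exact ⟨Quot.mk _ (rep K M j.val), Fin.ext (name_rep j.isLt hK)⟩
  rw [h]; simp

end Run7.h243
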