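import Pool.Agent.Run7.h243.Cores

set_option linter.unusedSectionVars false
set_option linter.unusedSimpArgs false
set_option maxRecDepth 100000

/-! The current graphs over the integers. -/

namespace Run7.h243

open Equiv Run7.B243

/-- an integral current graph on the differences `2, 5, 6, ..., 3 * s + 3` with `c` circuits -/
structure CayZ (s c : ℕ) where
  Lab : Type
  fin : Fintype Lab
  dec : DecidableEq Lab
  τ : Perm Lab
  ν : Perm Lab
  val : Lab → ℤ
  tri : Tri val τ
  nu2 : ∀ x, ν (ν x) = x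
  nune : ∀ x, ν x ≠ x
  nuval : ∀ x, val (ν x) = - val x
  cov : ∀ u : ℕ, (u = 2 ∨ (5 ≤ u ∧ u ≤ 3 * s + 3)) → ∃ x, val x = u
  card : Fintype.card Lab = 6 * s
  ncyc : cyc (τ * ν) = c
  conn : ∀ p q : ℤ × Lab, Relation.EqvGen (RZ (τ * ν) ν val) p q
  t1 : Lab
  v1 : val t1 = 2
  v2 : val (τ t1) = if s % 2 = 1 then 3 * (s : ℤ) + 1 else - (3 * s + 3)

variable {K : Core} {V : CoreV} {l M : ℕ}

theorem hs0 : Hs (ppi core0_ok M) (pnu core0_ok M) (vl corev0 l M) (Sum.inl core0.aT) 1 := by
  have h := Hs.shift (π := ppi core0_ok M) (ν := pnu core0_ok M) (val := vl corev0 l M)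
    (b := Sum.inl core0.aT) (c1 := Sum.inl 3) (c2 := Sum.inl 30)
    (cl_of_name core0_ok (by show core0.nm 3 = core0.nm core0.aT; decide))
    (cl_of_name core0_ok (by
      show name core0 M (lnu core0 M (Sum.inl 3)) = _
      rw [lnu_in (by decide)]
      show core0.nm (core0.nu 3) = core0.nm 30; decide))
    (cl_of_name core0_ok (by
      show name core0 M (lnu core0 M (Sum.inl 30)) = _
      rw [lnu_in (by decide)]
      show core0.nm (core0.nu 30) = core0.nm core0.aT; decide))
  have e : vl corev0 l M (Sum.inl 3) + vl corev0 l M (Sum.inl 30) = -1 := by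
    have a3 : corev0.A 3 = 6 ∧ corev0.B 3 = 2 ∧ corev0.A 30 = -7 ∧ corev0.B 30 = -2 := by decide
    simp only [vl, a3.1, a3.2.1, a3.2.2.1, a3.2.2.2]; ring
  rw [e] at h
  simpa using h.neg

theorem hs1 (hM : M = 2 * l + 1) :
    Hs (ppi core1_ok M) (pnu core1_ok M) (vl corev1 l M) (Sum.inl core1.aT) 1 := by
  have h1 := Hs.shift (π := ppi core1_ok M) (ν := pnu core1_ok M) (val := vl corev1 l M)
    (b := Sum.inl core1.aT) (c1 := Sum.inl 22) (c2 := Sum.inl core1.bT)
    (cl_of_name core1_ok (by show core1.nm 22 = core1.nm core1.aT; decide))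
    (cl_of_name core1_ok (by
      show name core1 M (lnu core1 M (Sum.inl 22)) = _
      rw [lnu_in (by decide)]
      show core1.nm (core1.nu 22) = core1.nm core1.bT; decide))
    (cl_of_name core1_ok (by
      show name core1 M (lnu core1 M (Sum.inl core1.bT)) = _
      rw [lnu_bT core1_ok]
      rfl))
  have h2 := Hs.shift (π := ppi core1_ok M) (ν := pnu core1_ok M) (val := vl corev1 l M)
    (b := Sum.inl core1.aT) (c1 := Sum.inl 43) (c2 := Sum.inr (0, K6.tp))
    (cl_of_name core1_ok (by show core1.nm 43 = core1.nm core1.aT; decide))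
    (cl_of_name core1_ok (by
      show name core1 M (lnu core1 M (Sum.inl 43)) = _
      rw [lnu_in (by decide)]
      show core1.nm (core1.nu 43) = if (0 : Fin (M + 1)).val = 0 then core1.nm core1.aU else
        8 + (0 : Fin (M + 1)).val
      rw [if_pos (by simp)]
      decide))
    (cl_of_name core1_ok (by
      show name core1 M (lnu core1 M (Sum.inr (0, K6.tp))) = _
      rw [lnu_tp0 (by simp)]))
  have e1 : vl corev1 l M (Sum.inl 22) + vl corev1 l M (Sum.inl core1.bT) = -11 - 2 * l := by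
    have a3 : corev1.A 22 = 18 ∧ corev1.B 22 = 3 ∧ corev1.A core1.bT = -29 ∧
      corev1.B core1.bT = -5 := by decide
    simp only [vl, a3.1, a3.2.1, a3.2.2.1, a3.2.2.2]; ring
  have e2 : vl corev1 l M (Sum.inl 43) + vl corev1 l M (Sum.inr (0, K6.tp)) = -9 - 2 * l := by
    have a3 : corev1.A 43 = 21 ∧ corev1.B 43 = 4 := by decide
    simp only [vl, a3.1, a3.2, tt, Fin.val_zero]
    subst hM; push_cast; norm_num; ring
  rw [e1] at h1
  rw [e2] at h2
  have := ((h2.add h1.neg).mul (l + 5)).add h2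
  have e : ((l : ℤ) + 5) * (-9 - 2 * l + -(-11 - 2 * l)) + (-9 - 2 * l) = 1 := by ring
  rwa [e] at this

theorem cayZ_aux (hK : K.Ok) (hV : Okv K V) (hM : M = 2 * l + V.e)
    (h1 : Hs (ppi hK M) (pnu hK M) (vl V l M) (Sum.inl K.aT) 1) (r : List (Fin 48))
    (hr : okm K {0} [0] r) (k : ℕ) (hk : k ≤ M / 2 + r.length) (hk2 : 2 * k ≤ 9 + M)
    (v2 : V.A (K.tau 0) + V.B (K.tau 0) * l =
      if (M + 9) % 2 = 1 then 3 * ((M + 9 : ℕ) : ℤ) + 1 else - (3 * ((M + 9 : ℕ) : ℤ) + 3)) :
    Nonempty (CayZ (M + 9) (M + 9 - 2 * k)) := by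
  obtain ⟨t, t1, t2, t3, t4⟩ := chain hK (vl_tri hK hV) r hr k hk
  refine ⟨{
    Lab := LL M, fin := inferInstance, dec := inferInstance, τ := t, ν := pnu hK M, val := vl V l M
    tri := t1, nu2 := fun x => lnu_lnu hK x, nune := fun x => lnu_ne hK x
    nuval := fun x => vl_nu hK hV hM x
    cov := ?_, card := ?_, ncyc := by omega, conn := ?_, t1 := Sum.inl 0, v1 := ?_, v2 := ?_ }⟩
  · intro u hu
    obtain ⟨x, hx | hx⟩ := vl_cov hV hM u (by omega)
    · exact ⟨x, hx⟩
    · refine ⟨lnu K M x, ?_⟩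
      rw [vl_nu hK hV hM, hx]; ring
  · rw [Fintype.card_sum, Fintype.card_prod, Fintype.card_fin, Fintype.card_fin]
    have : Fintype.card K6 = 6 := rfl
    rw [this]; ring
  · intro p q
    have h := conn_of h1 (to_base hK) p q
    have lift : ∀ p q, Relation.EqvGen (RZ (ppi hK M) (pnu hK M) (vl V l M)) p q →
        Relation.EqvGen (RZ (t * pnu hK M) (pnu hK M) (vl V l M)) p q := by
      intro p q h
      induction h with
      | rel a b hr =>
        rcases hr with hr | hr
        · subst hr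
          exact rz_cl (t3 _ _ (cl_apply (ppi hK M) a.2).symm) a.1
        · subst hr; exact Relation.EqvGen.rel _ _ (Or.inr rfl)
      | refl a => exact Relation.EqvGen.refl _
      | symm a b _ ih => exact ih.symm
      | trans a b c _ _ ih1 ih2 => exact ih1.trans _ _ _ ih2
    exact lift p q h
  · simp [vl, hV.two.1, hV.two.2]
  · rw [t4 0 (by simp)]
    exact v2

theorem cayZ (s c : ℕ) (hs : 9 ≤ s) (hc : 1 ≤ c) (hcs : c ≤ s) (hp : (s + c) % 2 = 0) :
    Nonempty (CayZ s c) := by
  obtain ⟨M, rfl⟩ : ∃ M, s = M + 9 := ⟨s - 9, by omega⟩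
  obtain ⟨k, hk⟩ : ∃ k, c = M + 9 - 2 * k := ⟨(M + 9 - c) / 2, by omega⟩
  rcases Nat.even_or_odd' M with ⟨l, hl | hl⟩
  · have a0 : corev0.A (core0.tau 0) = 28 ∧ corev0.B (core0.tau 0) = 6 := by decide
    have := cayZ_aux (M := M) (l := l) core0_ok corev0_ok (by rw [hl]; rfl) hs0 _ okm0 k (by
      simp only [List.length_cons, List.length_nil]; omega) (by omega) (by
      rw [a0.1, a0.2, if_pos (by omega)]
      subst hl; push_cast; ring)
    rwa [← hk] at this
  · have a0 : corev1.A (core1.tau 0) = -33 ∧ corev1.B (core1.tau 0) = -6 := by decide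
    have := cayZ_aux (M := M) (l := l) core1_ok corev1_ok (by rw [hl]; rfl) (hs1 hl) _ okm1 k (by
      simp only [List.length_cons, List.length_nil]; omega) (by omega) (by
      rw [a0.1, a0.2, if_neg (by omega)]
      subst hl; push_cast; ring)
    rwa [← hk] at this

end Run7.h243
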