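import Pool.Agent.Run7.h243.Glue4

set_option linter.unusedSectionVars false
set_option linter.unusedSimpArgs false

/-! Local rotation systems given by tables. -/

namespace Run7.h243

open Equiv Run7.B243

/-- bounded conjunction -/
noncomputable def allb (n : ℕ) (f : ℕ → Bool) : Bool := Nat.rec true (fun i b => f i && b) n

theorem allb_spec {n : ℕ} {f : ℕ → Bool} (h : allb n f = true) : ∀ i < n, f i = true := by
  induction n with
  | zero => intro i hi; omega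
  | succ n ih =>
    have h' : (f n && allb n f) = true := h
    rw [Bool.and_eq_true] at h'
    intro i hi
    by_cases e : i = n
    · rw [e]; exact h'.1
    · exact ih h'.2 i (by omega)

/-- digit -/
def dg (b T i : ℕ) : ℕ := T / b ^ i % b

structure Dat where
  w : ℕ
  W : ℕ
  P : ℕ
  d : ℕ
  B : ℕ
  h0 : ℕ
  c0 : ℕ
  T : ℕ
  TI : ℕ
  CY : ℕ
  IX : ℕ
  RP : ℕ
  PA : ℕ
  RS : ℕ
  A : ℕ
  F : ℕ
  NG : ℕ
  hc : Fin 3 → ℕ × ℕ
  ta : Fin 3 → ℕ × ℕ × ℕ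
  tb : Fin 3 → ℕ × ℕ × ℕ
  big : List (ℕ × ℕ × ℕ)

namespace Dat

variable (D : Dat)

def tn (c p : ℕ) : ℕ := dg 32 D.T (c * D.d + p)
def ti (c p : ℕ) : ℕ := dg 32 D.TI (c * D.d + p)
def cy (c p : ℕ) : ℕ := dg 4 D.CY (c * D.d + p)
def ix (c p : ℕ) : ℕ := dg 32 D.IX (c * D.d + p)
def rp (c i : ℕ) : ℕ := dg 32 D.RP (c * 4 + i)
def pa (c i : ℕ) : ℕ := dg 32 D.PA (c * 4 + i)
def rs (c i : ℕ) : ℕ := dg 1024 D.RS (c * 4 + i)
def A' (p : ℕ) : ℕ := dg 64 D.A p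
def f (p : ℕ) : ℕ := dg 2 D.F p
def ng (p : ℕ) : ℕ := dg 32 D.NG p
/-- class of a position -/
def pc (v : ℕ) : ℕ := if v < D.W then v else D.W + (v - D.W) % D.P
def cln (v e : ℕ) : ℕ := D.pc v * D.w + e % D.w
def hcl (i : Fin 3) : ℕ := (D.hc i).1 * D.w + (D.hc i).2
def isH (c : ℕ) : Bool := c == D.hcl 0 || c == D.hcl 1 || c == D.hcl 2
def nc (c : ℕ) : ℕ := if D.isH c = true then D.c0 + 1 else D.c0
def cl0 (x : ℕ) : ℕ := D.cln (x % D.h0) (x / D.h0)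
def mv (x p : ℕ) : ℕ := (x + (D.w * D.h0 + D.A' p - 32) + D.f p * D.h0) % (D.w * D.h0)

def tri2 (x p p1 p2 : ℕ) : Bool :=
  (D.A' p + D.A' p1 + D.A' p2 == 96) && ((D.f p + D.f p1 + D.f p2) % D.w == 0) &&
    (D.tn (D.cl0 x) (D.ng p2) == p)
def tri1 (x p x1 p1 : ℕ) : Bool :=
  D.tri2 x p p1 (D.tn (D.cl0 (D.mv x1 p1)) (D.ng p1))
def tri (x p : ℕ) : Bool := D.tri1 x p (D.mv x p) (D.tn (D.cl0 (D.mv x p)) (D.ng p))

def dsc2 (v p r1 r0 : ℕ) : Bool :=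
  ((decide (D.W ≤ v) || decide (32 ≤ v + D.A' p)) && (r1 / 512 == r0 / 512) &&
    decide (D.A' p + r1 % 512 < 32 + r0 % 512)) ||
  (decide (r1 / 512 < r0 / 512) && decide (D.A' p + r1 % 512 < 32 + r0 % 512))
def dsc1 (x i c p c1 : ℕ) : Bool :=
  decide (p < D.d) && (D.cy c p == i) &&
    D.dsc2 (x % D.h0) p (D.rs c1 (D.cy c1 (D.ng p))) (D.rs c i)
def dsc (x i : ℕ) : Bool :=
  D.dsc1 x i (D.cl0 x) (D.pa (D.cl0 x) i) (D.cl0 (D.mv x (D.pa (D.cl0 x) i)))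

/-- rank -/
def rnk (h : ℕ) (v c i : ℕ) : ℕ := v + D.rs c i % 512 + h * (D.rs c i / 512)

def cod (q : ℕ × ℕ × ℕ) : ℕ := (q.1 * D.w + q.2.1) * 32 + q.2.2
def val (q : ℕ × ℕ × ℕ) : Bool :=
  decide (q.1 < D.W) && decide (q.2.1 < D.w) && decide (q.2.2 < D.d) &&
    decide (32 ≤ q.1 + D.A' q.2.2) && decide (q.1 + D.A' q.2.2 - 32 < D.W)
def nx (q : ℕ × ℕ × ℕ) : ℕ × ℕ × ℕ :=
  (q.1 + D.A' q.2.2 - 32, (q.2.1 + D.f q.2.2) % D.w,
    D.tn ((q.1 + D.A' q.2.2 - 32) * D.w + (q.2.1 + D.f q.2.2) % D.w) (D.ng q.2.2))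
def exL : List ℕ := [D.cod (D.ta 0), D.cod (D.ta 1), D.cod (D.ta 2), D.cod (D.tb 0),
  D.cod (D.tb 1), D.cod (D.tb 2)] ++ D.big.map D.cod

def okp (p : ℕ) : Bool :=
  decide (D.ng p < D.d) && (D.ng (D.ng p) == p) && (D.A' p + D.A' (D.ng p) == 64) &&
  ((D.f p + D.f (D.ng p)) % D.w == 0) && decide (D.A' p ≤ 32 + D.B) && decide (32 ≤ D.A' p + D.B) &&
  (!(D.A' p == 32) || !(D.f p % D.w == 0))

def okc (c p : ℕ) : Bool :=
  decide (D.tn c p < D.d) && decide (D.ti c p < D.d) && (D.ti c (D.tn c p) == p) &&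
  (D.tn c (D.ti c p) == p) && (D.cy c (D.tn c p) == D.cy c p) && decide (D.cy c p < D.nc c) &&
  ((p == D.rp c (D.cy c p)) || (D.ix c p == D.ix c (D.ti c p) + 1))

def okr (c i : ℕ) : Bool := decide (D.rp c i < D.d) && (D.cy c (D.rp c i) == i)

noncomputable def chk1 : Bool := allb D.d D.okp
noncomputable def chk2 : Bool := allb ((D.W + D.P) * D.w) (fun c => allb D.d (D.okc c) && allb (D.nc c) (D.okr c))
noncomputable def chk3 : Bool := allb (D.w * D.h0) (fun x => allb D.d (fun p =>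
  D.exL.elem (D.cl0 x * 32 + p) || D.tri x p))
noncomputable def chk4 : Bool := allb (D.w * D.h0) (fun x => allb (D.nc (D.cl0 x)) (fun i =>
  (D.isH (D.cl0 x) && (i == D.c0)) || D.dsc x i))

structure Ok : Prop where
  hP : 0 < D.P
  hw : 0 < D.w
  hd : 0 < D.d
  hd2 : D.d ≤ 32
  hB : D.B ≤ 31
  hBW : D.B ≤ D.W
  hh0 : D.W + 2 * D.B + D.P ≤ D.h0
  h32 : 32 ≤ D.h0
  k1 : D.chk1 = true
  k2 : D.chk2 = true
  k3 : D.chk3 = true
  k4 : D.chk4 = true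
  hv : ∀ i, (D.hc i).1 < D.W ∧ (D.hc i).2 < D.w
  hdist : ∀ i j, D.hcl i = D.hcl j → i = j
  va : ∀ i, D.val (D.ta i) = true
  vb : ∀ i, D.val (D.tb i) = true
  na : ∀ i, D.nx (D.ta i) = D.tb i
  nb : ∀ i, D.nx (D.tb i) = D.ta (i + 2)
  lb : ∀ i, (D.nx (D.tb i)).1 = (D.hc i).1 ∧ (D.nx (D.tb i)).2.1 = (D.hc i).2
  pth : ∀ i, D.cy (D.hcl i) (D.ng (D.tb i).2.2) = D.c0
  ab : ∀ i j, D.cod (D.ta i) ≠ D.cod (D.tb j)
  vbig : ∀ q ∈ D.big, D.val q = true ∧ D.nx q ∈ D.big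
  abig : ∀ i, ∀ q ∈ D.big, D.cod (D.ta i) ≠ D.cod q ∧ D.cod (D.tb i) ≠ D.cod q

variable {D} (ok : D.Ok)

theorem dg_lt {b T i : ℕ} (h : 0 < b) : dg b T i < b := Nat.mod_lt _ h

include ok

theorem Ok.p (p : ℕ) (hp : p < D.d) : D.ng p < D.d ∧ D.ng (D.ng p) = p ∧
    D.A' p + D.A' (D.ng p) = 64 ∧ (D.f p + D.f (D.ng p)) % D.w = 0 ∧ D.A' p ≤ 32 + D.B ∧
    32 ≤ D.A' p + D.B ∧ (D.A' p ≠ 32 ∨ D.f p % D.w ≠ 0) := by
  have h := allb_spec ok.k1 p hp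
  simp only [okp, Bool.and_eq_true, Bool.or_eq_true, decide_eq_true_eq, beq_iff_eq,
    Bool.not_eq_true', beq_eq_false_iff_ne] at h
  tauto

theorem Ok.c (c p : ℕ) (hc : c < (D.W + D.P) * D.w) (hp : p < D.d) : D.tn c p < D.d ∧
    D.ti c p < D.d ∧ D.ti c (D.tn c p) = p ∧ D.tn c (D.ti c p) = p ∧
    D.cy c (D.tn c p) = D.cy c p ∧ D.cy c p < D.nc c ∧
    (p = D.rp c (D.cy c p) ∨ D.ix c p = D.ix c (D.ti c p) + 1) := by
  have h := allb_spec ok.k2 c hc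
  rw [Bool.and_eq_true] at h
  have h := allb_spec h.1 p hp
  simp only [okc, Bool.and_eq_true, Bool.or_eq_true, decide_eq_true_eq, beq_iff_eq] at h
  tauto

theorem Ok.r (c i : ℕ) (hc : c < (D.W + D.P) * D.w) (hi : i < D.nc c) : D.rp c i < D.d ∧
    D.cy c (D.rp c i) = i := by
  have h := allb_spec ok.k2 c hc
  rw [Bool.and_eq_true] at h
  have h := allb_spec h.2 i hi
  simpa only [okr, Bool.and_eq_true, decide_eq_true_eq, beq_iff_eq] using h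

omit ok in
theorem pc_lt (hP : 0 < D.P) (v : ℕ) : D.pc v < D.W + D.P := by
  unfold pc
  split_ifs
  · omega
  · have := Nat.mod_lt (v - D.W) hP; omega

omit ok in
theorem pc_small {v : ℕ} (h : v < D.W) : D.pc v = v := if_pos h

omit ok in
theorem pc_big {v : ℕ} (h : D.W ≤ v) : D.W ≤ D.pc v := by
  unfold pc; rw [if_neg (by omega)]; omega

omit ok in
theorem pc_eq {u u' : ℕ} (h : D.W ≤ u) (h' : D.W ≤ u') (i i' : ℕ) (e : u + D.P * i = u' + D.P * i') :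
    D.pc u = D.pc u' := by
  unfold pc
  rw [if_neg (by omega), if_neg (by omega)]
  congr 1
  have h1 : (u - D.W + D.P * i) % D.P = (u - D.W) % D.P := Nat.add_mul_mod_self_left _ _ _
  have h2 : (u' - D.W + D.P * i') % D.P = (u' - D.W) % D.P := Nat.add_mul_mod_self_left _ _ _
  rw [← h1, ← h2]
  congr 1; omega

theorem cln_lt (v e : ℕ) : D.cln v e < (D.W + D.P) * D.w := by
  have h1 := pc_lt ok.hP v
  have h2 := Nat.mod_lt e ok.hw
  unfold cln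
  calc D.pc v * D.w + e % D.w < D.pc v * D.w + D.w := by omega
    _ = (D.pc v + 1) * D.w := by ring
    _ ≤ (D.W + D.P) * D.w := Nat.mul_le_mul_right _ h1

theorem pos_transfer {h : ℕ} (j : ℕ) (hj : h = D.h0 + D.P * j) (v : ℕ) (hv : v < h) :
    ∃ v0 < D.h0, ∀ a : ℤ, -(D.B : ℤ) ≤ a → a ≤ D.B →
      ((v + a < 0 ∧ v0 + a < 0 ∧ D.pc (h + v + a).toNat = D.pc (D.h0 + v0 + a).toNat) ∨
      (0 ≤ v + a ∧ v + a < h ∧ 0 ≤ v0 + a ∧ v0 + a < D.h0 ∧
        D.pc (v + a).toNat = D.pc (v0 + a).toNat) ∨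
      ((h : ℤ) ≤ v + a ∧ (D.h0 : ℤ) ≤ v0 + a ∧
        D.pc (v + a - h).toNat = D.pc (v0 + a - D.h0).toNat)) := by
  have hh := ok.hh0
  have hP := ok.hP
  have hBW := ok.hBW
  obtain ⟨PJ, hPJ⟩ : ∃ PJ, PJ = D.P * j := ⟨_, rfl⟩
  rw [← hPJ] at hj
  by_cases c1 : v < D.W + D.B + D.P
  · refine ⟨v, by omega, ?_⟩
    intro a ha1 ha2
    by_cases s : v + a < 0
    · left
      refine ⟨s, s, ?_⟩
      refine pc_eq (by omega) (by omega) 0 j ?_
      rw [← hPJ]; omega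
    · right; left
      exact ⟨by omega, by omega, by omega, by omega, rfl⟩
  · by_cases c2 : D.W + D.B + D.P + PJ ≤ v
    · refine ⟨v - PJ, by omega, ?_⟩
      intro a ha1 ha2
      by_cases s : v + a < h
      · right; left
        refine ⟨by omega, s, by omega, by omega, ?_⟩
        refine pc_eq (by omega) (by omega) 0 j ?_
        rw [← hPJ]; omega
      · right; right
        refine ⟨by omega, by omega, ?_⟩
        congr 1; omega
    · obtain ⟨Q, hQ⟩ : ∃ Q, Q = D.P * ((v - (D.W + D.B + D.P)) / D.P) := ⟨_, rfl⟩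
      have hdm := Nat.div_add_mod (v - (D.W + D.B + D.P)) D.P
      have hm := Nat.mod_lt (v - (D.W + D.B + D.P)) hP
      rw [← hQ] at hdm
      refine ⟨D.W + D.B + (v - (D.W + D.B + D.P)) % D.P, by omega, ?_⟩
      intro a ha1 ha2
      right; left
      refine ⟨by omega, by omega, by omega, by omega, ?_⟩
      refine pc_eq (by omega) (by omega) 0 ((v - (D.W + D.B + D.P)) / D.P + 1) ?_
      rw [Nat.mul_add, ← hQ]; omega

omit ok in
/-- class of an integer -/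
def cls (D : Dat) (h : ℕ) (x : ℤ) : ℕ := D.cln (x % h).toNat ((x / h) % D.w).toNat

omit ok in
theorem cls_eq {h : ℕ} (q u : ℤ) (h1 : 0 ≤ u) (h2 : u < h) :
    cls D h (q * h + u) = D.cln u.toNat (q % D.w).toNat := by
  unfold cls
  have hh : (h : ℤ) ≠ 0 := by omega
  rw [show q * (h : ℤ) + u = u + h * q by ring, Int.add_mul_emod_self_left,
    Int.emod_eq_of_lt h1 h2, Int.add_mul_ediv_left _ _ hh, Int.ediv_eq_zero_of_lt h1 h2, zero_add]

omit ok in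
theorem cls_per {h : ℕ} (hh : 0 < h) (x t : ℤ) : cls D h (x + (D.w * h : ℕ) * t) = cls D h x := by
  unfold cls
  have hh' : (h : ℤ) ≠ 0 := by omega
  have e : x + ((D.w * h : ℕ) : ℤ) * t = x + h * (D.w * t) := by push_cast; ring
  rw [e, Int.add_mul_emod_self_left, Int.add_mul_ediv_left _ _ hh', Int.add_mul_emod_self_left]

omit ok in
theorem cls_mod {h : ℕ} (hh : 0 < h) (x : ℤ) : cls D h (x % (D.w * h : ℕ)) = cls D h x := by
  have := cls_per (D := D) hh (x % (D.w * h : ℕ)) (x / (D.w * h : ℕ))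
  rw [Int.emod_add_mul_ediv] at this
  exact this.symm

theorem cln_mod (v : ℕ) (q : ℤ) : D.cln v (q % D.w).toNat = D.pc v * D.w + (q % D.w).toNat := by
  unfold cln
  have hw : (0 : ℤ) < D.w := by exact_mod_cast ok.hw
  have h1 := Int.emod_nonneg q hw.ne'
  have h2 := Int.emod_lt_of_pos q hw
  rw [Nat.mod_eq_of_lt (by omega)]

theorem transfer {h : ℕ} (j : ℕ) (hj : h = D.h0 + D.P * j) (x : ℤ) :
    ∃ y < D.w * D.h0, ∀ a f : ℤ, -(D.B : ℤ) ≤ a → a ≤ D.B →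
      cls D h (x + a + f * h) = cls D D.h0 (y + a + f * D.h0) := by
  have hh := ok.hh0
  have hP := ok.hP
  have hw : (0 : ℤ) < D.w := by exact_mod_cast ok.hw
  have hh' : (0 : ℤ) < h := by omega
  have q1 := Int.emod_nonneg x hh'.ne'
  have q2 := Int.emod_lt_of_pos x hh'
  obtain ⟨v0, hv0, key⟩ := pos_transfer ok j hj (x % h).toNat (by omega)
  have w1 := Int.emod_nonneg (x / h) hw.ne'
  have w2 := Int.emod_lt_of_pos (x / h) hw
  refine ⟨((x / h) % D.w).toNat * D.h0 + v0, ?_, ?_⟩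
  · calc ((x / h) % D.w).toNat * D.h0 + v0 < ((x / h) % D.w).toNat * D.h0 + D.h0 := by omega
      _ = (((x / h) % D.w).toNat + 1) * D.h0 := by ring
      _ ≤ D.w * D.h0 := Nat.mul_le_mul_right _ (by omega)
  intro a f ha1 ha2
  have e1 : x + a + f * h = (x / h + f) * h + ((x % h).toNat + a) := by
    have := Int.mul_ediv_add_emod x h
    rw [Int.toNat_of_nonneg q1]
    linear_combination -this
  have e2 : ((((x / h) % D.w).toNat * D.h0 + v0 : ℕ) : ℤ) + a + f * D.h0 =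
      ((x / h) % D.w + f) * D.h0 + (v0 + a) := by
    push_cast
    rw [Int.toNat_of_nonneg w1]; ring
  rw [e1, e2]
  set v := (x % h).toNat with hv
  have str : ∀ g : ℤ, ((x / h + g) % (D.w : ℤ)) = (((x / h) % D.w + g) % (D.w : ℤ)) := by
    intro g; rw [Int.emod_add_emod]
  rcases key a ha1 ha2 with ⟨k1, k2, k3⟩ | ⟨k1, k2, k3, k4, k5⟩ | ⟨k1, k2, k3⟩
  · rw [show (x / h + f) * (h : ℤ) + (v + a) = (x / h + (f - 1)) * h + (h + v + a) by ring,
      show ((x / h) % D.w + f) * (D.h0 : ℤ) + (v0 + a) =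
        ((x / h) % D.w + (f - 1)) * D.h0 + (D.h0 + v0 + a) by ring,
      cls_eq _ _ (by omega) (by omega), cls_eq _ _ (by omega) (by omega), cln_mod ok, cln_mod ok,
      k3, str]
  · rw [cls_eq _ _ (by omega) (by omega), cls_eq _ _ (by omega) (by omega), cln_mod ok, cln_mod ok,
      k5, str]
  · rw [show (x / h + f) * (h : ℤ) + (v + a) = (x / h + (f + 1)) * h + (v + a - h) by ring,
      show ((x / h) % D.w + f) * (D.h0 : ℤ) + (v0 + a) =
        ((x / h) % D.w + (f + 1)) * D.h0 + (v0 + a - D.h0) by ring,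
      cls_eq _ _ (by omega) (by omega), cls_eq _ _ (by omega) (by omega), cln_mod ok, cln_mod ok,
      k3, str]

/-- class at the base -/
theorem cl0_eq (x : ℕ) : D.cl0 x = cls D D.h0 x := by
  unfold cl0 cls cln
  have h1 : (((x : ℤ) % (D.h0 : ℕ)).toNat) = x % D.h0 := by
    rw [← Int.natCast_mod, Int.toNat_natCast]
  have h2 : (((x : ℤ) / (D.h0 : ℕ) % (D.w : ℕ)).toNat) = x / D.h0 % D.w := by
    rw [← Int.natCast_div, ← Int.natCast_mod, Int.toNat_natCast]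
  rw [h1, h2, Nat.mod_mod]

theorem mv_eq (x p : ℕ) : ∃ t : ℤ, (D.mv x p : ℤ) =
    (x + ((D.A' p : ℤ) - 32) + D.f p * D.h0) + (D.w * D.h0 : ℕ) * t := by
  have h32 := ok.h32
  have hw := ok.hw
  have hle : 32 ≤ D.w * D.h0 := le_trans h32 (Nat.le_mul_of_pos_left _ hw)
  unfold mv
  obtain ⟨N, hN⟩ : ∃ N, N = D.w * D.h0 := ⟨_, rfl⟩
  rw [← hN] at hle ⊢
  obtain ⟨y, hy⟩ : ∃ y, y = x + (N + D.A' p - 32) + D.f p * D.h0 := ⟨_, rfl⟩
  rw [← hy]
  have := Nat.div_add_mod y N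
  have hy' : (y : ℤ) = x + (N + D.A' p - 32) + D.f p * D.h0 := by
    rw [hy]; push_cast [show 32 ≤ N + D.A' p by omega]; ring
  refine ⟨1 - (y / N : ℕ), ?_⟩
  have h2 : (N : ℤ) * (y / N : ℕ) + (y % N : ℕ) = y := by exact_mod_cast this
  linear_combination h2 + hy'

theorem cl0_mv (x p : ℕ) : D.cl0 (D.mv x p) =
    cls D D.h0 (x + ((D.A' p : ℤ) - 32) + D.f p * D.h0) := by
  obtain ⟨t, ht⟩ := mv_eq ok x p
  rw [cl0_eq ok, ht, cls_per (by have := ok.h32; omega)]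

theorem cl0_mv2 (x p p1 : ℕ) : D.cl0 (D.mv (D.mv x p) p1) =
    cls D D.h0 (x + (((D.A' p : ℤ) - 32) + ((D.A' p1 : ℤ) - 32)) + (D.f p + D.f p1 : ℤ) * D.h0) := by
  obtain ⟨t, ht⟩ := mv_eq ok x p
  rw [cl0_mv ok, ht]
  rw [← cls_per (D := D) (h := D.h0) (by have := ok.h32; omega) (x + (((D.A' p : ℤ) - 32) +
    ((D.A' p1 : ℤ) - 32)) + (D.f p + D.f p1 : ℤ) * D.h0) t]
  congr 1
  ring

end Dat

end Run7.h243
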