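import Pool.Agent.Run7.h243.Loc1

set_option linter.unusedSectionVars false
set_option linter.unusedSimpArgs false

/-! From tables to local rotation systems. -/

namespace Run7.h243

open Equiv Run7.B243

namespace Dat

variable {D : Dat} (ok : D.Ok) {h : ℕ} (j : ℕ) (hj : h = D.h0 + D.P * j)

/-- number of labels -/
abbrev nn (D : Dat) (h : ℕ) : ℕ := D.w * h

/-- arcs -/
def fz (ok : D.Ok) (k : ℕ) : Fin D.d := ⟨k % D.d, Nat.mod_lt _ ok.hd⟩

theorem fz_val {k : ℕ} (hk : k < D.d) : (fz ok k).val = k := Nat.mod_eq_of_lt hk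
theorem fz_self (p : Fin D.d) : fz ok p.val = p := Fin.ext (Nat.mod_eq_of_lt p.isLt)

def offz (D : Dat) (h : ℕ) (p : ℕ) : ZMod (nn D h) := ((((D.A' p : ℤ) - 32) + D.f p * h : ℤ) : ZMod (nn D h))

def clz (D : Dat) (h : ℕ) (x : ZMod (nn D h)) : ℕ := cls D h (x.val : ℤ)

include ok hj in
theorem hpos : 0 < h ∧ D.h0 ≤ h ∧ 32 ≤ h := by
  have := ok.h32
  have h2 : D.h0 ≤ h := by rw [hj]; exact Nat.le_add_right _ _
  omega

include ok hj in
theorem nn_ne : NeZero (nn D h) := ⟨by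
  have h1 := hpos ok j hj
  have h2 := ok.hw
  exact (Nat.mul_pos h2 h1.1).ne'⟩

include ok hj in
theorem clz_add (x : ZMod (nn D h)) (z : ℤ) : clz D h (x + (z : ZMod (nn D h))) =
    cls D h (x.val + z) := by
  have := nn_ne ok j hj
  have h1 := hpos ok j hj
  have e : x + (z : ZMod (nn D h)) = (((x.val : ℤ) + z : ℤ) : ZMod (nn D h)) := by
    push_cast; rw [ZMod.natCast_zmod_val]
  rw [e]
  unfold clz
  rw [ZMod.val_intCast, cls_mod h1.1]

include ok hj in
theorem clz_lt (x : ZMod (nn D h)) : clz D h x < (D.W + D.P) * D.w := cln_lt ok _ _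

def al2' (ok : D.Ok) (h : ℕ) (q : ZMod (nn D h) × Fin D.d) : ZMod (nn D h) × Fin D.d :=
  (q.1 + offz D h q.2, fz ok (D.ng q.2))

include ok hj in
theorem off_ng (p : ℕ) (hp : p < D.d) : offz D h p + offz D h (D.ng p) = 0 := by
  obtain ⟨h1, h2, h3, h4, _⟩ := ok.p p hp
  unfold offz
  rw [← Int.cast_add]
  obtain ⟨t, ht⟩ := Nat.dvd_of_mod_eq_zero h4
  have e : ((D.A' p : ℤ) - 32) + D.f p * h + (((D.A' (D.ng p) : ℤ) - 32) + D.f (D.ng p) * h) =
      ((nn D h : ℕ) : ℤ) * t := by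
    have a1 : (D.A' p : ℤ) + D.A' (D.ng p) = 64 := by exact_mod_cast h3
    have a2 : (D.f p : ℤ) + D.f (D.ng p) = D.w * t := by exact_mod_cast ht
    push_cast
    linear_combination a1 + (h : ℤ) * a2
  rw [e, Int.cast_mul, Int.cast_natCast, ZMod.natCast_self, zero_mul]

include hj in
theorem al2_inv (q : ZMod (nn D h) × Fin D.d) : al2' ok h (al2' ok h q) = q := by
  obtain ⟨h1, h2, _⟩ := ok.p q.2 q.2.isLt
  unfold al2'
  refine Prod.ext ?_ ?_
  · show q.1 + offz D h q.2 + offz D h (fz ok (D.ng q.2)).val = q.1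
    rw [fz_val ok h1, add_assoc, off_ng ok j hj _ q.2.isLt, add_zero]
  · show fz ok (D.ng (fz ok (D.ng q.2)).val) = q.2
    rw [fz_val ok h1, h2, fz_self]

include ok hj in
theorem off_ne (p : ℕ) (hp : p < D.d) : offz D h p ≠ 0 := by
  obtain ⟨_, _, _, _, h5, h6, h7⟩ := ok.p p hp
  have h1 := hpos ok j hj
  have hB := ok.hB
  have hf : D.f p < 2 := dg_lt (by norm_num)
  intro h0
  unfold offz at h0
  rw [ZMod.intCast_zmod_eq_zero_iff_dvd] at h0
  obtain ⟨t, ht⟩ := h0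
  have e : ((D.A' p : ℤ) - 32) = h * (D.w * t - D.f p) := by
    push_cast at ht; linear_combination ht
  have hz : (D.w * t - D.f p : ℤ) = 0 := by
    by_contra hne
    have h2 : (1 : ℤ) ≤ |(D.w * t - D.f p : ℤ)| := Int.one_le_abs hne
    have h3 : |((D.A' p : ℤ) - 32)| = h * |(D.w * t - D.f p : ℤ)| := by
      rw [e, abs_mul, abs_of_nonneg (by omega : (0 : ℤ) ≤ h)]
    have h4 : |((D.A' p : ℤ) - 32)| ≤ 31 := by
      rw [abs_le]; constructor <;> omega
    nlinarith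
  rw [hz, mul_zero] at e
  rcases h7 with h7 | h7
  · omega
  · apply h7
    have : (D.f p : ℤ) = D.w * t := by linarith
    have h8 : ((D.f p % D.w : ℕ) : ℤ) = 0 := by
      rw [Int.natCast_mod, this, Int.mul_emod_right]
    exact_mod_cast h8

def alR (ok : D.Ok) (j : ℕ) (hj : h = D.h0 + D.P * j) : Perm (ZMod (nn D h) × Fin D.d) :=
  ⟨al2' ok h, al2' ok h, al2_inv ok j hj, al2_inv ok j hj⟩

def sgR (ok : D.Ok) (j : ℕ) (hj : h = D.h0 + D.P * j) : Perm (ZMod (nn D h) × Fin D.d) where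
  toFun q := (q.1, fz ok (D.tn (clz D h q.1) q.2))
  invFun q := (q.1, fz ok (D.ti (clz D h q.1) q.2))
  left_inv q := by
    obtain ⟨h1, h2, h3, h4, _⟩ := ok.c _ _ (clz_lt ok j hj q.1) q.2.isLt
    refine Prod.ext rfl ?_
    show fz ok (D.ti _ (fz ok _).val) = _
    rw [fz_val ok h1, h3, fz_self]
  right_inv q := by
    obtain ⟨h1, h2, h3, h4, _⟩ := ok.c _ _ (clz_lt ok j hj q.1) q.2.isLt
    refine Prod.ext rfl ?_
    show fz ok (D.tn _ (fz ok _).val) = _
    rw [fz_val ok h2, h4, fz_self]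

theorem alR_apply (q : ZMod (nn D h) × Fin D.d) :
    alR ok j hj q = (q.1 + offz D h q.2, fz ok (D.ng q.2)) := rfl
theorem sgR_apply (q : ZMod (nn D h) × Fin D.d) :
    sgR ok j hj q = (q.1, fz ok (D.tn (clz D h q.1) q.2)) := rfl

theorem ph_apply (x : ZMod (nn D h)) (p : Fin D.d) : sgR ok j hj (alR ok j hj (x, p)) =
    (x + offz D h p, fz ok (D.tn (clz D h (x + offz D h p)) (D.ng p))) := by
  rw [alR_apply, sgR_apply]
  show (x + offz D h p, fz ok (D.tn (clz D h (x + offz D h p)) (fz ok (D.ng p)).val)) = _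
  rw [fz_val ok (ok.p p p.isLt).1]

/-- explicit points -/
def pt (D : Dat) (h : ℕ) (v e : ℕ) : ZMod (nn D h) := ((v + e * h : ℕ) : ZMod (nn D h))

include ok hj in
theorem pt_val {v e : ℕ} (hv : v < D.W) (he : e < D.w) : (pt D h v e).val = v + e * h := by
  unfold pt
  rw [ZMod.val_natCast, Nat.mod_eq_of_lt]
  have h1 := hpos ok j hj
  have h2 := ok.hh0
  calc v + e * h < h + e * h := by omega
    _ = (e + 1) * h := by ring
    _ ≤ D.w * h := Nat.mul_le_mul_right _ he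

include ok hj in
theorem clz_pt {v e : ℕ} (hv : v < D.W) (he : e < D.w) : clz D h (pt D h v e) = v * D.w + e := by
  have h1 := hpos ok j hj
  have h2 := ok.hh0
  unfold clz
  rw [pt_val ok j hj hv he, show ((v + e * h : ℕ) : ℤ) = (e : ℤ) * h + v by push_cast; ring,
    cls_eq _ _ (by omega) (by omega), cln_mod ok, Int.toNat_natCast, pc_small hv]
  congr 1
  rw [← Int.natCast_mod, Int.toNat_natCast, Nat.mod_eq_of_lt he]

include ok hj in
theorem pt_inj {v e : ℕ} (hv : v < D.W) (he : e < D.w) (x : ZMod (nn D h))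
    (hx : clz D h x = v * D.w + e) : x = pt D h v e := by
  have := nn_ne ok j hj
  have h1 := hpos ok j hj
  have hw := ok.hw
  unfold clz cls cln at hx
  have hq : (((x.val : ℤ) / h) % D.w).toNat % D.w = ((x.val / h) % D.w) := by
    rw [← Int.natCast_div, ← Int.natCast_mod, Int.toNat_natCast, Nat.mod_mod]
  have hr : ((x.val : ℤ) % h).toNat = x.val % h := by
    rw [← Int.natCast_mod, Int.toNat_natCast]
  rw [hq, hr] at hx
  have hlt : x.val / h < D.w := by
    rw [Nat.div_lt_iff_lt_mul h1.1]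
    exact ZMod.val_lt x
  rw [Nat.mod_eq_of_lt hlt] at hx
  have e1 : x.val / h = e := by
    have := congrArg (· % D.w) hx
    rwa [Nat.mul_comm (D.pc _), Nat.mul_comm v, Nat.mul_add_mod, Nat.mul_add_mod,
      Nat.mod_eq_of_lt hlt, Nat.mod_eq_of_lt he] at this
  have e2 : D.pc (x.val % h) = v := by
    have h2 : D.pc (x.val % h) * D.w = v * D.w := by omega
    exact Nat.eq_of_mul_eq_mul_right hw h2
  have e3 : x.val % h = v := by
    by_cases hs : x.val % h < D.W
    · rw [pc_small hs] at e2; exact e2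
    · have := pc_big (D := D) (v := x.val % h) (by omega)
      omega
  have e4 := Nat.div_add_mod x.val h
  rw [e1, e3] at e4
  unfold pt
  rw [← ZMod.natCast_zmod_val x]
  congr 1
  rw [← e4]; ring

/-- explicit arcs -/
def q3 (ok : D.Ok) (h : ℕ) (q : ℕ × ℕ × ℕ) : ZMod (nn D h) × Fin D.d := (pt D h q.1 q.2.1, fz ok q.2.2)

omit ok in
theorem val_iff (q : ℕ × ℕ × ℕ) : D.val q = true ↔ (q.1 < D.W ∧ q.2.1 < D.w ∧ q.2.2 < D.d ∧
    32 ≤ q.1 + D.A' q.2.2 ∧ q.1 + D.A' q.2.2 - 32 < D.W) := by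
  simp only [val, Bool.and_eq_true, decide_eq_true_eq]; tauto

include ok hj in
theorem pt_off {q : ℕ × ℕ × ℕ} (hq : D.val q = true) : pt D h q.1 q.2.1 + offz D h q.2.2 =
    pt D h (D.nx q).1 (D.nx q).2.1 := by
  obtain ⟨h1, h2, h3, h4, h5⟩ := (val_iff q).mp hq
  unfold pt offz nx
  simp only
  have hdm := Nat.div_add_mod (q.2.1 + D.f q.2.2) D.w
  have e : ((q.1 + D.A' q.2.2 - 32 + (q.2.1 + D.f q.2.2) % D.w * h : ℕ) : ℤ) =
      ((q.1 + q.2.1 * h : ℕ) : ℤ) + (((D.A' q.2.2 : ℤ) - 32) + D.f q.2.2 * h) -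
      ((nn D h : ℕ) : ℤ) * ((q.2.1 + D.f q.2.2) / D.w : ℕ) := by
    have h6 : (D.w : ℤ) * ((q.2.1 + D.f q.2.2) / D.w : ℕ) + ((q.2.1 + D.f q.2.2) % D.w : ℕ) =
      q.2.1 + D.f q.2.2 := by exact_mod_cast hdm
    have h7 : ((q.1 + D.A' q.2.2 - 32 : ℕ) : ℤ) = q.1 + D.A' q.2.2 - 32 := by
      push_cast [h4]; ring
    rw [Nat.cast_add, Nat.cast_mul, h7]
    push_cast at h6 ⊢
    linear_combination (h : ℤ) * h6
  have e2 := congrArg (fun z : ℤ => (z : ZMod (nn D h))) e
  simp only [Int.cast_sub, Int.cast_mul, Int.cast_natCast, ZMod.natCast_self, zero_mul,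
    sub_zero, Int.cast_add] at e2
  rw [e2]
  push_cast
  ring

theorem ph_q3 {q : ℕ × ℕ × ℕ} (hq : D.val q = true) :
    sgR ok j hj (alR ok j hj (q3 ok h q)) = q3 ok h (D.nx q) := by
  obtain ⟨h1, h2, h3, h4, h5⟩ := (val_iff q).mp hq
  have hv : (fz ok q.2.2).val = q.2.2 := fz_val ok h3
  have hn : clz D h (pt D h (D.nx q).1 (D.nx q).2.1) = (D.nx q).1 * D.w + (D.nx q).2.1 :=
    clz_pt ok j hj h5 (Nat.mod_lt _ ok.hw)
  unfold q3
  rw [ph_apply, hv, pt_off ok j hj hq, hn]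
  rfl

def codz (D : Dat) (h : ℕ) (q : ZMod (nn D h) × Fin D.d) : ℕ := clz D h q.1 * 32 + q.2.val

include hj in
theorem codz_q3 {q : ℕ × ℕ × ℕ} (hq : D.val q = true) : codz D h (q3 ok h q) = D.cod q := by
  obtain ⟨h1, h2, h3, h4, h5⟩ := (val_iff q).mp hq
  unfold codz q3 cod
  simp only
  rw [clz_pt ok j hj h1 h2, fz_val ok h3]

include hj in
theorem q3_of_codz {q : ℕ × ℕ × ℕ} (hq : D.val q = true) (x : ZMod (nn D h) × Fin D.d)
    (hx : D.cod q = codz D h x) : x = q3 ok h q := by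
  obtain ⟨h1, h2, h3, h4, h5⟩ := (val_iff q).mp hq
  have hd := ok.hd2
  have hx2 := x.2.isLt
  unfold codz cod at hx
  have e1 : clz D h x.1 = q.1 * D.w + q.2.1 := by omega
  have e2 : x.2.val = q.2.2 := by omega
  refine Prod.ext (pt_inj ok j hj h1 h2 _ e1) (Fin.ext ?_)
  show x.2.val = (fz ok q.2.2).val
  rw [fz_val ok h3]; exact e2

include hj in
theorem tri_q (q : ZMod (nn D h) × Fin D.d) (ha : ∀ i, q ≠ q3 ok h (D.ta i))
    (hb : ∀ i, q ≠ q3 ok h (D.tb i)) (hg : ∀ t ∈ D.big, q ≠ q3 ok h t) :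
    sgR ok j hj (alR ok j hj (sgR ok j hj (alR ok j hj (sgR ok j hj (alR ok j hj q))))) = q := by
  obtain ⟨x, p⟩ := q
  obtain ⟨y, hy, key⟩ := transfer ok j hj (x.val : ℤ)
  have hB := ok.hB
  have c0 : D.cl0 y = clz D h x := by
    have := key 0 0 (by omega) (by omega)
    rw [cl0_eq ok]; simpa [clz] using this.symm
  have hp := ok.p p p.isLt
  have h3 := allb_spec (allb_spec ok.k3 y hy) p p.isLt
  rw [Bool.or_eq_true] at h3
  rcases h3 with h3 | h3
  · exfalso
    have hm : D.cl0 y * 32 + p.val ∈ D.exL := by simpa using h3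
    have hcz : D.cl0 y * 32 + p.val = codz D h (x, p) := by rw [c0]; rfl
    rw [hcz] at hm
    simp only [exL, List.mem_append, List.mem_cons, List.not_mem_nil, or_false, List.mem_map] at hm
    rcases hm with (h | h | h | h | h | h) | ⟨t, ht, h⟩
    · exact ha 0 (q3_of_codz ok j hj (ok.va 0) _ h.symm)
    · exact ha 1 (q3_of_codz ok j hj (ok.va 1) _ h.symm)
    · exact ha 2 (q3_of_codz ok j hj (ok.va 2) _ h.symm)
    · exact hb 0 (q3_of_codz ok j hj (ok.vb 0) _ h.symm)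
    · exact hb 1 (q3_of_codz ok j hj (ok.vb 1) _ h.symm)
    · exact hb 2 (q3_of_codz ok j hj (ok.vb 2) _ h.symm)
    · exact hg t ht (q3_of_codz ok j hj (ok.vbig t ht).1 _ h)
  · -- the triangle
    simp only [tri, tri1, tri2, Bool.and_eq_true, beq_iff_eq] at h3
    set p1 := D.tn (D.cl0 (D.mv y p)) (D.ng p) with hp1
    set p2 := D.tn (D.cl0 (D.mv (D.mv y p) p1)) (D.ng p1) with hp2
    obtain ⟨⟨s1, s2⟩, s3⟩ := h3
    have cl0lt : ∀ z, D.cl0 z < (D.W + D.P) * D.w := fun z => cln_lt ok _ _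
    have hp1d : p1 < D.d := (ok.c _ _ (cl0lt _) hp.1).1
    have hpp1 := ok.p p1 hp1d
    have hp2d : p2 < D.d := (ok.c _ _ (cl0lt _) hpp1.1).1
    have hpp2 := ok.p p2 hp2d
    -- classes
    have e1 : clz D h (x + offz D h p) = D.cl0 (D.mv y p) := by
      unfold offz
      rw [clz_add ok j hj, cl0_mv ok, ← add_assoc]
      exact key _ _ (by omega) (by omega)
    have e2 : clz D h (x + offz D h p + offz D h p1) = D.cl0 (D.mv (D.mv y p) p1) := by
      unfold offz
      rw [add_assoc, ← Int.cast_add, clz_add ok j hj, cl0_mv2 ok]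
      rw [← key _ _ (by omega) (by omega)]
      congr 1; ring
    have f1 : sgR ok j hj (alR ok j hj (x, p)) = (x + offz D h p, fz ok p1) := by
      rw [ph_apply, e1]
    have v1 : (fz ok p1).val = p1 := fz_val ok hp1d
    have v2 : (fz ok p2).val = p2 := fz_val ok hp2d
    have f2 : sgR ok j hj (alR ok j hj (x + offz D h p, fz ok p1)) =
        (x + offz D h p + offz D h p1, fz ok p2) := by
      rw [ph_apply, v1, e2]
    have s0 : x + offz D h p + offz D h p1 + offz D h p2 = x := by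
      obtain ⟨t, ht⟩ := Nat.dvd_of_mod_eq_zero s2
      have a1 : (D.A' p : ℤ) + D.A' p1 + D.A' p2 = 96 := by exact_mod_cast s1
      have a2 : (D.f p : ℤ) + D.f p1 + D.f p2 = D.w * t := by exact_mod_cast ht
      have e : ((D.A' p : ℤ) - 32) + D.f p * h + (((D.A' p1 : ℤ) - 32) + D.f p1 * h) +
          (((D.A' p2 : ℤ) - 32) + D.f p2 * h) = ((nn D h : ℕ) : ℤ) * t := by
        push_cast
        linear_combination a1 + (h : ℤ) * a2
      have : offz D h p + offz D h p1 + offz D h p2 = 0 := by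
        unfold offz
        rw [← Int.cast_add, ← Int.cast_add, e, Int.cast_mul, Int.cast_natCast, ZMod.natCast_self,
          zero_mul]
      rw [add_assoc, add_assoc, ← add_assoc (offz D h p), this, add_zero]
    have f3 : sgR ok j hj (alR ok j hj (x + offz D h p + offz D h p1, fz ok p2)) = (x, p) := by
      rw [ph_apply, v2, s0, ← c0, s3, fz_self]
    rw [f1, f2, f3]

end Dat

end Run7.h243
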