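import Pool.Agent.Run7.h243.Loc2

set_option linter.unusedSectionVars false
set_option linter.unusedSimpArgs false

/-! The local rotation system of a table. -/

namespace Run7.h243

open Equiv Run7.B243

namespace Dat

variable {D : Dat} (ok : D.Ok) {h : ℕ} (j : ℕ) (hj : h = D.h0 + D.P * j)

def cyz (D : Dat) (h : ℕ) (q : ZMod (nn D h) × Fin D.d) : ℕ := D.cy (clz D h q.1) q.2.val

omit ok in
theorem isH_iff (c : ℕ) : D.isH c = true ↔ ∃ i, c = D.hcl i := by
  simp only [isH, Bool.or_eq_true, beq_iff_eq]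
  constructor
  · rintro ((h | h) | h)
    · exact ⟨0, h⟩
    · exact ⟨1, h⟩
    · exact ⟨2, h⟩
  · rintro ⟨i, hi⟩
    fin_cases i
    · exact Or.inl (Or.inl hi)
    · exact Or.inl (Or.inr hi)
    · exact Or.inr hi

omit ok in
theorem nc_cases (c : ℕ) : (D.isH c = true ∧ D.nc c = D.c0 + 1) ∨ D.nc c = D.c0 := by
  unfold nc
  by_cases h : D.isH c = true
  · left; exact ⟨h, if_pos h⟩
  · right; exact if_neg h

include hj in
theorem cl_cyz (x : ZMod (nn D h)) (N : ℕ) : ∀ p : Fin D.d, D.ix (clz D h x) p < N →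
    cl (sgR ok j hj) (x, p) = cl (sgR ok j hj) (x, fz ok (D.rp (clz D h x) (D.cy (clz D h x) p))) := by
  induction N with
  | zero => intro p hp; omega
  | succ N ih =>
    intro p hp
    have hc := clz_lt ok j hj x
    obtain ⟨h1, h2, h3, h4, h5, h6, h7⟩ := ok.c _ _ hc p.isLt
    rcases h7 with h7 | h7
    · rw [← h7, fz_self]
    · have v : (fz ok (D.ti (clz D h x) p)).val = D.ti (clz D h x) p := fz_val ok h2
      have := ih (fz ok (D.ti (clz D h x) p)) (by rw [v]; omega)
      have e : sgR ok j hj (x, fz ok (D.ti (clz D h x) p)) = (x, p) := by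
        rw [sgR_apply]
        simp only [v, h4, fz_self]
      have e2 : cl (sgR ok j hj) (x, p) = cl (sgR ok j hj) (x, fz ok (D.ti (clz D h x) p)) := by
        rw [← e, cl_apply]
      have e3 : D.cy (clz D h x) (D.ti (clz D h x) p) = D.cy (clz D h x) p := by
        have := (ok.c _ _ hc h2).2.2.2.2.1
        rw [h4] at this; exact this.symm
      rw [e2, this, v, e3]

include hj in
theorem cl_cyz' (q q' : ZMod (nn D h) × Fin D.d) (h1 : q.1 = q'.1) (h2 : cyz D h q = cyz D h q') :
    cl (sgR ok j hj) q = cl (sgR ok j hj) q' := by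
  obtain ⟨x, p⟩ := q
  obtain ⟨x', p'⟩ := q'
  have h1 : x = x' := h1
  subst h1
  have h2 : D.cy (clz D h x) p.val = D.cy (clz D h x) p'.val := h2
  rw [cl_cyz ok j hj x _ p (Nat.lt_succ_self _), cl_cyz ok j hj x _ p' (Nat.lt_succ_self _), h2]

include ok hj in
theorem cyz_lt (q : ZMod (nn D h) × Fin D.d) : cyz D h q < D.nc (clz D h q.1) :=
  (ok.c _ _ (clz_lt ok j hj q.1) q.2.isLt).2.2.2.2.2.1

include ok hj in
theorem desc_q (q : ZMod (nn D h) × Fin D.d) : cyz D h q = D.c0 ∨ ∃ q' : ZMod (nn D h) × Fin D.d,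
    q'.1 = q.1 ∧ cyz D h q' = cyz D h q ∧
    D.rnk h ((alR ok j hj q').1.val % h) (clz D h (alR ok j hj q').1) (cyz D h (alR ok j hj q')) <
      D.rnk h (q.1.val % h) (clz D h q.1) (cyz D h q) := by
  have := nn_ne ok j hj
  obtain ⟨x, p'⟩ := q
  obtain ⟨y, hy, key⟩ := transfer ok j hj (x.val : ℤ)
  have hB := ok.hB
  have hBW := ok.hBW
  have hH := hpos ok j hj
  have c0 : D.cl0 y = clz D h x := by
    have := key 0 0 (by omega) (by omega)
    rw [cl0_eq ok]; simpa [clz] using this.symm
  have hlt := cyz_lt ok j hj (x, p')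
  set i := cyz D h (x, p') with hi
  have h4 := allb_spec (allb_spec ok.k4 y hy) i (by rw [c0]; exact hlt)
  rw [Bool.or_eq_true] at h4
  rcases h4 with h4 | h4
  · left
    rw [Bool.and_eq_true, beq_iff_eq] at h4
    exact h4.2
  · right
    simp only [dsc, dsc1, Bool.and_eq_true, Bool.or_eq_true, decide_eq_true_eq, beq_iff_eq] at h4
    obtain ⟨⟨h5, h6⟩, h7⟩ := h4
    set p := D.pa (D.cl0 y) i with hp
    have hpp := ok.p p h5
    have v : (fz ok p).val = p := fz_val ok h5
    have hcz : cyz D h (x, fz ok p) = i := by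
      unfold cyz; rw [v, ← c0]; exact h6
    refine ⟨(x, fz ok p), rfl, hcz, ?_⟩
    have ea : alR ok j hj (x, fz ok p) = (x + offz D h p, fz ok (D.ng p)) := by
      rw [alR_apply, v]
    rw [ea]
    have e1 : clz D h (x + offz D h p) = D.cl0 (D.mv y p) := by
      unfold offz
      rw [clz_add ok j hj, cl0_mv ok, ← add_assoc]
      exact key _ _ (by omega) (by omega)
    have e2 : cyz D h (x + offz D h p, fz ok (D.ng p)) =
        D.cy (D.cl0 (D.mv y p)) (D.ng p) := by
      unfold cyz
      rw [fz_val ok hpp.1, e1]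
    show D.rnk h ((x + offz D h p).val % h) (clz D h (x + offz D h p)) _ <
      D.rnk h (x.val % h) (clz D h x) i
    rw [e1, e2, ← c0]
    obtain ⟨r1, hr1⟩ : ∃ r1, r1 = D.rs (D.cl0 (D.mv y p)) (D.cy (D.cl0 (D.mv y p)) (D.ng p)) :=
      ⟨_, rfl⟩
    obtain ⟨r0, hr0⟩ : ∃ r0, r0 = D.rs (D.cl0 y) i := ⟨_, rfl⟩
    have h9 : ((x + offz D h p).val : ℤ) % h = ((x.val % h + h + D.A' p - 32 : ℕ) : ℤ) % h := by
      have e : x + offz D h p = (((x.val : ℤ) + (((D.A' p : ℤ) - 32) + D.f p * h) : ℤ) :
          ZMod (nn D h)) := by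
        unfold offz; push_cast; rw [ZMod.natCast_zmod_val]
      rw [e, ZMod.val_intCast]
      have : ((nn D h : ℕ) : ℤ) = h * D.w := by push_cast; ring
      rw [Int.emod_emod_of_dvd _ (Dvd.intro _ this.symm)]
      have e2 : ((x.val % h + h + D.A' p - 32 : ℕ) : ℤ) = (x.val : ℤ) + (((D.A' p : ℤ) - 32) +
          D.f p * h) - h * ((x.val : ℤ) / h + D.f p - 1) := by
        have := Int.mul_ediv_add_emod (x.val : ℤ) h
        push_cast [show 32 ≤ x.val % h + h + D.A' p by omega]
        linear_combination this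
      rw [e2, Int.sub_mul_emod_self_left]
    have h10 : ((x + offz D h p).val % h : ℕ) = (x.val % h + h + D.A' p - 32) % h := by
      exact_mod_cast h9
    simp only [dsc2, Bool.and_eq_true, Bool.or_eq_true, decide_eq_true_eq, beq_iff_eq] at h7
    rw [← hr1, ← hr0] at h7
    unfold rnk
    rw [← hr1, ← hr0]
    rcases h7 with ⟨⟨h8, hl⟩, hr⟩ | ⟨hl, hr⟩
    · -- positions
      have hv0 : 32 ≤ x.val % h + D.A' p := by
        have hpc : D.pc (y % D.h0) = D.pc (x.val % h) := by
          have e : D.cl0 y = clz D h x := c0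
          unfold cl0 clz cls cln at e
          have hr : ((x.val : ℤ) % h).toNat = x.val % h := by
            rw [← Int.natCast_mod, Int.toNat_natCast]
          rw [hr] at e
          have hw := ok.hw
          have := congrArg (· / D.w) e
          rw [Nat.add_comm, Nat.add_comm (D.pc (x.val % h) * D.w), Nat.add_mul_div_right _ _ hw,
            Nat.add_mul_div_right _ _ hw, Nat.div_eq_of_lt (Nat.mod_lt _ hw),
            Nat.div_eq_of_lt (Nat.mod_lt _ hw)] at this
          omega
        by_cases hs : y % D.h0 < D.W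
        · rw [pc_small hs] at hpc
          have : x.val % h < D.W := by
            by_contra hcon
            have := pc_big (D := D) (v := x.val % h) (by omega)
            omega
          rw [pc_small this] at hpc
          rcases h8 with h8 | h8 <;> omega
        · have hb := pc_big (D := D) (v := y % D.h0) (by omega)
          have : D.W ≤ x.val % h := by
            by_contra hcon
            rw [pc_small (v := x.val % h) (by omega)] at hpc
            omega
          omega
      have hval : (x + offz D h p).val % h ≤ x.val % h + D.A' p - 32 := by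
        rw [h10, show x.val % h + h + D.A' p - 32 = x.val % h + D.A' p - 32 + h by omega,
          Nat.add_mod_right]
        exact Nat.mod_le _ _
      rw [hl]
      omega
    · have hval : (x + offz D h p).val % h ≤ x.val % h + h + D.A' p - 32 := by
        rw [h10]; exact Nat.mod_le _ _
      have hm : h * (r1 / 512) + h ≤ h * (r0 / 512) := by
        calc h * (r1 / 512) + h = h * (r1 / 512 + 1) := by ring
          _ ≤ h * (r0 / 512) := Nat.mul_le_mul_left _ hl
      omega

/-- the local rotation system -/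
def rsys (δ : ℕ) (hδ : D.big.length ≤ 3 + δ) : RSys (nn D h) D.c0 δ where
  F := Fin D.d
  fin := inferInstance
  dec := inferInstance
  off p := offz D h p.val
  α := alR ok j hj
  σ := sgR ok j hj
  α1 _ := rfl
  α2 q := al2_inv ok j hj q
  αne q := by
    intro e
    have := congrArg Prod.fst e
    rw [alR_apply] at this
    exact off_ne ok j hj _ q.2.isLt (by simpa using this)
  σ1 _ := rfl
  X i := pt D h (D.hc i).1 (D.hc i).2
  Xinj := by
    intro i i' e
    apply ok.hdist
    have := congrArg (clz D h) e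
    simp only at this
    rw [clz_pt ok j hj (ok.hv i).1 (ok.hv i).2, clz_pt ok j hj (ok.hv i').1 (ok.hv i').2] at this
    exact this
  a i := q3 ok h (D.ta i)
  b i := q3 ok h (D.tb i)
  pa i := by rw [ph_q3 ok j hj (ok.va i), ok.na]
  pb i := by rw [ph_q3 ok j hj (ok.vb i), ok.nb]
  lb i := by
    obtain ⟨h1, h2, h3, h4, h5⟩ := (val_iff _).mp (ok.vb i)
    rw [alR_apply]
    show pt D h _ _ + offz D h (fz ok (D.tb i).2.2).val = _
    rw [fz_val ok h3, pt_off ok j hj (ok.vb i), (ok.lb i).1, (ok.lb i).2]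
  ab i i' := by
    intro e
    have := congrArg (codz D h) e
    rw [codz_q3 ok j hj (ok.va i), codz_q3 ok j hj (ok.vb i')] at this
    exact ok.ab _ _ this
  big := (D.big.map (q3 ok h)).toFinset
  big0 := ((D.big.drop 3).map (q3 ok h)).toFinset
  bigc q hq := by
    simp only [List.mem_toFinset, List.mem_map] at hq ⊢
    obtain ⟨t, ht, rfl⟩ := hq
    refine ⟨D.nx t, (ok.vbig t ht).2, ?_⟩
    rw [ph_q3 ok j hj (ok.vbig t ht).1]
  big0c := by
    refine le_trans (List.toFinset_card_le _) ?_
    rw [List.length_map, List.length_drop]; omega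
  bigd := by
    have : (D.big.map (q3 ok h)).toFinset \ ((D.big.drop 3).map (q3 ok h)).toFinset ⊆
        ((D.big.take 3).map (q3 ok h)).toFinset := by
      intro x hx
      simp only [Finset.mem_sdiff, List.mem_toFinset, List.mem_map] at hx ⊢
      obtain ⟨⟨t, ht, rfl⟩, h2⟩ := hx
      rw [← List.take_append_drop 3 D.big, List.mem_append] at ht
      rcases ht with ht | ht
      · exact ⟨t, ht, rfl⟩
      · exact absurd ⟨t, ht, rfl⟩ h2
    refine le_trans (Finset.card_le_card this) (le_trans (List.toFinset_card_le _) ?_)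
    rw [List.length_map, List.length_take]; omega
  abig i := by
    simp only [List.mem_toFinset, List.mem_map, not_exists, not_and]
    intro t ht e
    have := congrArg (codz D h) e
    rw [codz_q3 ok j hj (ok.va i), codz_q3 ok j hj (ok.vbig t ht).1] at this
    exact (ok.abig i t ht).1 this.symm
  bbig i := by
    simp only [List.mem_toFinset, List.mem_map, not_exists, not_and]
    intro t ht e
    have := congrArg (codz D h) e
    rw [codz_q3 ok j hj (ok.vb i), codz_q3 ok j hj (ok.vbig t ht).1] at this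
    exact (ok.abig i t ht).2 this.symm
  tri q hq ha hb := by
    refine tri_q ok j hj q ha hb ?_
    intro t ht e
    apply hq
    simp only [List.mem_toFinset, List.mem_map]
    exact ⟨t, ht, e.symm⟩
  cy := cyz D h
  cyσ q := by
    obtain ⟨h1, h2, h3, h4, h5, _⟩ := ok.c _ _ (clz_lt ok j hj q.1) q.2.isLt
    rw [sgR_apply]
    unfold cyz
    simp only
    rw [fz_val ok h1, h5]
  cyl q := by
    have h1 := cyz_lt ok j hj q
    rcases nc_cases (D := D) (clz D h q.1) with ⟨h2, h3⟩ | h3
    · rw [h3] at h1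
      by_cases h4 : cyz D h q < D.c0
      · exact Or.inl h4
      · right
        refine ⟨by omega, ?_⟩
        obtain ⟨i, hi⟩ := (isH_iff _).mp h2
        exact ⟨i, pt_inj ok j hj (ok.hv i).1 (ok.hv i).2 _ hi⟩
    · left; omega
  cyc q q' := cl_cyz' ok j hj q q'
  rep x i hi := by
    have hc := clz_lt ok j hj x
    have : i < D.nc (clz D h x) := by
      rcases nc_cases (D := D) (clz D h x) with ⟨_, h3⟩ | h3 <;> omega
    obtain ⟨h1, h2⟩ := ok.r _ _ hc this
    refine ⟨(x, fz ok (D.rp (clz D h x) i)), rfl, ?_⟩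
    unfold cyz
    simp only
    rw [fz_val ok h1, h2]
  path i := by
    obtain ⟨h1, h2, h3, h4, h5⟩ := (val_iff _).mp (ok.vb i)
    have hX : (alR ok j hj (q3 ok h (D.tb i))).1 = pt D h (D.hc i).1 (D.hc i).2 := by
      rw [alR_apply]
      show pt D h _ _ + offz D h (fz ok (D.tb i).2.2).val = _
      rw [fz_val ok h3, pt_off ok j hj (ok.vb i), (ok.lb i).1, (ok.lb i).2]
    have hc : clz D h (alR ok j hj (q3 ok h (D.tb i))).1 = D.hcl i := by
      rw [hX, clz_pt ok j hj (ok.hv i).1 (ok.hv i).2]; rfl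
    unfold cyz
    rw [hc, alR_apply]
    show D.cy (D.hcl i) (fz ok (D.ng (fz ok (D.tb i).2.2).val)).val = D.c0
    rw [fz_val ok h3, fz_val ok (ok.p _ h3).1, ok.pth]
  rk q := D.rnk h (q.1.val % h) (clz D h q.1) (cyz D h q)
  desc q := desc_q ok j hj q

end Dat

end Run7.h243
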