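import Pool.Agent.Run7.h243.Loc3

set_option linter.unusedSectionVars false
set_option linter.unusedSimpArgs false

/-! Good maps from tables. -/

namespace Run7.h243

open Equiv Run7.B243

namespace Dat

variable {D : Dat}

/-- all the offsets occur -/
def hasOff (D : Dat) (l : List (ℕ × ℕ)) : Prop := ∀ q ∈ l, ∃ p : Fin D.d, D.A' p.val = q.1 ∧ D.f p.val = q.2

instance (l : List (ℕ × ℕ)) : Decidable (D.hasOff l) := by unfold hasOff; infer_instance

def offE (t : ℕ) : List (ℕ × ℕ) := [(33, 0), (35, 0), (36, 0), (31, 0), (29, 0), (28, 0)] ++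
  (List.range t).map (fun i => (32 + i, 1)) ++ (List.range t).map (fun i => (32 - i, 1))

def offO (t : ℕ) : List (ℕ × ℕ) := [(34, 0), (38, 0), (40, 0), (30, 0), (26, 0), (24, 0)] ++
  (List.range t).map (fun i => (32 + (2 * i + 1), 0)) ++
  (List.range t).map (fun i => (32 - (2 * i + 1), 0))

theorem zeq {N : ℕ} (a b k : ℤ) (h : a - b = N * k) : (a : ZMod N) = (b : ZMod N) := by
  have : a = b + N * k := by linarith
  rw [this]; push_cast; simp

theorem pt_int (h v e : ℕ) : pt D h v e = (((v : ℤ) + e * h : ℤ) : ZMod (nn D h)) := by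
  unfold pt; push_cast; ring

theorem nat_int {N : ℕ} (u : ℕ) : (u : ZMod N) = ((u : ℤ) : ZMod N) := (Int.cast_natCast u).symm

/-- the relation between the corners of the hole, even case -/
def relE (D : Dat) (t par : ℕ) : Prop := (D.hc 1).1 = (D.hc 0).1 + 2 ∧ (D.hc 1).2 = (D.hc 0).2 ∧
  (D.hc 2).2 = ((D.hc 1).2 + 1) % 2 ∧
  if par = 1 then (D.hc 2).1 + (t + 2) = (D.hc 1).1 else (D.hc 2).1 = (D.hc 1).1 + t

instance (t par : ℕ) : Decidable (D.relE t par) := by unfold relE; infer_instance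

/-- the relation between the corners of the hole, odd case -/
def relO (D : Dat) (t par : ℕ) : Prop := (D.hc 1).1 = (D.hc 0).1 + 4 ∧ (D.hc 0).2 = 0 ∧
  (D.hc 1).2 = 0 ∧ (D.hc 2).2 = 0 ∧
  if par = 1 then (D.hc 2).1 + (2 * t + 1 + 4) = (D.hc 1).1 else (D.hc 2).1 = (D.hc 1).1 + (2 * t + 1)

instance (t par : ℕ) : Decidable (D.relO t par) := by unfold relO; infer_instance

theorem good_even (ok : D.Ok) (δ t : ℕ) (hδ : D.big.length ≤ 3 + δ) (hw : D.w = 2)
    (hd : D.d = 2 * t + 5) (hoff : D.hasOff (offE t)) (s j c : ℕ) (hrel : D.relE t (s % 2))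
    (hs : 3 * s + 3 + t = D.h0 + D.P * j) (ht32 : t ≤ 32)
    (hs9 : 9 ≤ s) (hc : 1 ≤ c) (hcs : c ≤ s) (hp : (s + c) % 2 = 0) :
    ∃ ε : ℤ, GoodE true ε (6 * s + 6 + 2 * t) (c + D.c0) ∧ Even ε ∧
      ((6 * s + 6 + 2 * t : ℕ) : ℤ) * (6 * (c + D.c0 : ℕ) + 1 - (6 * s + 6 + 2 * t : ℕ)) - 2 * δ ≤
        6 * ε := by
  obtain ⟨C⟩ := cayZ s c hs9 hc hcs hp
  obtain ⟨h, hh⟩ : ∃ h, h = 3 * s + 3 + t := ⟨_, rfl⟩
  rw [← hh] at hs
  have hN : nn D h = 6 * s + 6 + 2 * t := by simp only [nn, hw, hh]; ring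
  have hNZ : NeZero (nn D h) := nn_ne ok j hs
  obtain ⟨r1, r2, r3, r4⟩ := hrel
  have hN2 : ((nn D h : ℕ) : ℤ) = 2 * h := by simp only [nn, hw]; push_cast; ring
  have hNs : ((nn D h : ℕ) : ℤ) = 6 * s + 6 + 2 * t := by rw [hN]; push_cast; ring
  have hX1 : (rsys ok j hs δ hδ).X 1 = (rsys ok j hs δ hδ).X 0 + 1 * (C.val C.t1 : ℤ) := by
    show pt D h _ _ = pt D h _ _ + 1 * _
    rw [C.v1, r1, r2, one_mul, pt_int, pt_int, ← Int.cast_add]
    refine zeq _ _ 0 ?_
    push_cast; ring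
  have hX2 : (rsys ok j hs δ hδ).X 2 = (rsys ok j hs δ hδ).X 1 + 1 * (C.val (C.τ C.t1) : ℤ) := by
    show pt D h _ _ = pt D h _ _ + 1 * _
    have he : (D.hc 1).2 < 2 := by have := (ok.hv 1).2; omega
    rw [C.v2, one_mul, pt_int, pt_int, ← Int.cast_add]
    have h3 : ((h : ℕ) : ℤ) = 3 * s + 3 + t := by rw [hh]; push_cast; ring
    by_cases hodd : s % 2 = 1
    · rw [if_pos hodd] at r4
      rw [if_pos hodd]
      have r4' : ((D.hc 1).1 : ℤ) = (D.hc 2).1 + (t + 2) := by rw [← r4]; push_cast; ring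
      interval_cases h12 : (D.hc 1).2
      · rw [r3]
        refine zeq _ _ 0 ?_
        push_cast; rw [r4', h3]; ring
      · rw [r3]
        refine zeq _ _ (-1) ?_
        rw [hNs]
        push_cast; rw [r4', h3]; ring
    · rw [if_neg hodd] at r4
      rw [if_neg hodd]
      have r4' : ((D.hc 2).1 : ℤ) = (D.hc 1).1 + t := by rw [r4]; push_cast; ring
      interval_cases h12 : (D.hc 1).2
      · rw [r3]
        refine zeq _ _ 1 ?_
        rw [hNs]
        push_cast; rw [r4', h3]; ring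
      · rw [r3]
        refine zeq _ _ 0 ?_
        push_cast; rw [r4', h3]; ring
  have hμ : ∀ x : ZMod (nn D h), ∃ z : ℤ, x = 1 * z := by
    intro x
    refine ⟨x.val, ?_⟩
    rw [one_mul]; simp
  have hcard : 6 * s + Fintype.card (rsys ok j hs δ hδ).F + 1 = nn D h := by
    show 6 * s + Fintype.card (Fin D.d) + 1 = _
    rw [Fintype.card_fin, hd, hN]; ring
  have hcov : ∀ g : ZMod (nn D h), g ≠ 0 → (∃ u : ℕ, (u = 2 ∨ (5 ≤ u ∧ u ≤ 3 * s + 3)) ∧
      (g = 1 * u ∨ g = - (1 * u))) ∨ ∃ p, (rsys ok j hs δ hδ).off p = g := by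
    intro g hg
    have hlt := ZMod.val_lt g
    have hne : g.val ≠ 0 := fun e => hg ((ZMod.val_eq_zero g).mp e)
    have hgv : g = ((g.val : ℤ) : ZMod (nn D h)) := by simp
    obtain ⟨y, hy⟩ : ∃ y, y = g.val := ⟨_, rfl⟩
    rw [← hy] at hlt hne hgv
    have hlt' : y < 2 * h := by rw [hN] at hlt; omega
    have off : ∀ q ∈ offE t, ∀ k : ℤ, (((q.1 : ℤ) - 32) + q.2 * h) - y = (nn D h : ℕ) * k →
        ∃ p, (rsys ok j hs δ hδ).off p = g := by
      intro q hq k hk
      obtain ⟨p, hp1, hp2⟩ := hoff q hq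
      refine ⟨p, ?_⟩
      show offz D h p.val = g
      unfold offz
      rw [hp1, hp2, hgv]
      exact zeq _ _ k hk
    have mem1 : ∀ i < t, (32 + i, 1) ∈ offE t := by
      intro i hi
      simp only [offE, List.mem_append, List.mem_map, List.mem_range]
      exact Or.inl (Or.inr ⟨i, hi, rfl⟩)
    have mem2 : ∀ i < t, (32 - i, 1) ∈ offE t := by
      intro i hi
      simp only [offE, List.mem_append, List.mem_map, List.mem_range]
      exact Or.inr ⟨i, hi, rfl⟩
    by_cases hyh : y ≤ h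
    · by_cases c1 : y = 1
      · right; exact off (33, 0) (by simp [offE]) 0 (by subst c1; push_cast; ring)
      by_cases c3 : y = 3
      · right; exact off (35, 0) (by simp [offE]) 0 (by subst c3; push_cast; ring)
      by_cases c4 : y = 4
      · right; exact off (36, 0) (by simp [offE]) 0 (by subst c4; push_cast; ring)
      by_cases cN : y ≤ 3 * s + 3
      · left
        refine ⟨y, by omega, Or.inl ?_⟩
        rw [one_mul, hgv]; simp
      · right
        refine off (32 - (h - y), 1) (mem2 _ (by omega)) 0 ?_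
        simp only
        have : ((32 - (h - y) : ℕ) : ℤ) = 32 - (h - y) := by omega
        rw [this]; push_cast; ring
    · by_cases c1 : y + 1 = 2 * h
      · right; exact off (31, 0) (by simp [offE]) (-1) (by rw [hN2]; push_cast; omega)
      by_cases c3 : y + 3 = 2 * h
      · right; exact off (29, 0) (by simp [offE]) (-1) (by rw [hN2]; push_cast; omega)
      by_cases c4 : y + 4 = 2 * h
      · right; exact off (28, 0) (by simp [offE]) (-1) (by rw [hN2]; push_cast; omega)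
      by_cases cN : 2 * h - y ≤ 3 * s + 3
      · left
        refine ⟨2 * h - y, by omega, Or.inr ?_⟩
        rw [one_mul, hgv, nat_int (2 * h - y), ← Int.cast_neg]
        refine zeq _ _ 1 ?_
        rw [hN2]
        have : ((2 * h - y : ℕ) : ℤ) = 2 * h - y := by omega
        rw [this]; ring
      · right
        refine off (32 + (y - h), 1) (mem1 _ (by omega)) 0 ?_
        simp only
        have : ((32 + (y - h) : ℕ) : ℤ) = 32 + (y - h) := by omega
        rw [this]; push_cast; ring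
  have := glue_goodE C (rsys ok j hs δ hδ) 1 hX1 hX2 hμ hcov hcard
  rw [hN] at this
  exact this

theorem good_odd (ok : D.Ok) (δ t : ℕ) (hδ : D.big.length ≤ 3 + δ) (hw : D.w = 1)
    (hd : D.d = 2 * t + 6) (hoff : D.hasOff (offO t)) (s j c : ℕ) (hrel : D.relO t (s % 2))
    (hs : 6 * s + 6 + (2 * t + 1) = D.h0 + D.P * j) (ht15 : t ≤ 15)
    (hs9 : 9 ≤ s) (hc : 1 ≤ c) (hcs : c ≤ s) (hp : (s + c) % 2 = 0) :
    ∃ ε : ℤ, GoodE true ε (6 * s + 6 + (2 * t + 1)) (c + D.c0) ∧ Even ε ∧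
      ((6 * s + 6 + (2 * t + 1) : ℕ) : ℤ) * (6 * (c + D.c0 : ℕ) + 1 - (6 * s + 6 + (2 * t + 1) : ℕ))
        - 2 * δ ≤ 6 * ε := by
  obtain ⟨C⟩ := cayZ s c hs9 hc hcs hp
  obtain ⟨h, hh⟩ : ∃ h, h = 6 * s + 6 + (2 * t + 1) := ⟨_, rfl⟩
  rw [← hh] at hs
  have hN : nn D h = 6 * s + 6 + (2 * t + 1) := by simp only [nn, hw, hh]; ring
  have hNZ : NeZero (nn D h) := nn_ne ok j hs
  obtain ⟨r1, r2, r3, r4, r5⟩ := hrel
  have hNs : ((nn D h : ℕ) : ℤ) = 6 * s + 6 + (2 * t + 1) := by rw [hN]; push_cast; ring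
  have hX1 : (rsys ok j hs δ hδ).X 1 = (rsys ok j hs δ hδ).X 0 + 2 * (C.val C.t1 : ℤ) := by
    show pt D h _ _ = pt D h _ _ + 2 * _
    rw [C.v1, r1, r2, r3]
    unfold pt
    push_cast; ring
  have hX2 : (rsys ok j hs δ hδ).X 2 = (rsys ok j hs δ hδ).X 1 + 2 * (C.val (C.τ C.t1) : ℤ) := by
    show pt D h _ _ = pt D h _ _ + 2 * _
    have e2 : (2 : ZMod (nn D h)) = ((2 : ℤ) : ZMod (nn D h)) := by norm_num
    rw [C.v2, r3, r4, pt_int, pt_int, e2, ← Int.cast_mul, ← Int.cast_add]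
    by_cases hodd : s % 2 = 1
    · rw [if_pos hodd] at r5
      rw [if_pos hodd]
      have r5' : ((D.hc 1).1 : ℤ) = (D.hc 2).1 + (2 * t + 1 + 4) := by rw [← r5]; push_cast; ring
      refine zeq _ _ (-1) ?_
      rw [hNs]
      push_cast; rw [r5']; ring
    · rw [if_neg hodd] at r5
      rw [if_neg hodd]
      have r5' : ((D.hc 2).1 : ℤ) = (D.hc 1).1 + (2 * t + 1) := by rw [r5]; push_cast; ring
      refine zeq _ _ 1 ?_
      rw [hNs]
      push_cast; rw [r5']; ring
  have hμ : ∀ x : ZMod (nn D h), ∃ z : ℤ, x = 2 * z := by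
    intro x
    have e2 : (2 : ZMod (nn D h)) = ((2 : ℤ) : ZMod (nn D h)) := by norm_num
    have hx : x = ((x.val : ℤ) : ZMod (nn D h)) := by simp
    rcases Nat.even_or_odd' x.val with ⟨q, hq | hq⟩
    · refine ⟨q, ?_⟩
      rw [hx, hq]; push_cast; ring
    · refine ⟨(q + (3 * s + 3 + t + 1) : ℕ), ?_⟩
      rw [e2, ← Int.cast_mul, hx, hq]
      refine zeq _ _ (-1) ?_
      rw [hNs]; push_cast; ring
  have hcard : 6 * s + Fintype.card (rsys ok j hs δ hδ).F + 1 = nn D h := by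
    show 6 * s + Fintype.card (Fin D.d) + 1 = _
    rw [Fintype.card_fin, hd, hN]; ring
  have hcov : ∀ g : ZMod (nn D h), g ≠ 0 → (∃ u : ℕ, (u = 2 ∨ (5 ≤ u ∧ u ≤ 3 * s + 3)) ∧
      (g = 2 * u ∨ g = - (2 * u))) ∨ ∃ p, (rsys ok j hs δ hδ).off p = g := by
    intro g hg
    have hlt := ZMod.val_lt g
    have hne : g.val ≠ 0 := fun e => hg ((ZMod.val_eq_zero g).mp e)
    have hgv : g = ((g.val : ℤ) : ZMod (nn D h)) := by simp
    obtain ⟨y, hy⟩ : ∃ y, y = g.val := ⟨_, rfl⟩
    rw [← hy] at hlt hne hgv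
    rw [hN] at hlt
    have off : ∀ q ∈ offO t, ∀ k : ℤ, (((q.1 : ℤ) - 32) + q.2 * h) - y = (nn D h : ℕ) * k →
        ∃ p, (rsys ok j hs δ hδ).off p = g := by
      intro q hq k hk
      obtain ⟨p, hp1, hp2⟩ := hoff q hq
      refine ⟨p, ?_⟩
      show offz D h p.val = g
      unfold offz
      rw [hp1, hp2, hgv]
      exact zeq _ _ k hk
    have mem1 : ∀ i < t, (32 + (2 * i + 1), 0) ∈ offO t := by
      intro i hi
      simp only [offO, List.mem_append, List.mem_map, List.mem_range]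
      exact Or.inl (Or.inr ⟨i, hi, rfl⟩)
    have mem2 : ∀ i < t, (32 - (2 * i + 1), 0) ∈ offO t := by
      intro i hi
      simp only [offO, List.mem_append, List.mem_map, List.mem_range]
      exact Or.inr ⟨i, hi, rfl⟩
    rcases Nat.even_or_odd' y with ⟨u, hu | hu⟩
    · by_cases c1 : u = 1
      · right; exact off (34, 0) (by simp [offO]) 0 (by subst hu c1; push_cast; ring)
      by_cases c3 : u = 3
      · right; exact off (38, 0) (by simp [offO]) 0 (by subst hu c3; push_cast; ring)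
      by_cases c4 : u = 4
      · right; exact off (40, 0) (by simp [offO]) 0 (by subst hu c4; push_cast; ring)
      by_cases cN : u ≤ 3 * s + 3
      · left
        refine ⟨u, by omega, Or.inl ?_⟩
        rw [hgv, hu]; push_cast; ring
      · right
        -- `y - n` is odd
        refine off (32 - (2 * (3 * s + 3 + t - u) + 1), 0) (mem2 _ (by omega)) (-1) ?_
        simp only
        rw [hNs]
        have : ((32 - (2 * (3 * s + 3 + t - u) + 1) : ℕ) : ℤ) =
          32 - (2 * (3 * s + 3 + t - u) + 1) := by omega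
        rw [this, hu]; push_cast; ring
    · -- `n - y = 2 * u'`
      obtain ⟨u', hu'⟩ : ∃ u', u' + u = 3 * s + 3 + t := ⟨3 * s + 3 + t - u, by omega⟩
      have hy' : (y : ℤ) = 6 * s + 6 + (2 * t + 1) - 2 * u' := by
        rw [hu]; push_cast; linarith [(by exact_mod_cast hu' : (u' : ℤ) + u = 3 * s + 3 + t)]
      by_cases c1 : u' = 1
      · right; exact off (30, 0) (by simp [offO]) (-1) (by rw [hNs, hy', c1]; push_cast; ring)
      by_cases c3 : u' = 3
      · right; exact off (26, 0) (by simp [offO]) (-1) (by rw [hNs, hy', c3]; push_cast; ring)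
      by_cases c4 : u' = 4
      · right; exact off (24, 0) (by simp [offO]) (-1) (by rw [hNs, hy', c4]; push_cast; ring)
      by_cases cN : u' ≤ 3 * s + 3
      · left
        refine ⟨u', by omega, Or.inr ?_⟩
        have e2 : (2 : ZMod (nn D h)) = ((2 : ℤ) : ZMod (nn D h)) := by norm_num
        rw [hgv, nat_int u', e2, ← Int.cast_mul, ← Int.cast_neg]
        refine zeq _ _ 1 ?_
        rw [hNs, hy']; ring
      · right
        refine off (32 + (2 * u + 1), 0) (mem1 _ (by omega)) 0 ?_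
        simp only
        rw [hu]; push_cast; ring
  have := glue_goodE C (rsys ok j hs δ hδ) 2 hX1 hX2 hμ hcov hcard
  rw [hN] at this
  exact this

end Dat

end Run7.h243
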