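import Pool.Agent.Run7.h243.Asm

set_option linter.unusedSectionVars false
set_option linter.unusedSimpArgs false

/-! Near-optimal maps for all large `n`. -/

namespace Run7.h243

theorem Opt.cast {n n' m m' : ℕ} (h : Opt n m) (hn : n = n') (hm : m = m') : Opt n' m' := by
  subst hn; subst hm; exact h

/-- all residues but `1` modulo `6` -/
theorem opt_ne1 (k r m : ℕ) (hk : 15 ≤ k) (hr : 2 ≤ r) (hr' : r ≤ 6) (hm : 2 ≤ m) (hmk : m ≤ k)
    (h2 : m = 2 → k % 2 = 1) : Opt (6 * k + r) m := by
  obtain hp | hp : k % 2 = 0 ∨ k % 2 = 1 := by omega
  · obtain hq | hq : (m + k) % 2 = 0 ∨ (m + k) % 2 = 1 := by omega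
    · interval_cases r
      · exact (fam_t2p0c2 (k - 2) (m - 2) (by omega) (by omega) (by omega) (by omega)
          (by omega)).cast (by omega) (by omega)
      · exact (fam_t3p0c2 (k - 2) (m - 2) (by omega) (by omega) (by omega) (by omega)
          (by omega)).cast (by omega) (by omega)
      · exact (fam_t4p0c2 (k - 2) (m - 2) (by omega) (by omega) (by omega) (by omega)
          (by omega)).cast (by omega) (by omega)
      · exact (fam_t5p0c2 (k - 2) (m - 2) (by omega) (by omega) (by omega) (by omega)
          (by omega)).cast (by omega) (by omega)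
      · exact (fam_t6p0c2 (k - 2) (m - 2) (by omega) (by omega) (by omega) (by omega)
          (by omega)).cast (by omega) (by omega)
    · interval_cases r
      · exact (fam_t2p0c1 (k - 2) (m - 1) (by omega) (by omega) (by omega) (by omega)
          (by omega)).cast (by omega) (by omega)
      · exact (fam_t3p0c1 (k - 2) (m - 1) (by omega) (by omega) (by omega) (by omega)
          (by omega)).cast (by omega) (by omega)
      · exact (fam_t4p0c1 (k - 2) (m - 1) (by omega) (by omega) (by omega) (by omega)
          (by omega)).cast (by omega) (by omega)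
      · exact (fam_t5p0c1 (k - 2) (m - 1) (by omega) (by omega) (by omega) (by omega)
          (by omega)).cast (by omega) (by omega)
      · exact (fam_t6p0c1 (k - 2) (m - 1) (by omega) (by omega) (by omega) (by omega)
          (by omega)).cast (by omega) (by omega)
  · obtain hq | hq : (m + k) % 2 = 0 ∨ (m + k) % 2 = 1 := by omega
    · interval_cases r
      · exact (fam_t2p1c2 (k - 2) (m - 2) (by omega) (by omega) (by omega) (by omega)
          (by omega)).cast (by omega) (by omega)
      · exact (fam_t3p1c2 (k - 2) (m - 2) (by omega) (by omega) (by omega) (by omega)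
          (by omega)).cast (by omega) (by omega)
      · exact (fam_t4p1c2 (k - 2) (m - 2) (by omega) (by omega) (by omega) (by omega)
          (by omega)).cast (by omega) (by omega)
      · exact (fam_t5p1c2 (k - 2) (m - 2) (by omega) (by omega) (by omega) (by omega)
          (by omega)).cast (by omega) (by omega)
      · exact (fam_t6p1c2 (k - 2) (m - 2) (by omega) (by omega) (by omega) (by omega)
          (by omega)).cast (by omega) (by omega)
    · interval_cases r
      · exact (fam_t2p1c1 (k - 2) (m - 1) (by omega) (by omega) (by omega) (by omega)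
          (by omega)).cast (by omega) (by omega)
      · exact (fam_t3p1c1 (k - 2) (m - 1) (by omega) (by omega) (by omega) (by omega)
          (by omega)).cast (by omega) (by omega)
      · exact (fam_t4p1c1 (k - 2) (m - 1) (by omega) (by omega) (by omega) (by omega)
          (by omega)).cast (by omega) (by omega)
      · exact (fam_t5p1c1 (k - 2) (m - 1) (by omega) (by omega) (by omega) (by omega)
          (by omega)).cast (by omega) (by omega)
      · exact (fam_t6p1c1 (k - 2) (m - 1) (by omega) (by omega) (by omega) (by omega)
          (by omega)).cast (by omega) (by omega)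

/-- the residue `1` -/
theorem opt_one (k m : ℕ) (hk : 15 ≤ k) (hm : 2 ≤ m) (hmk : m + 1 ≤ k) : Opt (6 * k + 1) m := by
  obtain hp' | hp' : k % 2 = 0 ∨ k % 2 = 1 := by omega
  · obtain hq | hq : (m + k) % 2 = 0 ∨ (m + k) % 2 = 1 := by omega
    · exact (fam_t1p0c1 (k - 3) (m - 1) (by omega) (by omega) (by omega) (by omega)
        (by omega)).cast (by omega) (by omega)
    · exact (fam_t1p0e2 (k - 2) (m - 1) (by omega) (by omega) (by omega) (by omega)
        (by omega)).cast (by omega) (by omega)
  · obtain hq | hq : (m + k) % 2 = 0 ∨ (m + k) % 2 = 1 := by omega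
    · exact (fam_t1p1c1 (k - 3) (m - 1) (by omega) (by omega) (by omega) (by omega)
        (by omega)).cast (by omega) (by omega)
    · exact (fam_t1p1e2 (k - 2) (m - 1) (by omega) (by omega) (by omega) (by omega)
        (by omega)).cast (by omega) (by omega)

end Run7.h243
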