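import Pool.Agent.Run7.h243.Main
import Pool.Agent.Run7.h243.G.Pure
import Pool.Agent.Run7.h243.F.D13_2_0
import Pool.Agent.Run7.h243.F.D14_2_0
import Pool.Agent.Run7.h243.F.D15_2_0
import Pool.Agent.Run7.h243.F.D16_2_0
import Pool.Agent.Run7.h243.F.D17_2_0
import Pool.Agent.Run7.h243.F.D18_2_0
import Pool.Agent.Run7.h243.F.D19_2_0
import Pool.Agent.Run7.h243.F.D19_3_0
import Pool.Agent.Run7.h243.F.D20_1_1
import Pool.Agent.Run7.h243.F.D20_3_0
import Pool.Agent.Run7.h243.F.D21_1_1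
import Pool.Agent.Run7.h243.F.D21_3_0
import Pool.Agent.Run7.h243.F.D22_1_1
import Pool.Agent.Run7.h243.F.D22_2_1
import Pool.Agent.Run7.h243.F.D23_1_1
import Pool.Agent.Run7.h243.F.D23_3_0
import Pool.Agent.Run7.h243.F.D24_1_1
import Pool.Agent.Run7.h243.F.D24_3_0
import Pool.Agent.Run7.h243.F.D25_3_0
import Pool.Agent.Run7.h243.F.D26_1_1
import Pool.Agent.Run7.h243.F.D26_2_1
import Pool.Agent.Run7.h243.F.D26_4_0
import Pool.Agent.Run7.h243.F.D27_1_1
import Pool.Agent.Run7.h243.F.D27_2_1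
import Pool.Agent.Run7.h243.F.D27_4_0
import Pool.Agent.Run7.h243.F.D28_1_1
import Pool.Agent.Run7.h243.F.D28_3_0
import Pool.Agent.Run7.h243.F.D28_4_0
import Pool.Agent.Run7.h243.F.D29_1_1
import Pool.Agent.Run7.h243.F.D29_2_1
import Pool.Agent.Run7.h243.F.D29_4_0
import Pool.Agent.Run7.h243.F.D30_1_1
import Pool.Agent.Run7.h243.F.D30_3_0
import Pool.Agent.Run7.h243.F.D30_4_0
import Pool.Agent.Run7.h243.F.D31_2_0
import Pool.Agent.Run7.h243.F.D31_4_0
import Pool.Agent.Run7.h243.F.D32_2_0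
import Pool.Agent.Run7.h243.F.D32_3_0
import Pool.Agent.Run7.h243.F.D32_4_0
import Pool.Agent.Run7.h243.F.D32_5_0
import Pool.Agent.Run7.h243.F.D33_2_0
import Pool.Agent.Run7.h243.F.D33_3_0
import Pool.Agent.Run7.h243.F.D33_4_0
import Pool.Agent.Run7.h243.F.D33_5_0
import Pool.Agent.Run7.h243.F.D34_2_0
import Pool.Agent.Run7.h243.F.D34_3_0
import Pool.Agent.Run7.h243.F.D34_4_0
import Pool.Agent.Run7.h243.F.D34_5_0
import Pool.Agent.Run7.h243.F.D35_2_0
import Pool.Agent.Run7.h243.F.D35_3_0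
import Pool.Agent.Run7.h243.F.D35_4_0
import Pool.Agent.Run7.h243.F.D35_5_0
import Pool.Agent.Run7.h243.F.D36_2_0
import Pool.Agent.Run7.h243.F.D36_3_0
import Pool.Agent.Run7.h243.F.D36_4_0
import Pool.Agent.Run7.h243.F.D36_5_0
import Pool.Agent.Run7.h243.F.D37_3_0
import Pool.Agent.Run7.h243.F.D37_5_0
import Pool.Agent.Run7.h243.F.D38_1_4
import Pool.Agent.Run7.h243.F.D38_2_0
import Pool.Agent.Run7.h243.F.D38_4_0
import Pool.Agent.Run7.h243.F.D38_6_0
import Pool.Agent.Run7.h243.F.D39_2_0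
import Pool.Agent.Run7.h243.F.D39_3_0
import Pool.Agent.Run7.h243.F.D39_4_0
import Pool.Agent.Run7.h243.F.D39_5_0
import Pool.Agent.Run7.h243.F.D39_6_0
import Pool.Agent.Run7.h243.F.D40_2_0
import Pool.Agent.Run7.h243.F.D40_3_0
import Pool.Agent.Run7.h243.F.D40_4_0
import Pool.Agent.Run7.h243.F.D40_5_0
import Pool.Agent.Run7.h243.F.D40_6_0
import Pool.Agent.Run7.h243.F.D41_2_0
import Pool.Agent.Run7.h243.F.D41_3_0
import Pool.Agent.Run7.h243.F.D41_4_0
import Pool.Agent.Run7.h243.F.D41_5_0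
import Pool.Agent.Run7.h243.F.D41_6_0
import Pool.Agent.Run7.h243.F.D42_1_4
import Pool.Agent.Run7.h243.F.D42_2_0
import Pool.Agent.Run7.h243.F.D42_4_0
import Pool.Agent.Run7.h243.F.D42_6_0
import Pool.Agent.Run7.h243.F.D43_1_5
import Pool.Agent.Run7.h243.F.D44_2_0
import Pool.Agent.Run7.h243.F.D44_3_0
import Pool.Agent.Run7.h243.F.D44_4_0
import Pool.Agent.Run7.h243.F.D44_5_0
import Pool.Agent.Run7.h243.F.D44_6_0
import Pool.Agent.Run7.h243.F.D44_7_0
import Pool.Agent.Run7.h243.F.D45_2_0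
import Pool.Agent.Run7.h243.F.D45_3_0
import Pool.Agent.Run7.h243.F.D45_4_0
import Pool.Agent.Run7.h243.F.D45_5_0
import Pool.Agent.Run7.h243.F.D45_6_0
import Pool.Agent.Run7.h243.F.D45_7_0
import Pool.Agent.Run7.h243.F.D46_2_0
import Pool.Agent.Run7.h243.F.D46_3_0
import Pool.Agent.Run7.h243.F.D46_4_0
import Pool.Agent.Run7.h243.F.D46_5_0
import Pool.Agent.Run7.h243.F.D46_6_0
import Pool.Agent.Run7.h243.F.D46_7_0
import Pool.Agent.Run7.h243.F.D47_1_5
import Pool.Agent.Run7.h243.F.D47_3_0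
import Pool.Agent.Run7.h243.F.D47_5_0
import Pool.Agent.Run7.h243.F.D47_7_0
import Pool.Agent.Run7.h243.F.D48_2_0
import Pool.Agent.Run7.h243.F.D48_3_0
import Pool.Agent.Run7.h243.F.D48_4_0
import Pool.Agent.Run7.h243.F.D48_5_0
import Pool.Agent.Run7.h243.F.D48_6_0
import Pool.Agent.Run7.h243.F.D48_7_0
import Pool.Agent.Run7.h243.F.D49_1_6
import Pool.Agent.Run7.h243.F.D50_1_5
import Pool.Agent.Run7.h243.F.D50_1_6
import Pool.Agent.Run7.h243.F.D50_2_6
import Pool.Agent.Run7.h243.F.D51_1_6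
import Pool.Agent.Run7.h243.F.D51_2_0
import Pool.Agent.Run7.h243.F.D51_2_6
import Pool.Agent.Run7.h243.F.D52_1_5
import Pool.Agent.Run7.h243.F.D52_1_6
import Pool.Agent.Run7.h243.F.D52_4_0
import Pool.Agent.Run7.h243.F.D52_6_0
import Pool.Agent.Run7.h243.F.D52_8_0
import Pool.Agent.Run7.h243.F.D53_1_6
import Pool.Agent.Run7.h243.F.D53_2_0
import Pool.Agent.Run7.h243.F.D53_4_0
import Pool.Agent.Run7.h243.F.D53_6_0
import Pool.Agent.Run7.h243.F.D53_8_0
import Pool.Agent.Run7.h243.F.D54_1_6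
import Pool.Agent.Run7.h243.F.D54_2_0
import Pool.Agent.Run7.h243.F.D54_4_0
import Pool.Agent.Run7.h243.F.D54_6_0
import Pool.Agent.Run7.h243.F.D54_8_0
import Pool.Agent.Run7.h243.F.D55_1_7
import Pool.Agent.Run7.h243.F.D56_1_7
import Pool.Agent.Run7.h243.F.D56_2_7
import Pool.Agent.Run7.h243.F.D57_1_7
import Pool.Agent.Run7.h243.F.D57_2_7
import Pool.Agent.Run7.h243.F.D58_1_7
import Pool.Agent.Run7.h243.F.D58_2_7
import Pool.Agent.Run7.h243.F.D59_1_7
import Pool.Agent.Run7.h243.F.D59_2_7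
import Pool.Agent.Run7.h243.F.D60_1_7
import Pool.Agent.Run7.h243.F.D60_2_7
import Pool.Agent.Run7.h243.F.D61_1_8
import Pool.Agent.Run7.h243.F.D62_1_7
import Pool.Agent.Run7.h243.F.D62_1_8
import Pool.Agent.Run7.h243.F.D62_2_8
import Pool.Agent.Run7.h243.F.D63_1_8
import Pool.Agent.Run7.h243.F.D63_2_0
import Pool.Agent.Run7.h243.F.D63_2_8
import Pool.Agent.Run7.h243.F.D64_1_8
import Pool.Agent.Run7.h243.F.D64_2_0
import Pool.Agent.Run7.h243.F.D64_2_8
import Pool.Agent.Run7.h243.F.D65_1_8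
import Pool.Agent.Run7.h243.F.D65_2_0
import Pool.Agent.Run7.h243.F.D65_2_8
import Pool.Agent.Run7.h243.F.D66_1_8
import Pool.Agent.Run7.h243.F.D66_2_0
import Pool.Agent.Run7.h243.F.D66_2_8
import Pool.Agent.Run7.h243.F.D67_1_9
import Pool.Agent.Run7.h243.F.D68_1_9
import Pool.Agent.Run7.h243.F.D68_2_9
import Pool.Agent.Run7.h243.F.D69_1_9
import Pool.Agent.Run7.h243.F.D69_2_9
import Pool.Agent.Run7.h243.F.D70_1_9
import Pool.Agent.Run7.h243.F.D70_2_9
import Pool.Agent.Run7.h243.F.D71_1_9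
import Pool.Agent.Run7.h243.F.D71_2_9
import Pool.Agent.Run7.h243.F.D72_1_9
import Pool.Agent.Run7.h243.F.D72_2_9
import Pool.Agent.Run7.h243.F.D73_1_10
import Pool.Agent.Run7.h243.F.D74_1_10
import Pool.Agent.Run7.h243.F.D74_1_9
import Pool.Agent.Run7.h243.F.D74_2_10
import Pool.Agent.Run7.h243.F.D75_1_10
import Pool.Agent.Run7.h243.F.D75_1_9
import Pool.Agent.Run7.h243.F.D75_2_10
import Pool.Agent.Run7.h243.F.D76_1_10
import Pool.Agent.Run7.h243.F.D76_1_9
import Pool.Agent.Run7.h243.F.D76_2_10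
import Pool.Agent.Run7.h243.F.D77_1_10
import Pool.Agent.Run7.h243.F.D77_1_9
import Pool.Agent.Run7.h243.F.D77_2_10
import Pool.Agent.Run7.h243.F.D78_1_10
import Pool.Agent.Run7.h243.F.D78_1_9
import Pool.Agent.Run7.h243.F.D78_2_10
import Pool.Agent.Run7.h243.F.D79_1_11
import Pool.Agent.Run7.h243.F.D80_1_11
import Pool.Agent.Run7.h243.F.D80_2_11
import Pool.Agent.Run7.h243.F.D81_1_11
import Pool.Agent.Run7.h243.F.D81_2_11
import Pool.Agent.Run7.h243.F.D82_1_11
import Pool.Agent.Run7.h243.F.D82_2_11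
import Pool.Agent.Run7.h243.F.D83_1_11
import Pool.Agent.Run7.h243.F.D83_2_11
import Pool.Agent.Run7.h243.F.D84_1_11
import Pool.Agent.Run7.h243.F.D84_2_11
import Pool.Agent.Run7.h243.F.D85_1_12
import Pool.Agent.Run7.h243.F.D86_1_11
import Pool.Agent.Run7.h243.F.D86_1_12
import Pool.Agent.Run7.h243.F.D86_2_12
import Pool.Agent.Run7.h243.F.D87_1_11
import Pool.Agent.Run7.h243.F.D87_1_12
import Pool.Agent.Run7.h243.F.D87_2_12
import Pool.Agent.Run7.h243.F.D88_1_11
import Pool.Agent.Run7.h243.F.D88_1_12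
import Pool.Agent.Run7.h243.F.D88_2_12
import Pool.Agent.Run7.h243.F.D89_1_11
import Pool.Agent.Run7.h243.F.D89_1_12
import Pool.Agent.Run7.h243.F.D89_2_12
import Pool.Agent.Run7.h243.F.D90_1_11
import Pool.Agent.Run7.h243.F.D90_1_12
import Pool.Agent.Run7.h243.F.D90_2_12
import Pool.Agent.Run7.h243.F.D91_1_13

/-! All maps with at most `91` countries. -/

namespace Run7.h243

open Run7.B243

theorem sm13 (m : ℕ) (h : 2 ≤ m) (h' : m ≤ 2) : Opt 13 m := by
  interval_cases m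
  · exact D13_2_0.opt2

theorem sm14 (m : ℕ) (h : 2 ≤ m) (h' : m ≤ 2) : Opt 14 m := by
  interval_cases m
  · exact D14_2_0.opt2

theorem sm15 (m : ℕ) (h : 2 ≤ m) (h' : m ≤ 2) : Opt 15 m := by
  interval_cases m
  · exact D15_2_0.opt2

theorem sm16 (m : ℕ) (h : 2 ≤ m) (h' : m ≤ 2) : Opt 16 m := by
  interval_cases m
  · exact D16_2_0.opt2

theorem sm17 (m : ℕ) (h : 2 ≤ m) (h' : m ≤ 2) : Opt 17 m := by
  interval_cases m
  · exact D17_2_0.opt2

theorem sm18 (m : ℕ) (h : 2 ≤ m) (h' : m ≤ 2) : Opt 18 m := by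
  interval_cases m
  · exact D18_2_0.opt2

theorem sm19 (m : ℕ) (h : 2 ≤ m) (h' : m ≤ 3) : Opt 19 m := by
  interval_cases m
  · exact D19_2_0.opt2
  · exact D19_3_0.opt3

theorem sm20 (m : ℕ) (h : 2 ≤ m) (h' : m ≤ 3) : Opt 20 m := by
  interval_cases m
  · exact D20_1_1.opt2
  · exact D20_3_0.opt3

theorem sm21 (m : ℕ) (h : 2 ≤ m) (h' : m ≤ 3) : Opt 21 m := by
  interval_cases m
  · exact D21_1_1.opt2
  · exact D21_3_0.opt3

theorem sm22 (m : ℕ) (h : 2 ≤ m) (h' : m ≤ 3) : Opt 22 m := by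
  interval_cases m
  · exact D22_1_1.opt2
  · exact D22_2_1.opt3

theorem sm23 (m : ℕ) (h : 2 ≤ m) (h' : m ≤ 3) : Opt 23 m := by
  interval_cases m
  · exact D23_1_1.opt2
  · exact D23_3_0.opt3

theorem sm24 (m : ℕ) (h : 2 ≤ m) (h' : m ≤ 3) : Opt 24 m := by
  interval_cases m
  · exact D24_1_1.opt2
  · exact D24_3_0.opt3

theorem sm25 (m : ℕ) (h : 2 ≤ m) (h' : m ≤ 4) : Opt 25 m := by
  interval_cases m
  · exact (G.opt_pure 4 2 (by norm_num) (by norm_num) (by norm_num) (by norm_num)).cast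
      (by norm_num) rfl
  · exact D25_3_0.opt3
  · exact (G.opt_pure 4 4 (by norm_num) (by norm_num) (by norm_num) (by norm_num)).cast
      (by norm_num) rfl

theorem sm26 (m : ℕ) (h : 2 ≤ m) (h' : m ≤ 4) : Opt 26 m := by
  interval_cases m
  · exact D26_1_1.opt2
  · exact D26_2_1.opt3
  · exact D26_4_0.opt4

theorem sm27 (m : ℕ) (h : 2 ≤ m) (h' : m ≤ 4) : Opt 27 m := by
  interval_cases m
  · exact D27_1_1.opt2
  · exact D27_2_1.opt3
  · exact D27_4_0.opt4

theorem sm28 (m : ℕ) (h : 2 ≤ m) (h' : m ≤ 4) : Opt 28 m := by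
  interval_cases m
  · exact D28_1_1.opt2
  · exact D28_3_0.opt3
  · exact D28_4_0.opt4

theorem sm29 (m : ℕ) (h : 2 ≤ m) (h' : m ≤ 4) : Opt 29 m := by
  interval_cases m
  · exact D29_1_1.opt2
  · exact D29_2_1.opt3
  · exact D29_4_0.opt4

theorem sm30 (m : ℕ) (h : 2 ≤ m) (h' : m ≤ 4) : Opt 30 m := by
  interval_cases m
  · exact D30_1_1.opt2
  · exact D30_3_0.opt3
  · exact D30_4_0.opt4

theorem sm31 (m : ℕ) (h : 2 ≤ m) (h' : m ≤ 5) : Opt 31 m := by
  interval_cases m
  · exact D31_2_0.opt2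
  · exact (G.opt_pure 5 3 (by norm_num) (by norm_num) (by norm_num) (by norm_num)).cast
      (by norm_num) rfl
  · exact D31_4_0.opt4
  · exact (G.opt_pure 5 5 (by norm_num) (by norm_num) (by norm_num) (by norm_num)).cast
      (by norm_num) rfl

theorem sm32 (m : ℕ) (h : 2 ≤ m) (h' : m ≤ 5) : Opt 32 m := by
  interval_cases m
  · exact D32_2_0.opt2
  · exact D32_3_0.opt3
  · exact D32_4_0.opt4
  · exact D32_5_0.opt5

theorem sm33 (m : ℕ) (h : 2 ≤ m) (h' : m ≤ 5) : Opt 33 m := by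
  interval_cases m
  · exact D33_2_0.opt2
  · exact D33_3_0.opt3
  · exact D33_4_0.opt4
  · exact D33_5_0.opt5

theorem sm34 (m : ℕ) (h : 2 ≤ m) (h' : m ≤ 5) : Opt 34 m := by
  interval_cases m
  · exact D34_2_0.opt2
  · exact D34_3_0.opt3
  · exact D34_4_0.opt4
  · exact D34_5_0.opt5

theorem sm35 (m : ℕ) (h : 2 ≤ m) (h' : m ≤ 5) : Opt 35 m := by
  interval_cases m
  · exact D35_2_0.opt2
  · exact D35_3_0.opt3
  · exact D35_4_0.opt4
  · exact D35_5_0.opt5

theorem sm36 (m : ℕ) (h : 2 ≤ m) (h' : m ≤ 5) : Opt 36 m := by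
  interval_cases m
  · exact D36_2_0.opt2
  · exact D36_3_0.opt3
  · exact D36_4_0.opt4
  · exact D36_5_0.opt5

theorem sm37 (m : ℕ) (h : 2 ≤ m) (h' : m ≤ 6) : Opt 37 m := by
  interval_cases m
  · exact (G.opt_pure 6 2 (by norm_num) (by norm_num) (by norm_num) (by norm_num)).cast
      (by norm_num) rfl
  · exact D37_3_0.opt3
  · exact (G.opt_pure 6 4 (by norm_num) (by norm_num) (by norm_num) (by norm_num)).cast
      (by norm_num) rfl
  · exact D37_5_0.opt5
  · exact (G.opt_pure 6 6 (by norm_num) (by norm_num) (by norm_num) (by norm_num)).cast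
      (by norm_num) rfl

theorem sm38 (m : ℕ) (h : 2 ≤ m) (h' : m ≤ 6) : Opt 38 m := by
  interval_cases m
  · exact D38_2_0.opt2
  · exact D38_1_4.opt3
  · exact D38_4_0.opt4
  · exact D38_1_4.opt5
  · exact D38_6_0.opt6

theorem sm39 (m : ℕ) (h : 2 ≤ m) (h' : m ≤ 6) : Opt 39 m := by
  interval_cases m
  · exact D39_2_0.opt2
  · exact D39_3_0.opt3
  · exact D39_4_0.opt4
  · exact D39_5_0.opt5
  · exact D39_6_0.opt6

theorem sm40 (m : ℕ) (h : 2 ≤ m) (h' : m ≤ 6) : Opt 40 m := by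
  interval_cases m
  · exact D40_2_0.opt2
  · exact D40_3_0.opt3
  · exact D40_4_0.opt4
  · exact D40_5_0.opt5
  · exact D40_6_0.opt6

theorem sm41 (m : ℕ) (h : 2 ≤ m) (h' : m ≤ 6) : Opt 41 m := by
  interval_cases m
  · exact D41_2_0.opt2
  · exact D41_3_0.opt3
  · exact D41_4_0.opt4
  · exact D41_5_0.opt5
  · exact D41_6_0.opt6

theorem sm42 (m : ℕ) (h : 2 ≤ m) (h' : m ≤ 6) : Opt 42 m := by
  interval_cases m
  · exact D42_2_0.opt2
  · exact D42_1_4.opt3
  · exact D42_4_0.opt4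
  · exact D42_1_4.opt5
  · exact D42_6_0.opt6

theorem sm43 (m : ℕ) (h : 2 ≤ m) (h' : m ≤ 7) : Opt 43 m := by
  interval_cases m
  · exact D43_1_5.opt2
  · exact (G.opt_pure 7 3 (by norm_num) (by norm_num) (by norm_num) (by norm_num)).cast
      (by norm_num) rfl
  · exact D43_1_5.opt4
  · exact (G.opt_pure 7 5 (by norm_num) (by norm_num) (by norm_num) (by norm_num)).cast
      (by norm_num) rfl
  · exact D43_1_5.opt6
  · exact (G.opt_pure 7 7 (by norm_num) (by norm_num) (by norm_num) (by norm_num)).cast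
      (by norm_num) rfl

theorem sm44 (m : ℕ) (h : 2 ≤ m) (h' : m ≤ 7) : Opt 44 m := by
  interval_cases m
  · exact D44_2_0.opt2
  · exact D44_3_0.opt3
  · exact D44_4_0.opt4
  · exact D44_5_0.opt5
  · exact D44_6_0.opt6
  · exact D44_7_0.opt7

theorem sm45 (m : ℕ) (h : 2 ≤ m) (h' : m ≤ 7) : Opt 45 m := by
  interval_cases m
  · exact D45_2_0.opt2
  · exact D45_3_0.opt3
  · exact D45_4_0.opt4
  · exact D45_5_0.opt5
  · exact D45_6_0.opt6
  · exact D45_7_0.opt7

theorem sm46 (m : ℕ) (h : 2 ≤ m) (h' : m ≤ 7) : Opt 46 m := by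
  interval_cases m
  · exact D46_2_0.opt2
  · exact D46_3_0.opt3
  · exact D46_4_0.opt4
  · exact D46_5_0.opt5
  · exact D46_6_0.opt6
  · exact D46_7_0.opt7

theorem sm47 (m : ℕ) (h : 2 ≤ m) (h' : m ≤ 7) : Opt 47 m := by
  interval_cases m
  · exact D47_1_5.opt2
  · exact D47_3_0.opt3
  · exact D47_1_5.opt4
  · exact D47_5_0.opt5
  · exact D47_1_5.opt6
  · exact D47_7_0.opt7

theorem sm48 (m : ℕ) (h : 2 ≤ m) (h' : m ≤ 7) : Opt 48 m := by
  interval_cases m
  · exact D48_2_0.opt2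
  · exact D48_3_0.opt3
  · exact D48_4_0.opt4
  · exact D48_5_0.opt5
  · exact D48_6_0.opt6
  · exact D48_7_0.opt7

theorem sm49 (m : ℕ) (h : 2 ≤ m) (h' : m ≤ 8) : Opt 49 m := by
  interval_cases m
  · exact (G.opt_pure 8 2 (by norm_num) (by norm_num) (by norm_num) (by norm_num)).cast
      (by norm_num) rfl
  · exact D49_1_6.opt3
  · exact (G.opt_pure 8 4 (by norm_num) (by norm_num) (by norm_num) (by norm_num)).cast
      (by norm_num) rfl
  · exact D49_1_6.opt5
  · exact (G.opt_pure 8 6 (by norm_num) (by norm_num) (by norm_num) (by norm_num)).cast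
      (by norm_num) rfl
  · exact D49_1_6.opt7
  · exact (G.opt_pure 8 8 (by norm_num) (by norm_num) (by norm_num) (by norm_num)).cast
      (by norm_num) rfl

theorem sm50 (m : ℕ) (h : 2 ≤ m) (h' : m ≤ 8) : Opt 50 m := by
  interval_cases m
  · exact D50_1_5.opt2
  · exact D50_1_6.opt3
  · exact D50_2_6.opt4
  · exact D50_1_6.opt5
  · exact D50_2_6.opt6
  · exact D50_1_6.opt7
  · exact D50_2_6.opt8

theorem sm51 (m : ℕ) (h : 2 ≤ m) (h' : m ≤ 8) : Opt 51 m := by
  interval_cases m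
  · exact D51_2_0.opt2
  · exact D51_1_6.opt3
  · exact D51_2_6.opt4
  · exact D51_1_6.opt5
  · exact D51_2_6.opt6
  · exact D51_1_6.opt7
  · exact D51_2_6.opt8

theorem sm52 (m : ℕ) (h : 2 ≤ m) (h' : m ≤ 8) : Opt 52 m := by
  interval_cases m
  · exact D52_1_5.opt2
  · exact D52_1_6.opt3
  · exact D52_4_0.opt4
  · exact D52_1_6.opt5
  · exact D52_6_0.opt6
  · exact D52_1_6.opt7
  · exact D52_8_0.opt8

theorem sm53 (m : ℕ) (h : 2 ≤ m) (h' : m ≤ 8) : Opt 53 m := by
  interval_cases m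
  · exact D53_2_0.opt2
  · exact D53_1_6.opt3
  · exact D53_4_0.opt4
  · exact D53_1_6.opt5
  · exact D53_6_0.opt6
  · exact D53_1_6.opt7
  · exact D53_8_0.opt8

theorem sm54 (m : ℕ) (h : 2 ≤ m) (h' : m ≤ 8) : Opt 54 m := by
  interval_cases m
  · exact D54_2_0.opt2
  · exact D54_1_6.opt3
  · exact D54_4_0.opt4
  · exact D54_1_6.opt5
  · exact D54_6_0.opt6
  · exact D54_1_6.opt7
  · exact D54_8_0.opt8

theorem sm55 (m : ℕ) (h : 2 ≤ m) (h' : m ≤ 9) : Opt 55 m := by
  interval_cases m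
  · exact D55_1_7.opt2
  · exact (G.opt_pure 9 3 (by norm_num) (by norm_num) (by norm_num) (by norm_num)).cast
      (by norm_num) rfl
  · exact D55_1_7.opt4
  · exact (G.opt_pure 9 5 (by norm_num) (by norm_num) (by norm_num) (by norm_num)).cast
      (by norm_num) rfl
  · exact D55_1_7.opt6
  · exact (G.opt_pure 9 7 (by norm_num) (by norm_num) (by norm_num) (by norm_num)).cast
      (by norm_num) rfl
  · exact D55_1_7.opt8
  · exact (G.opt_pure 9 9 (by norm_num) (by norm_num) (by norm_num) (by norm_num)).cast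
      (by norm_num) rfl

theorem sm56 (m : ℕ) (h : 2 ≤ m) (h' : m ≤ 9) : Opt 56 m := by
  interval_cases m
  · exact D56_1_7.opt2
  · exact D56_2_7.opt3
  · exact D56_1_7.opt4
  · exact D56_2_7.opt5
  · exact D56_1_7.opt6
  · exact D56_2_7.opt7
  · exact D56_1_7.opt8
  · exact D56_2_7.opt9

theorem sm57 (m : ℕ) (h : 2 ≤ m) (h' : m ≤ 9) : Opt 57 m := by
  interval_cases m
  · exact D57_1_7.opt2
  · exact D57_2_7.opt3
  · exact D57_1_7.opt4
  · exact D57_2_7.opt5
  · exact D57_1_7.opt6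
  · exact D57_2_7.opt7
  · exact D57_1_7.opt8
  · exact D57_2_7.opt9

theorem sm58 (m : ℕ) (h : 2 ≤ m) (h' : m ≤ 9) : Opt 58 m := by
  interval_cases m
  · exact D58_1_7.opt2
  · exact D58_2_7.opt3
  · exact D58_1_7.opt4
  · exact D58_2_7.opt5
  · exact D58_1_7.opt6
  · exact D58_2_7.opt7
  · exact D58_1_7.opt8
  · exact D58_2_7.opt9

theorem sm59 (m : ℕ) (h : 2 ≤ m) (h' : m ≤ 9) : Opt 59 m := by
  interval_cases m
  · exact D59_1_7.opt2
  · exact D59_2_7.opt3
  · exact D59_1_7.opt4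
  · exact D59_2_7.opt5
  · exact D59_1_7.opt6
  · exact D59_2_7.opt7
  · exact D59_1_7.opt8
  · exact D59_2_7.opt9

theorem sm60 (m : ℕ) (h : 2 ≤ m) (h' : m ≤ 9) : Opt 60 m := by
  interval_cases m
  · exact D60_1_7.opt2
  · exact D60_2_7.opt3
  · exact D60_1_7.opt4
  · exact D60_2_7.opt5
  · exact D60_1_7.opt6
  · exact D60_2_7.opt7
  · exact D60_1_7.opt8
  · exact D60_2_7.opt9

theorem sm61 (m : ℕ) (h : 2 ≤ m) (h' : m ≤ 10) : Opt 61 m := by
  interval_cases m
  · exact (G.opt_pure 10 2 (by norm_num) (by norm_num) (by norm_num) (by norm_num)).cast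
      (by norm_num) rfl
  · exact D61_1_8.opt3
  · exact (G.opt_pure 10 4 (by norm_num) (by norm_num) (by norm_num) (by norm_num)).cast
      (by norm_num) rfl
  · exact D61_1_8.opt5
  · exact (G.opt_pure 10 6 (by norm_num) (by norm_num) (by norm_num) (by norm_num)).cast
      (by norm_num) rfl
  · exact D61_1_8.opt7
  · exact (G.opt_pure 10 8 (by norm_num) (by norm_num) (by norm_num) (by norm_num)).cast
      (by norm_num) rfl
  · exact D61_1_8.opt9
  · exact (G.opt_pure 10 10 (by norm_num) (by norm_num) (by norm_num) (by norm_num)).cast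
      (by norm_num) rfl

theorem sm62 (m : ℕ) (h : 2 ≤ m) (h' : m ≤ 10) : Opt 62 m := by
  interval_cases m
  · exact D62_1_7.opt2
  · exact D62_1_8.opt3
  · exact D62_2_8.opt4
  · exact D62_1_8.opt5
  · exact D62_2_8.opt6
  · exact D62_1_8.opt7
  · exact D62_2_8.opt8
  · exact D62_1_8.opt9
  · exact D62_2_8.opt10

theorem sm63 (m : ℕ) (h : 2 ≤ m) (h' : m ≤ 10) : Opt 63 m := by
  interval_cases m
  · exact D63_2_0.opt2
  · exact D63_1_8.opt3
  · exact D63_2_8.opt4
  · exact D63_1_8.opt5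
  · exact D63_2_8.opt6
  · exact D63_1_8.opt7
  · exact D63_2_8.opt8
  · exact D63_1_8.opt9
  · exact D63_2_8.opt10

theorem sm64 (m : ℕ) (h : 2 ≤ m) (h' : m ≤ 10) : Opt 64 m := by
  interval_cases m
  · exact D64_2_0.opt2
  · exact D64_1_8.opt3
  · exact D64_2_8.opt4
  · exact D64_1_8.opt5
  · exact D64_2_8.opt6
  · exact D64_1_8.opt7
  · exact D64_2_8.opt8
  · exact D64_1_8.opt9
  · exact D64_2_8.opt10

theorem sm65 (m : ℕ) (h : 2 ≤ m) (h' : m ≤ 10) : Opt 65 m := by
  interval_cases m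
  · exact D65_2_0.opt2
  · exact D65_1_8.opt3
  · exact D65_2_8.opt4
  · exact D65_1_8.opt5
  · exact D65_2_8.opt6
  · exact D65_1_8.opt7
  · exact D65_2_8.opt8
  · exact D65_1_8.opt9
  · exact D65_2_8.opt10

theorem sm66 (m : ℕ) (h : 2 ≤ m) (h' : m ≤ 10) : Opt 66 m := by
  interval_cases m
  · exact D66_2_0.opt2
  · exact D66_1_8.opt3
  · exact D66_2_8.opt4
  · exact D66_1_8.opt5
  · exact D66_2_8.opt6
  · exact D66_1_8.opt7
  · exact D66_2_8.opt8
  · exact D66_1_8.opt9
  · exact D66_2_8.opt10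

theorem sm67 (m : ℕ) (h : 2 ≤ m) (h' : m ≤ 11) : Opt 67 m := by
  interval_cases m
  · exact D67_1_9.opt2
  · exact (G.opt_pure 11 3 (by norm_num) (by norm_num) (by norm_num) (by norm_num)).cast
      (by norm_num) rfl
  · exact D67_1_9.opt4
  · exact (G.opt_pure 11 5 (by norm_num) (by norm_num) (by norm_num) (by norm_num)).cast
      (by norm_num) rfl
  · exact D67_1_9.opt6
  · exact (G.opt_pure 11 7 (by norm_num) (by norm_num) (by norm_num) (by norm_num)).cast
      (by norm_num) rfl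
  · exact D67_1_9.opt8
  · exact (G.opt_pure 11 9 (by norm_num) (by norm_num) (by norm_num) (by norm_num)).cast
      (by norm_num) rfl
  · exact D67_1_9.opt10
  · exact (G.opt_pure 11 11 (by norm_num) (by norm_num) (by norm_num) (by norm_num)).cast
      (by norm_num) rfl

theorem sm68 (m : ℕ) (h : 2 ≤ m) (h' : m ≤ 11) : Opt 68 m := by
  interval_cases m
  · exact D68_1_9.opt2
  · exact D68_2_9.opt3
  · exact D68_1_9.opt4
  · exact D68_2_9.opt5
  · exact D68_1_9.opt6
  · exact D68_2_9.opt7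
  · exact D68_1_9.opt8
  · exact D68_2_9.opt9
  · exact D68_1_9.opt10
  · exact D68_2_9.opt11

theorem sm69 (m : ℕ) (h : 2 ≤ m) (h' : m ≤ 11) : Opt 69 m := by
  interval_cases m
  · exact D69_1_9.opt2
  · exact D69_2_9.opt3
  · exact D69_1_9.opt4
  · exact D69_2_9.opt5
  · exact D69_1_9.opt6
  · exact D69_2_9.opt7
  · exact D69_1_9.opt8
  · exact D69_2_9.opt9
  · exact D69_1_9.opt10
  · exact D69_2_9.opt11

theorem sm70 (m : ℕ) (h : 2 ≤ m) (h' : m ≤ 11) : Opt 70 m := by
  interval_cases m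
  · exact D70_1_9.opt2
  · exact D70_2_9.opt3
  · exact D70_1_9.opt4
  · exact D70_2_9.opt5
  · exact D70_1_9.opt6
  · exact D70_2_9.opt7
  · exact D70_1_9.opt8
  · exact D70_2_9.opt9
  · exact D70_1_9.opt10
  · exact D70_2_9.opt11

theorem sm71 (m : ℕ) (h : 2 ≤ m) (h' : m ≤ 11) : Opt 71 m := by
  interval_cases m
  · exact D71_1_9.opt2
  · exact D71_2_9.opt3
  · exact D71_1_9.opt4
  · exact D71_2_9.opt5
  · exact D71_1_9.opt6
  · exact D71_2_9.opt7
  · exact D71_1_9.opt8
  · exact D71_2_9.opt9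
  · exact D71_1_9.opt10
  · exact D71_2_9.opt11

theorem sm72 (m : ℕ) (h : 2 ≤ m) (h' : m ≤ 11) : Opt 72 m := by
  interval_cases m
  · exact D72_1_9.opt2
  · exact D72_2_9.opt3
  · exact D72_1_9.opt4
  · exact D72_2_9.opt5
  · exact D72_1_9.opt6
  · exact D72_2_9.opt7
  · exact D72_1_9.opt8
  · exact D72_2_9.opt9
  · exact D72_1_9.opt10
  · exact D72_2_9.opt11

theorem sm73 (m : ℕ) (h : 2 ≤ m) (h' : m ≤ 12) : Opt 73 m := by
  interval_cases m
  · exact (G.opt_pure 12 2 (by norm_num) (by norm_num) (by norm_num) (by norm_num)).cast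
      (by norm_num) rfl
  · exact D73_1_10.opt3
  · exact (G.opt_pure 12 4 (by norm_num) (by norm_num) (by norm_num) (by norm_num)).cast
      (by norm_num) rfl
  · exact D73_1_10.opt5
  · exact (G.opt_pure 12 6 (by norm_num) (by norm_num) (by norm_num) (by norm_num)).cast
      (by norm_num) rfl
  · exact D73_1_10.opt7
  · exact (G.opt_pure 12 8 (by norm_num) (by norm_num) (by norm_num) (by norm_num)).cast
      (by norm_num) rfl
  · exact D73_1_10.opt9
  · exact (G.opt_pure 12 10 (by norm_num) (by norm_num) (by norm_num) (by norm_num)).cast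
      (by norm_num) rfl
  · exact D73_1_10.opt11
  · exact (G.opt_pure 12 12 (by norm_num) (by norm_num) (by norm_num) (by norm_num)).cast
      (by norm_num) rfl

theorem sm74 (m : ℕ) (h : 2 ≤ m) (h' : m ≤ 12) : Opt 74 m := by
  interval_cases m
  · exact D74_1_9.opt2
  · exact D74_1_10.opt3
  · exact D74_2_10.opt4
  · exact D74_1_10.opt5
  · exact D74_2_10.opt6
  · exact D74_1_10.opt7
  · exact D74_2_10.opt8
  · exact D74_1_10.opt9
  · exact D74_2_10.opt10
  · exact D74_1_10.opt11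
  · exact D74_2_10.opt12

theorem sm75 (m : ℕ) (h : 2 ≤ m) (h' : m ≤ 12) : Opt 75 m := by
  interval_cases m
  · exact D75_1_9.opt2
  · exact D75_1_10.opt3
  · exact D75_2_10.opt4
  · exact D75_1_10.opt5
  · exact D75_2_10.opt6
  · exact D75_1_10.opt7
  · exact D75_2_10.opt8
  · exact D75_1_10.opt9
  · exact D75_2_10.opt10
  · exact D75_1_10.opt11
  · exact D75_2_10.opt12

theorem sm76 (m : ℕ) (h : 2 ≤ m) (h' : m ≤ 12) : Opt 76 m := by
  interval_cases m
  · exact D76_1_9.opt2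
  · exact D76_1_10.opt3
  · exact D76_2_10.opt4
  · exact D76_1_10.opt5
  · exact D76_2_10.opt6
  · exact D76_1_10.opt7
  · exact D76_2_10.opt8
  · exact D76_1_10.opt9
  · exact D76_2_10.opt10
  · exact D76_1_10.opt11
  · exact D76_2_10.opt12

theorem sm77 (m : ℕ) (h : 2 ≤ m) (h' : m ≤ 12) : Opt 77 m := by
  interval_cases m
  · exact D77_1_9.opt2
  · exact D77_1_10.opt3
  · exact D77_2_10.opt4
  · exact D77_1_10.opt5
  · exact D77_2_10.opt6
  · exact D77_1_10.opt7
  · exact D77_2_10.opt8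
  · exact D77_1_10.opt9
  · exact D77_2_10.opt10
  · exact D77_1_10.opt11
  · exact D77_2_10.opt12

theorem sm78 (m : ℕ) (h : 2 ≤ m) (h' : m ≤ 12) : Opt 78 m := by
  interval_cases m
  · exact D78_1_9.opt2
  · exact D78_1_10.opt3
  · exact D78_2_10.opt4
  · exact D78_1_10.opt5
  · exact D78_2_10.opt6
  · exact D78_1_10.opt7
  · exact D78_2_10.opt8
  · exact D78_1_10.opt9
  · exact D78_2_10.opt10
  · exact D78_1_10.opt11
  · exact D78_2_10.opt12

theorem sm79 (m : ℕ) (h : 2 ≤ m) (h' : m ≤ 13) : Opt 79 m := by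
  interval_cases m
  · exact D79_1_11.opt2
  · exact (G.opt_pure 13 3 (by norm_num) (by norm_num) (by norm_num) (by norm_num)).cast
      (by norm_num) rfl
  · exact D79_1_11.opt4
  · exact (G.opt_pure 13 5 (by norm_num) (by norm_num) (by norm_num) (by norm_num)).cast
      (by norm_num) rfl
  · exact D79_1_11.opt6
  · exact (G.opt_pure 13 7 (by norm_num) (by norm_num) (by norm_num) (by norm_num)).cast
      (by norm_num) rfl
  · exact D79_1_11.opt8
  · exact (G.opt_pure 13 9 (by norm_num) (by norm_num) (by norm_num) (by norm_num)).cast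
      (by norm_num) rfl
  · exact D79_1_11.opt10
  · exact (G.opt_pure 13 11 (by norm_num) (by norm_num) (by norm_num) (by norm_num)).cast
      (by norm_num) rfl
  · exact D79_1_11.opt12
  · exact (G.opt_pure 13 13 (by norm_num) (by norm_num) (by norm_num) (by norm_num)).cast
      (by norm_num) rfl

theorem sm80 (m : ℕ) (h : 2 ≤ m) (h' : m ≤ 13) : Opt 80 m := by
  interval_cases m
  · exact D80_1_11.opt2
  · exact D80_2_11.opt3
  · exact D80_1_11.opt4
  · exact D80_2_11.opt5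
  · exact D80_1_11.opt6
  · exact D80_2_11.opt7
  · exact D80_1_11.opt8
  · exact D80_2_11.opt9
  · exact D80_1_11.opt10
  · exact D80_2_11.opt11
  · exact D80_1_11.opt12
  · exact D80_2_11.opt13

theorem sm81 (m : ℕ) (h : 2 ≤ m) (h' : m ≤ 13) : Opt 81 m := by
  interval_cases m
  · exact D81_1_11.opt2
  · exact D81_2_11.opt3
  · exact D81_1_11.opt4
  · exact D81_2_11.opt5
  · exact D81_1_11.opt6
  · exact D81_2_11.opt7
  · exact D81_1_11.opt8
  · exact D81_2_11.opt9
  · exact D81_1_11.opt10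
  · exact D81_2_11.opt11
  · exact D81_1_11.opt12
  · exact D81_2_11.opt13

theorem sm82 (m : ℕ) (h : 2 ≤ m) (h' : m ≤ 13) : Opt 82 m := by
  interval_cases m
  · exact D82_1_11.opt2
  · exact D82_2_11.opt3
  · exact D82_1_11.opt4
  · exact D82_2_11.opt5
  · exact D82_1_11.opt6
  · exact D82_2_11.opt7
  · exact D82_1_11.opt8
  · exact D82_2_11.opt9
  · exact D82_1_11.opt10
  · exact D82_2_11.opt11
  · exact D82_1_11.opt12
  · exact D82_2_11.opt13

theorem sm83 (m : ℕ) (h : 2 ≤ m) (h' : m ≤ 13) : Opt 83 m := by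
  interval_cases m
  · exact D83_1_11.opt2
  · exact D83_2_11.opt3
  · exact D83_1_11.opt4
  · exact D83_2_11.opt5
  · exact D83_1_11.opt6
  · exact D83_2_11.opt7
  · exact D83_1_11.opt8
  · exact D83_2_11.opt9
  · exact D83_1_11.opt10
  · exact D83_2_11.opt11
  · exact D83_1_11.opt12
  · exact D83_2_11.opt13

theorem sm84 (m : ℕ) (h : 2 ≤ m) (h' : m ≤ 13) : Opt 84 m := by
  interval_cases m
  · exact D84_1_11.opt2
  · exact D84_2_11.opt3
  · exact D84_1_11.opt4
  · exact D84_2_11.opt5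
  · exact D84_1_11.opt6
  · exact D84_2_11.opt7
  · exact D84_1_11.opt8
  · exact D84_2_11.opt9
  · exact D84_1_11.opt10
  · exact D84_2_11.opt11
  · exact D84_1_11.opt12
  · exact D84_2_11.opt13

theorem sm85 (m : ℕ) (h : 2 ≤ m) (h' : m ≤ 14) : Opt 85 m := by
  interval_cases m
  · exact (G.opt_pure 14 2 (by norm_num) (by norm_num) (by norm_num) (by norm_num)).cast
      (by norm_num) rfl
  · exact D85_1_12.opt3
  · exact (G.opt_pure 14 4 (by norm_num) (by norm_num) (by norm_num) (by norm_num)).cast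
      (by norm_num) rfl
  · exact D85_1_12.opt5
  · exact (G.opt_pure 14 6 (by norm_num) (by norm_num) (by norm_num) (by norm_num)).cast
      (by norm_num) rfl
  · exact D85_1_12.opt7
  · exact (G.opt_pure 14 8 (by norm_num) (by norm_num) (by norm_num) (by norm_num)).cast
      (by norm_num) rfl
  · exact D85_1_12.opt9
  · exact (G.opt_pure 14 10 (by norm_num) (by norm_num) (by norm_num) (by norm_num)).cast
      (by norm_num) rfl
  · exact D85_1_12.opt11
  · exact (G.opt_pure 14 12 (by norm_num) (by norm_num) (by norm_num) (by norm_num)).cast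
      (by norm_num) rfl
  · exact D85_1_12.opt13
  · exact (G.opt_pure 14 14 (by norm_num) (by norm_num) (by norm_num) (by norm_num)).cast
      (by norm_num) rfl

theorem sm86 (m : ℕ) (h : 2 ≤ m) (h' : m ≤ 14) : Opt 86 m := by
  interval_cases m
  · exact D86_1_11.opt2
  · exact D86_1_12.opt3
  · exact D86_2_12.opt4
  · exact D86_1_12.opt5
  · exact D86_2_12.opt6
  · exact D86_1_12.opt7
  · exact D86_2_12.opt8
  · exact D86_1_12.opt9
  · exact D86_2_12.opt10
  · exact D86_1_12.opt11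
  · exact D86_2_12.opt12
  · exact D86_1_12.opt13
  · exact D86_2_12.opt14

theorem sm87 (m : ℕ) (h : 2 ≤ m) (h' : m ≤ 14) : Opt 87 m := by
  interval_cases m
  · exact D87_1_11.opt2
  · exact D87_1_12.opt3
  · exact D87_2_12.opt4
  · exact D87_1_12.opt5
  · exact D87_2_12.opt6
  · exact D87_1_12.opt7
  · exact D87_2_12.opt8
  · exact D87_1_12.opt9
  · exact D87_2_12.opt10
  · exact D87_1_12.opt11
  · exact D87_2_12.opt12
  · exact D87_1_12.opt13
  · exact D87_2_12.opt14

theorem sm88 (m : ℕ) (h : 2 ≤ m) (h' : m ≤ 14) : Opt 88 m := by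
  interval_cases m
  · exact D88_1_11.opt2
  · exact D88_1_12.opt3
  · exact D88_2_12.opt4
  · exact D88_1_12.opt5
  · exact D88_2_12.opt6
  · exact D88_1_12.opt7
  · exact D88_2_12.opt8
  · exact D88_1_12.opt9
  · exact D88_2_12.opt10
  · exact D88_1_12.opt11
  · exact D88_2_12.opt12
  · exact D88_1_12.opt13
  · exact D88_2_12.opt14

theorem sm89 (m : ℕ) (h : 2 ≤ m) (h' : m ≤ 14) : Opt 89 m := by
  interval_cases m
  · exact D89_1_11.opt2
  · exact D89_1_12.opt3
  · exact D89_2_12.opt4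
  · exact D89_1_12.opt5
  · exact D89_2_12.opt6
  · exact D89_1_12.opt7
  · exact D89_2_12.opt8
  · exact D89_1_12.opt9
  · exact D89_2_12.opt10
  · exact D89_1_12.opt11
  · exact D89_2_12.opt12
  · exact D89_1_12.opt13
  · exact D89_2_12.opt14

theorem sm90 (m : ℕ) (h : 2 ≤ m) (h' : m ≤ 14) : Opt 90 m := by
  interval_cases m
  · exact D90_1_11.opt2
  · exact D90_1_12.opt3
  · exact D90_2_12.opt4
  · exact D90_1_12.opt5
  · exact D90_2_12.opt6
  · exact D90_1_12.opt7
  · exact D90_2_12.opt8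
  · exact D90_1_12.opt9
  · exact D90_2_12.opt10
  · exact D90_1_12.opt11
  · exact D90_2_12.opt12
  · exact D90_1_12.opt13
  · exact D90_2_12.opt14

theorem sm91 (m : ℕ) (h : 2 ≤ m) (h' : m ≤ 15) : Opt 91 m := by
  interval_cases m
  · exact D91_1_13.opt2
  · exact (G.opt_pure 15 3 (by norm_num) (by norm_num) (by norm_num) (by norm_num)).cast
      (by norm_num) rfl
  · exact D91_1_13.opt4
  · exact (G.opt_pure 15 5 (by norm_num) (by norm_num) (by norm_num) (by norm_num)).cast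
      (by norm_num) rfl
  · exact D91_1_13.opt6
  · exact (G.opt_pure 15 7 (by norm_num) (by norm_num) (by norm_num) (by norm_num)).cast
      (by norm_num) rfl
  · exact D91_1_13.opt8
  · exact (G.opt_pure 15 9 (by norm_num) (by norm_num) (by norm_num) (by norm_num)).cast
      (by norm_num) rfl
  · exact D91_1_13.opt10
  · exact (G.opt_pure 15 11 (by norm_num) (by norm_num) (by norm_num) (by norm_num)).cast
      (by norm_num) rfl
  · exact D91_1_13.opt12
  · exact (G.opt_pure 15 13 (by norm_num) (by norm_num) (by norm_num) (by norm_num)).cast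
      (by norm_num) rfl
  · exact D91_1_13.opt14
  · exact (G.opt_pure 15 15 (by norm_num) (by norm_num) (by norm_num) (by norm_num)).cast
      (by norm_num) rfl

/-- all maps with at most `91` countries -/
theorem opt_small (n m : ℕ) (hn : 13 ≤ n) (hn' : n ≤ 91) (hm : 2 ≤ m) (hnm : 6 * m + 1 ≤ n) :
    Opt n m := by
  interval_cases n
  · exact sm13 m hm (by omega)
  · exact sm14 m hm (by omega)
  · exact sm15 m hm (by omega)
  · exact sm16 m hm (by omega)
  · exact sm17 m hm (by omega)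
  · exact sm18 m hm (by omega)
  · exact sm19 m hm (by omega)
  · exact sm20 m hm (by omega)
  · exact sm21 m hm (by omega)
  · exact sm22 m hm (by omega)
  · exact sm23 m hm (by omega)
  · exact sm24 m hm (by omega)
  · exact sm25 m hm (by omega)
  · exact sm26 m hm (by omega)
  · exact sm27 m hm (by omega)
  · exact sm28 m hm (by omega)
  · exact sm29 m hm (by omega)
  · exact sm30 m hm (by omega)
  · exact sm31 m hm (by omega)
  · exact sm32 m hm (by omega)
  · exact sm33 m hm (by omega)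
  · exact sm34 m hm (by omega)
  · exact sm35 m hm (by omega)
  · exact sm36 m hm (by omega)
  · exact sm37 m hm (by omega)
  · exact sm38 m hm (by omega)
  · exact sm39 m hm (by omega)
  · exact sm40 m hm (by omega)
  · exact sm41 m hm (by omega)
  · exact sm42 m hm (by omega)
  · exact sm43 m hm (by omega)
  · exact sm44 m hm (by omega)
  · exact sm45 m hm (by omega)
  · exact sm46 m hm (by omega)
  · exact sm47 m hm (by omega)
  · exact sm48 m hm (by omega)
  · exact sm49 m hm (by omega)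
  · exact sm50 m hm (by omega)
  · exact sm51 m hm (by omega)
  · exact sm52 m hm (by omega)
  · exact sm53 m hm (by omega)
  · exact sm54 m hm (by omega)
  · exact sm55 m hm (by omega)
  · exact sm56 m hm (by omega)
  · exact sm57 m hm (by omega)
  · exact sm58 m hm (by omega)
  · exact sm59 m hm (by omega)
  · exact sm60 m hm (by omega)
  · exact sm61 m hm (by omega)
  · exact sm62 m hm (by omega)
  · exact sm63 m hm (by omega)
  · exact sm64 m hm (by omega)
  · exact sm65 m hm (by omega)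
  · exact sm66 m hm (by omega)
  · exact sm67 m hm (by omega)
  · exact sm68 m hm (by omega)
  · exact sm69 m hm (by omega)
  · exact sm70 m hm (by omega)
  · exact sm71 m hm (by omega)
  · exact sm72 m hm (by omega)
  · exact sm73 m hm (by omega)
  · exact sm74 m hm (by omega)
  · exact sm75 m hm (by omega)
  · exact sm76 m hm (by omega)
  · exact sm77 m hm (by omega)
  · exact sm78 m hm (by omega)
  · exact sm79 m hm (by omega)
  · exact sm80 m hm (by omega)
  · exact sm81 m hm (by omega)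
  · exact sm82 m hm (by omega)
  · exact sm83 m hm (by omega)
  · exact sm84 m hm (by omega)
  · exact sm85 m hm (by omega)
  · exact sm86 m hm (by omega)
  · exact sm87 m hm (by omega)
  · exact sm88 m hm (by omega)
  · exact sm89 m hm (by omega)
  · exact sm90 m hm (by omega)
  · exact sm91 m hm (by omega)

end Run7.h243
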