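import Pool.Agent.Run7.h243.Chain

set_option linter.unusedSectionVars false
set_option linter.unusedSimpArgs false

/-! Values of the arcs and connectivity. -/

namespace Run7.h243

open Equiv Run7.B243

/-- values on the core: `A c + B c * l`, with `M = 2 * l + e` -/
structure CoreV where
  A : Fin 48 → ℤ
  B : Fin 48 → ℤ
  e : ℕ
  cv : ℕ → Fin 48

/-- expected values (constant, slope) of the twenty-one arcs -/
def expA (e k : ℕ) : ℤ :=
  if k < 7 then (5 + e : ℤ) + 1 + k else if k < 10 then 2 * (5 + e : ℤ) + 9 + (k - 7) else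
  if k < 13 then 3 * (5 + e : ℤ) + 13 + (k - 10) else
  if k < 17 then 2 * (5 + e : ℤ) + 13 + (k - 13) else (5 + e : ℤ) + 9 + (k - 17)

def expB (k : ℕ) : ℤ :=
  if k < 7 then 2 else if k < 10 then 4 else if k < 13 then 6 else if k < 17 then 5 else 3

structure Okv (K : Core) (V : CoreV) : Prop where
  he : V.e ≤ 1
  sA : ∀ c, V.A c + V.A (K.tau c) + V.A (K.tau (K.tau c)) = 0
  sB : ∀ c, V.B c + V.B (K.tau c) + V.B (K.tau (K.tau c)) = 0
  nA : ∀ c, K.inner c → V.A (K.nu c) = - V.A c
  nB : ∀ c, K.inner c → V.B (K.nu c) = - V.B c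
  aT : V.A K.aT = 3 * (5 + V.e) + 12 ∧ V.B K.aT = 6
  bT : V.A K.bT = - (2 * (5 + V.e) + 12 + 5 * V.e) ∧ V.B K.bT = -5
  aU : V.A K.aU = - (2 * (5 + V.e) + 8) ∧ V.B K.aU = -4
  bU : V.A K.bU = (5 + V.e) + 8 + 5 * V.e ∧ V.B K.bU = 3
  two : V.A 0 = 2 ∧ V.B 0 = 0
  cov : ∀ k < 21, (V.A (V.cv k) = expA V.e k ∧ V.B (V.cv k) = expB k) ∨
    (V.A (V.cv k) = - expA V.e k ∧ V.B (V.cv k) = - expB k)

variable (K : Core) (V : CoreV) (l : ℕ)

/-- values on the rail -/
def tt (r : ℤ) (i : ℕ) : ℤ := if i % 2 = 0 then 3 * r + 12 - (i / 2 : ℕ) else 2 * r + 12 + (i / 2 : ℕ)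

/-- the value of an arc -/
def vl (M : ℕ) : LL M → ℤ
  | Sum.inl c => V.A c + V.B c * l
  | Sum.inr (i, K6.tp) => - tt (M + 5) i.val
  | Sum.inr (i, K6.tn) => tt (M + 5) (i.val + 1)
  | Sum.inr (i, K6.tr) => tt (M + 5) i.val - tt (M + 5) (i.val + 1)
  | Sum.inr (i, K6.up) => tt (M + 5) i.val - (M + 9)
  | Sum.inr (i, K6.un) => - (tt (M + 5) (i.val + 1) - (M + 9))
  | Sum.inr (i, K6.ur) => - (tt (M + 5) i.val - tt (M + 5) (i.val + 1))

variable {K V l} {M : ℕ} (hK : K.Ok) (hV : Okv K V) (hM : M = 2 * l + V.e)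

include hV in
theorem vl_tri : Tri (vl V l M) (ptau hK M) := by
  refine ⟨fun x => ltau3 hK x, ?_, ?_⟩
  · intro x
    change ltau K M x ≠ x
    rcases x with c | ⟨i, k⟩
    · intro h; exact hK.taune c (Sum.inl.inj h)
    · intro h
      have := congrArg Prod.snd (Sum.inr.inj h)
      exact tk_ne k this
  · intro x
    change vl V l M x + vl V l M (ltau K M x) + vl V l M (ltau K M (ltau K M x)) = 0
    rcases x with c | ⟨i, k⟩
    · simp only [ltau, vl]
      have h1 := hV.sA c
      have h2 := hV.sB c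
      linear_combination h1 + (l : ℤ) * h2
    · cases k <;> simp only [ltau, vl, tk] <;> ring

include hK hV hM in
theorem vl_nu (x : LL M) : vl V l M (lnu K M x) = - vl V l M x := by
  have he := hV.he
  have e0 : tt ((M : ℤ) + 5) 0 = 3 * (5 + V.e) + 12 + 6 * l := by
    simp only [tt]; subst hM; push_cast; norm_num; try ring
  have eM : tt ((M : ℤ) + 5) (M + 1) = 2 * (5 + V.e) + 12 + 5 * V.e + 5 * l := by
    simp only [tt]; subst hM
    interval_cases V.e
    · rw [if_neg (by omega), show (2 * l + 0 + 1) / 2 = l by omega]; push_cast; ring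
    · rw [if_pos (by omega), show (2 * l + 1 + 1) / 2 = l + 1 by omega]; push_cast; ring
  have hM' : (M : ℤ) = 2 * l + V.e := by rw [hM]; push_cast; ring
  rcases x with c | ⟨i, k⟩
  · rcases core_cases (K := K) c with rfl | rfl | rfl | rfl | h
    · rw [lnu_aT]
      simp only [vl, hV.aT.1, hV.aT.2, Fin.val_zero]
      rw [e0]
    · rw [lnu_bT hK]
      simp only [vl, hV.bT.1, hV.bT.2, Fin.val_last]
      rw [eM]; ring
    · rw [lnu_aU hK]
      simp only [vl, hV.aU.1, hV.aU.2, Fin.val_zero]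
      rw [e0, hM']; ring
    · rw [lnu_bU hK]
      simp only [vl, hV.bU.1, hV.bU.2, Fin.val_last]
      rw [eM, hM']; ring
    · rw [lnu_in h]
      simp only [vl, hV.nA c h, hV.nB c h]; ring
  · cases k
    · by_cases h : i.val = 0
      · rw [lnu_tp0 h]; simp only [vl, hV.aT.1, hV.aT.2, h]; rw [e0]; ring
      · rw [lnu_tp h]
        have : (pr M i).val + 1 = i.val := by simp only [pr]; omega
        simp only [vl, this]; ring
    · by_cases h : i.val = M
      · rw [lnu_tnM h]; simp only [vl, hV.bT.1, hV.bT.2, h]; rw [eM]; ring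
      · rw [lnu_tn h]
        have : (sc M i).val = i.val + 1 := by simp only [sc]; omega
        simp only [vl, this]
    · rw [lnu_tr]; rfl
    · by_cases h : i.val = 0
      · rw [lnu_up0 h]; simp only [vl, hV.aU.1, hV.aU.2, h]; rw [e0, hM']; ring
      · rw [lnu_up h]
        have : (pr M i).val + 1 = i.val := by simp only [pr]; omega
        simp only [vl, this]
    · by_cases h : i.val = M
      · rw [lnu_unM h]; simp only [vl, hV.bU.1, hV.bU.2, h]; rw [eM, hM']; ring
      · rw [lnu_un h]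
        have : (sc M i).val = i.val + 1 := by simp only [sc]; omega
        simp only [vl, this]; ring
    · rw [lnu_ur]; simp only [vl]; ring

include hV hM in
/-- all differences occur -/
theorem vl_cov (u : ℕ) (hu : u = 2 ∨ (5 ≤ u ∧ u ≤ 3 * M + 30)) :
    ∃ x : LL M, vl V l M x = u ∨ vl V l M x = - (u : ℤ) := by
  have he := hV.he
  have hl : (M : ℤ) = 2 * l + V.e := by rw [hM]; push_cast; ring
  have core : ∀ k < 21, (expA V.e k + expB k * l = u) →
      ∃ x : LL M, vl V l M x = u ∨ vl V l M x = - (u : ℤ) := by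
    intro k hk h
    refine ⟨Sum.inl (V.cv k), ?_⟩
    rcases hV.cov k hk with ⟨h1, h2⟩ | ⟨h1, h2⟩
    · left; simp only [vl, h1, h2]; exact h
    · right; simp only [vl, h1, h2]; rw [← h]; ring
  rcases hu with rfl | ⟨h1, h2⟩
  · exact ⟨Sum.inl 0, Or.inl (by simp [vl, hV.two.1, hV.two.2])⟩
  -- rungs
  by_cases c1 : u ≤ M + 5
  · refine ⟨Sum.inr (⟨M + 5 - u, by omega⟩, K6.tr), ?_⟩
    simp only [vl, tt]
    rcases Nat.even_or_odd' (M + 5 - u) with ⟨q, hq | hq⟩
    · left
      rw [hq, if_pos (by omega), if_neg (by omega), show 2 * q / 2 = q by omega,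
        show (2 * q + 1) / 2 = q by omega]
      omega
    · right
      rw [hq, if_neg (by omega), if_pos (by omega), show (2 * q + 1) / 2 = q by omega,
        show (2 * q + 1 + 1) / 2 = q + 1 by omega]
      push_cast
      omega
  have hu' : (u : ℤ) = u := rfl
  by_cases c2 : u ≤ M + 12
  · obtain ⟨k, hk⟩ : ∃ k, u = M + 6 + k := ⟨u - (M + 6), by omega⟩
    refine core k (by omega) ?_
    simp only [expA, expB]
    rw [if_pos (by omega), if_pos (by omega)]
    push_cast [hk]; linarith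
  -- middle of the rails
  have rail : ∀ w : ℕ, 2 * M + 22 ≤ w → w ≤ 3 * M + 27 →
      (∃ i : ℕ, i ≤ M + 1 ∧ tt ((M : ℤ) + 5) i = w) ∨ (∃ k, k < 4 ∧ w = 2 * M + 23 + l + k) := by
    intro w hw1 hw2
    by_cases d1 : w ≤ 2 * M + 22 + l
    · left
      refine ⟨2 * (w - (2 * M + 22)) + 1, by omega, ?_⟩
      simp only [tt]
      rw [if_neg (by omega), show (2 * (w - (2 * M + 22)) + 1) / 2 = w - (2 * M + 22) by omega]
      omega
    · by_cases d2 : w ≤ 2 * M + 26 + l
      · right; exact ⟨w - (2 * M + 23 + l), by omega, by omega⟩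
      · left
        refine ⟨2 * (3 * M + 27 - w), by omega, ?_⟩
        simp only [tt]
        rw [if_pos (by omega), show (2 * (3 * M + 27 - w)) / 2 = 3 * M + 27 - w by omega]
        omega
  by_cases c3 : u ≤ 2 * M + 18
  · -- lower rail
    rcases rail (u + (M + 9)) (by omega) (by omega) with ⟨i, hi, hit⟩ | ⟨k, hk, hk'⟩
    · by_cases hiM : i ≤ M
      · refine ⟨Sum.inr (⟨i, by omega⟩, K6.up), Or.inl ?_⟩
        simp only [vl]; rw [hit]; push_cast; ring
      · refine ⟨Sum.inr (⟨M, by omega⟩, K6.un), Or.inr ?_⟩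
        have : i = M + 1 := by omega
        simp only [vl]; rw [← this, hit]; push_cast; ring
    · refine core (17 + k) (by omega) ?_
      simp only [expA, expB]
      rw [if_neg (by omega), if_neg (by omega), if_neg (by omega), if_neg (by omega),
        if_neg (by omega), if_neg (by omega), if_neg (by omega), if_neg (by omega)]
      push_cast
      omega
  by_cases c4 : u ≤ 2 * M + 21
  · obtain ⟨k, hk⟩ : ∃ k, u = 2 * M + 19 + k := ⟨u - (2 * M + 19), by omega⟩
    refine core (7 + k) (by omega) ?_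
    simp only [expA, expB]
    rw [if_neg (by omega), if_pos (by omega), if_neg (by omega), if_pos (by omega)]
    push_cast [hk]; linarith
  by_cases c5 : u ≤ 3 * M + 27
  · rcases rail u (by omega) c5 with ⟨i, hi, hit⟩ | ⟨k, hk, hk'⟩
    · by_cases hiM : i ≤ M
      · exact ⟨Sum.inr (⟨i, by omega⟩, K6.tp), Or.inr (by simp only [vl]; rw [hit])⟩
      · have : i = M + 1 := by omega
        exact ⟨Sum.inr (⟨M, by omega⟩, K6.tn), Or.inl (by simp only [vl]; rw [← this, hit])⟩
    · refine core (13 + k) (by omega) ?_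
      simp only [expA, expB]
      rw [if_neg (by omega), if_neg (by omega), if_neg (by omega), if_pos (by omega),
        if_neg (by omega), if_neg (by omega), if_neg (by omega), if_pos (by omega)]
      push_cast [hk']
      omega
  · obtain ⟨k, hk⟩ : ∃ k, u = 3 * M + 28 + k := ⟨u - (3 * M + 28), by omega⟩
    refine core (10 + k) (by omega) ?_
    simp only [expA, expB]
    rw [if_neg (by omega), if_neg (by omega), if_pos (by omega), if_neg (by omega),
      if_neg (by omega), if_pos (by omega)]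
    push_cast [hk]; linarith

/-- the moves over the integers -/
def RZ {Lab : Type} (π ν : Perm Lab) (val : Lab → ℤ) (p q : ℤ × Lab) : Prop :=
  q = (p.1, π p.2) ∨ q = (p.1 + val p.2, ν p.2)

section conn

variable {Lab : Type} {π ν : Perm Lab} {val : Lab → ℤ}

theorem rz_cl {x y : Lab} (h : cl π x = cl π y) (z : ℤ) :
    Relation.EqvGen (RZ π ν val) (z, x) (z, y) := by
  have h' := Quot.eqvGen_exact h
  induction h' with
  | rel a b hr => subst hr; exact Relation.EqvGen.rel _ _ (Or.inl rfl)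
  | refl a => exact Relation.EqvGen.refl _
  | symm a b hab ih => exact (ih (Quot.eqvGen_sound hab)).symm
  | trans a b c hab hbc ih1 ih2 =>
    exact (ih1 (Quot.eqvGen_sound hab)).trans _ _ _ (ih2 (Quot.eqvGen_sound hbc))

theorem rz_nu (x : Lab) (z : ℤ) : Relation.EqvGen (RZ π ν val) (z, x) (z + val x, ν x) :=
  Relation.EqvGen.rel _ _ (Or.inr rfl)

/-- translations fixing the base -/
def Hs (π ν : Perm Lab) (val : Lab → ℤ) (b : Lab) (h : ℤ) : Prop :=
  ∀ z, Relation.EqvGen (RZ π ν val) (z, b) (z + h, b)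

theorem Hs.add {b : Lab} {h h' : ℤ} (p : Hs π ν val b h) (q : Hs π ν val b h') :
    Hs π ν val b (h + h') := by
  intro z
  have := (p z).trans _ _ _ (q (z + h))
  rwa [add_assoc] at this

theorem Hs.neg {b : Lab} {h : ℤ} (p : Hs π ν val b h) : Hs π ν val b (-h) := by
  intro z
  have := (p (z - h)).symm
  rwa [sub_add_cancel, sub_eq_add_neg] at this

theorem Hs.zero {b : Lab} : Hs π ν val b 0 := by
  intro z; rw [add_zero]; exact Relation.EqvGen.refl _

theorem Hs.nmul {b : Lab} {h : ℤ} (p : Hs π ν val b h) (k : ℕ) : Hs π ν val b (k * h) := by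
  induction k with
  | zero => simpa using Hs.zero
  | succ k ih =>
    have := ih.add p
    have e : (k : ℤ) * h + h = (k + 1 : ℕ) * h := by push_cast; ring
    rwa [e] at this

theorem Hs.mul {b : Lab} {h : ℤ} (p : Hs π ν val b h) (k : ℤ) : Hs π ν val b (k * h) := by
  obtain ⟨n, rfl | rfl⟩ := Int.eq_nat_or_neg k
  · exact p.nmul n
  · have := (p.nmul n).neg
    rwa [← neg_mul] at this

theorem Hs.shift {b c1 c2 : Lab} (h1 : cl π c1 = cl π b) (h2 : cl π (ν c1) = cl π c2)
    (h3 : cl π (ν c2) = cl π b) : Hs π ν val b (val c1 + val c2) := by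
  intro z
  have a1 := rz_cl (ν := ν) (val := val) h1.symm z
  have a2 := rz_nu (π := π) (ν := ν) (val := val) c1 z
  have a3 := rz_cl (ν := ν) (val := val) h2 (z + val c1)
  have a4 := rz_nu (π := π) (ν := ν) (val := val) c2 (z + val c1)
  have a5 := rz_cl (ν := ν) (val := val) h3 (z + val c1 + val c2)
  have := (((a1.trans _ _ _ a2).trans _ _ _ a3).trans _ _ _ a4).trans _ _ _ a5
  rwa [add_assoc] at this

theorem conn_of {b : Lab} (h1 : Hs π ν val b 1)
    (h2 : ∀ x : Lab, ∃ k : ℤ, ∀ z, Relation.EqvGen (RZ π ν val) (z, x) (z + k, b)) :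
    ∀ p q : ℤ × Lab, Relation.EqvGen (RZ π ν val) p q := by
  rintro ⟨z, x⟩ ⟨z', x'⟩
  obtain ⟨k, hk⟩ := h2 x
  obtain ⟨k', hk'⟩ := h2 x'
  have a := hk z
  have a' := hk' z'
  have m := (h1.mul (z' + k' - (z + k))) (z + k)
  have e : z + k + (z' + k' - (z + k)) * 1 = z' + k' := by ring
  rw [e] at m
  exact (a.trans _ _ _ m).trans _ _ _ a'.symm

end conn

theorem cl_of_name {x y : LL M} (h : name K M x = name K M y) : cl (ppi hK M) x = cl (ppi hK M) y := by
  rw [c_rep hK x, c_rep hK y, h]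

/-- every label is connected to the base -/
theorem to_base (x : LL M) : ∃ k : ℤ, ∀ z, Relation.EqvGen (RZ (ppi hK M) (pnu hK M) (vl V l M))
    (z, x) (z + k, Sum.inl K.aT) := by
  by_cases h0 : name K M x = 0
  · refine ⟨0, fun z => ?_⟩
    rw [add_zero]
    refine rz_cl (cl_of_name hK ?_) z
    rw [h0]; exact hK.nmaT.symm
  have key : ∀ y : LL M, name K M y = name K M x → name K M (lnu K M y) = 0 →
      ∃ k : ℤ, ∀ z, Relation.EqvGen (RZ (ppi hK M) (pnu hK M) (vl V l M))
      (z, x) (z + k, Sum.inl K.aT) := by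
    intro y h1 h2
    refine ⟨vl V l M y, fun z => ?_⟩
    refine (rz_cl (cl_of_name hK h1.symm) z).trans _ _ _ ?_
    refine (rz_nu y z).trans _ _ _ ?_
    exact rz_cl (cl_of_name hK (x := lnu K M y) (y := Sum.inl K.aT) (h2.trans hK.nmaT.symm)) _
  by_cases h9 : name K M x < 9
  · obtain ⟨e1, e2, e3⟩ := hK.erc _ h9 h0
    refine key (Sum.inl (K.nu (K.er (name K M x)))) e2 ?_
    rw [lnu_in (hK.nuin _ e3).1, hK.nu2]
    exact e1
  · have hlt := name_lt x hK
    refine key (Sum.inr (⟨name K M x - 8, by omega⟩, K6.tp)) ?_ ?_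
    · show (if name K M x - 8 = 0 then K.nm K.aU else 8 + (name K M x - 8)) = _
      rw [if_neg (by omega)]; omega
    · rw [lnu_tp (by show name K M x - 8 ≠ 0; omega)]
      exact hK.nmaT

end Run7.h243
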